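import Pool.Agent.MP_54d89f_nt.Dw.St

namespace Pool.Agent.MP_54d89f_nt.Dw

open Finset Pool.Agent.MP_030fd4_nt

variable {p : ℕ} [Fact p.Prime]

/-- The function p m + c p t. -/
noncomputable def fZ_Blk (c : ℕ) : Fn p := fX + cst (c : ℤ_[p]) * fY

theorem fZ_apply_Blk (c m : ℕ) (t : ℤ_[p]) :
    fZ_Blk c m t = (p : ℚ_[p]) * m + c * (p * t) := by
  simp [fZ_Blk, fX, fY]

theorem G2_Z_Blk (E : Eps p) (c : ℕ) : (G2 E).N (fZ_Blk c) (E.e ^ 1) :=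
  (G2 E).add (G2_X E) ((G2 E).mul1 (G2_cst E _) ((G2 E).mono (G2_Y E) (E.le (by omega))))

theorem G2_Z1_Blk (E : Eps p) (c : ℕ) : (G2 E).N (fZ_Blk c) 1 :=
  (G2 E).mono (G2_Z_Blk E c) (E.le_one _)

theorem G2_ZX_Blk (E : Eps p) (c : ℕ) : (G2 E).N (fZ_Blk c - fX) (E.e ^ 2) := by
  rw [fZ_Blk, add_sub_cancel_left]
  exact (G2 E).mul1 (G2_cst E _) (G2_Y E)

theorem cont_Z_Blk (c m : ℕ) : Continuous (fZ_Blk (p := p) c m) := by
  have hY := cont_coe (p := p)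
  rw [show fZ_Blk c m = _ from funext fun t => fZ_apply_Blk c m t]
  fun_prop

theorem norm_unit_Blk (c m : ℕ) (t : ℤ_[p]) {i : ℕ} (hi : i + 1 < p) :
    ‖fZ_Blk c m t + (1 + i)‖ = 1 := by
  obtain ⟨E⟩ := Eps.nonempty (p := p)
  have h1 : ‖fZ_Blk c m t‖ < 1 :=
    (G2_pt E (G2_Z_Blk E c) m t).trans_lt (by simpa using E.lt)
  have h2 : ‖(1 + i : ℚ_[p])‖ = 1 := by
    simpa using norm_lin_unit (p := p) 0 hi
  rw [IsUltrametricDist.norm_add_eq_max_of_norm_ne_norm (by rw [h2]; exact h1.ne), h2]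
  exact max_eq_right h1.le

theorem norm_B_Blk (c m : ℕ) (t : ℤ_[p]) : ‖fQ 1 (p - 1) (fZ_Blk c) m t‖ = 1 := by
  rw [fQ_apply, norm_prod]
  refine prod_eq_one fun i hi => ?_
  have h1 := mem_range.1 (mem_of_mem_erase hi)
  have h2 := ne_of_mem_erase hi
  simpa using norm_unit_Blk (p := p) c m t (i := i) (by omega)

theorem norm_BI_Blk (c m : ℕ) (t : ℤ_[p]) :
    ‖(fQ 1 (p - 1) (fZ_Blk c) * fI : Fn p) m t‖ = 1 := by
  simp only [Pi.mul_apply, fI, norm_mul, norm_inv, norm_B_Blk, norm_fQ4, inv_one, mul_one]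

/-- The inverse ratio of a lower block. -/
noncomputable def fJ_Blk (c : ℕ) : Fn p :=
  fun m t => ((fQ 1 (p - 1) (fZ_Blk c) * fI : Fn p) m t)⁻¹

theorem G2_J_Blk (E : Eps p) (hp : 5 ≤ p) (c : ℕ) : (G2 E).N (fJ_Blk c - 1) (E.e ^ 5) := by
  have h1 : (G2 E).N (fQ 1 (p - 1) (fZ_Blk c) * fI - 1) (E.e ^ 5) :=
    G2_ratio E hp (by omega) ⟨1, by rw [Nat.cast_sub (by omega)]; simp⟩ (G2_Z_Blk E c)
      (G2_ZX_Blk E c)
  have h2 : (G2 E).N (fQ 1 (p - 1) (fZ_Blk c) * fI) 1 := by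
    have := (G2 E).add ((G2 E).mono h1 (E.le_one _)) (G2 E).one
    rwa [sub_add_cancel] at this
  have h3 : (G2 E).N (fJ_Blk c) 1 := G2_inv E h2 (norm_BI_Blk c)
  have e0 : (fQ 1 (p - 1) (fZ_Blk c) * fI) * fJ_Blk c = (1 : Fn p) := by
    funext m t
    refine mul_inv_cancel₀ fun h => ?_
    have := norm_BI_Blk c m t
    rw [h] at this
    simp at this
  have e1 : fJ_Blk c - 1 = -((fQ 1 (p - 1) (fZ_Blk c) * fI - 1) * fJ_Blk c : Fn p) := by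
    linear_combination e0
  rw [e1]
  exact (G2 E).neg ((G2 E).mul1' h1 h3)

theorem fermat_Blk (hp : 5 ≤ p) : (p : ℤ_[p]) ∣ 4 ^ (p - 1) - 1 := by
  have h1 : ¬ p ∣ 4 := not_dvd_of_lt (by omega) (by omega)
  have h2 : 4 ^ (p - 1) ≡ 1 [MOD p] := by
    have := Nat.ModEq.pow_totient
      ((Nat.Prime.coprime_iff_not_dvd (Fact.out : p.Prime)).2 h1).symm
    rwa [Nat.totient_prime Fact.out] at this
  obtain ⟨k, hk⟩ := h2.symm.dvd
  refine ⟨(k : ℤ_[p]), ?_⟩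
  exact_mod_cast congrArg (fun z : ℤ => (z : ℤ_[p])) hk

/-- The ratio of unit parts of one block. -/
noncomputable def fq_Blk (hf : ℤ_[p]) : Fn p :=
  cst (4 ^ (p - 1)) * (fQ hf (p / 2) (fZ_Blk 1) * fI) * (fQ hf (p / 2) (fZ_Blk 2) * fI) *
    (fQ hf (p / 2) (fZ_Blk 3) * fI) * fJ_Blk 2 * fJ_Blk 4

theorem G2_q_Blk (E : Eps p) (hp : 5 ≤ p) {hf : ℤ_[p]} (h2 : 2 * hf = 1) :
    (G2 E).N (fq_Blk hf - 1) (E.e ^ 5) := by
  have hA : ∀ c : ℕ, (G2 E).N (fQ hf (p / 2) (fZ_Blk c) * fI - 1) (E.e ^ 5) := fun c =>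
    G2_ratio E hp (by omega) ⟨hf, half_add hp h2⟩ (G2_Z_Blk E c) (G2_ZX_Blk E c)
  have h4 : (G2 E).N (cst (4 ^ (p - 1) : ℤ_[p]) - 1) (E.e ^ 5) := by
    obtain ⟨k, hk⟩ := fermat_Blk hp
    rw [← map_one (cst (p := p)), ← map_sub, hk, map_mul]
    exact (G2 E).mono ((G2 E).mul1' (G2_p E) (G2_cst E _)) (E.le (by omega))
  have l := E.le_one 5
  exact (G2 E).one_add_mul l ((G2 E).one_add_mul l ((G2 E).one_add_mul l
    ((G2 E).one_add_mul l ((G2 E).one_add_mul l h4 (hA 1)) (hA 2)) (hA 3)) (G2_J_Blk E hp 2))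
    (G2_J_Blk E hp 4)

/-- The product of the ratios. -/
noncomputable def fU_Blk (hf : ℤ_[p]) : Fn p := fun m => ∏ l ∈ range m, fq_Blk hf l

theorem G2_U_Blk (E : Eps p) (hp : 5 ≤ p) {hf : ℤ_[p]} (h2 : 2 * hf = 1) :
    (G2 E).N (fU_Blk hf) 1 := by
  have hq := G2_q_Blk E hp h2
  have hq1 : (G2 E).N (fq_Blk hf) 1 := by
    have := (G2 E).add ((G2 E).mono hq (E.le_one _)) (G2 E).one
    rwa [sub_add_cancel] at this
  refine Gauge.lift_prodFun (fun m => ?_) hq fun m => prod_range_succ _ _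
  exact (G1 E).prod _ _ fun l _ => Gauge.lift_pt hq1 l

/-- The inverse of a lower linear factor. -/
noncomputable def fv_Blk (c i : ℕ) : Fn p :=
  fun m t => ((fZ_Blk c + cst (1 + (i : ℤ_[p])) : Fn p) m t)⁻¹

theorem fv_apply_Blk (c i m : ℕ) (t : ℤ_[p]) :
    fv_Blk c i m t = (fZ_Blk c m t + (1 + i))⁻¹ := by
  simp [fv_Blk]

theorem G2_v_Blk (E : Eps p) (c : ℕ) {i : ℕ} (hi : i + 1 < p) : (G2 E).N (fv_Blk c i) 1 :=
  G2_inv E ((G2 E).add (G2_Z1_Blk E c) (G2_cst E (1 + (i : ℤ_[p])))) fun m t => by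
    simpa using norm_unit_Blk c m t hi

theorem cont_v_Blk (c : ℕ) {i : ℕ} (hi : i + 1 < p) (m : ℕ) :
    Continuous (fv_Blk (p := p) c i m) := by
  rw [show fv_Blk c i m = _ from funext fun t => fv_apply_Blk c i m t]
  refine ((cont_Z_Blk c m).add continuous_const).inv₀ fun t h => ?_
  have := norm_unit_Blk c m t hi
  rw [show fZ_Blk c m t + (1 + i) = 0 from h] at this
  simp at this

/-- One factor of the term inside a block. -/
noncomputable def fw_Blk (hf : ℤ_[p]) (i : ℕ) : Fn p :=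
  cst 4 * (fZ_Blk 1 + cst (hf + (i : ℤ_[p]))) * (fZ_Blk 2 + cst (hf + (i : ℤ_[p]))) *
    (fZ_Blk 3 + cst (hf + (i : ℤ_[p]))) * fv_Blk 0 i * fv_Blk 2 i * fv_Blk 4 i

theorem four_Blk : ((4 : ℤ_[p]) : ℚ_[p]) = 4 := by
  exact_mod_cast PadicInt.coe_natCast (p := p) 4

theorem fw_apply_Blk (hf : ℤ_[p]) (i m : ℕ) (t : ℤ_[p]) : fw_Blk hf i m t =
    4 * (fZ_Blk 1 m t + (hf + i)) * (fZ_Blk 2 m t + (hf + i)) * (fZ_Blk 3 m t + (hf + i)) *
      (fZ_Blk 0 m t + (1 + i))⁻¹ * (fZ_Blk 2 m t + (1 + i))⁻¹ * (fZ_Blk 4 m t + (1 + i))⁻¹ := by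
  simp only [fw_Blk, Pi.mul_apply, Pi.add_apply, cst_apply, fv_apply_Blk, PadicInt.coe_add,
    PadicInt.coe_natCast, four_Blk]

theorem G2_w_Blk (E : Eps p) (hf : ℤ_[p]) {i : ℕ} (hi : i + 1 < p) :
    (G2 E).N (fw_Blk hf i) 1 := by
  have hA : ∀ c : ℕ, (G2 E).N (fZ_Blk c + cst (hf + (i : ℤ_[p]))) 1 := fun c =>
    (G2 E).add (G2_Z1_Blk E c) (G2_cst E _)
  exact (G2 E).mul1 ((G2 E).mul1 ((G2 E).mul1 ((G2 E).mul1 ((G2 E).mul1 ((G2 E).mul1
    (G2_cst E _) (hA 1)) (hA 2)) (hA 3)) (G2_v_Blk E 0 hi)) (G2_v_Blk E 2 hi)) (G2_v_Blk E 4 hi)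

theorem cont_w_Blk (hf : ℤ_[p]) {i : ℕ} (hi : i + 1 < p) (m : ℕ) :
    Continuous (fw_Blk hf i m) := by
  have hA : ∀ c : ℕ, Continuous ((fZ_Blk c + cst (hf + (i : ℤ_[p])) : Fn p) m) := fun c =>
    (cont_Z_Blk c m).add continuous_const
  have h4 : Continuous ((cst 4 : Fn p) m) := continuous_const
  exact (((((h4.mul (hA 1)).mul (hA 2)).mul (hA 3)).mul (cont_v_Blk 0 hi m)).mul
    (cont_v_Blk 2 hi m)).mul (cont_v_Blk 4 hi m)

/-- The initial part of a block. -/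
noncomputable def fV_Blk (hf : ℤ_[p]) (j : ℕ) : Fn p := ∏ i ∈ range j, fw_Blk hf i

theorem fV_apply_Blk (hf : ℤ_[p]) (j m : ℕ) (t : ℤ_[p]) :
    fV_Blk hf j m t = ∏ i ∈ range j, fw_Blk hf i m t := by
  simp [fV_Blk, Finset.prod_apply]

theorem G2_V_Blk (E : Eps p) (hf : ℤ_[p]) {j : ℕ} (hj : j < p) : (G2 E).N (fV_Blk hf j) 1 :=
  (G2 E).prod _ _ fun i hi => G2_w_Blk E hf (by have := mem_range.1 hi; omega)

theorem cont_V_Blk (hf : ℤ_[p]) {j : ℕ} (hj : j < p) (m : ℕ) : Continuous (fV_Blk hf j m) := by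
  rw [show fV_Blk hf j m = _ from funext fun t => fV_apply_Blk hf j m t]
  exact continuous_finsetProd _ fun i hi => cont_w_Blk hf (by have := mem_range.1 hi; omega) m

theorem cont_U_Blk (hf : ℤ_[p]) (m : ℕ) : Continuous (fU_Blk hf m) := by
  have e : fU_Blk hf m = fun t => ∏ l ∈ range m, fq_Blk hf l t := by
    funext t; simp [fU_Blk, Finset.prod_apply]
  rw [e]
  refine continuous_finsetProd _ fun l _ => ?_
  have hI : Continuous (fI (p := p) l) := by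
    have : fI (p := p) l = fun _ => fI (p := p) l 0 := by
      funext t; simp [fI, fQ_apply, fX]
    rw [this]; exact continuous_const
  have hQ : ∀ (y : ℤ_[p]) (i0 c : ℕ), Continuous ((fQ y i0 (fZ_Blk c) * fI : Fn p) l) := by
    intro y i0 c
    refine Continuous.mul ?_ hI
    rw [show fQ y i0 (fZ_Blk c) l = _ from funext fun t => fQ_apply y i0 (fZ_Blk c) l t]
    exact continuous_finsetProd _ fun i _ => (cont_Z_Blk c l).add continuous_const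
  have hJ : ∀ c : ℕ, Continuous (fJ_Blk (p := p) c l) := fun c => by
    refine (hQ 1 (p - 1) c).inv₀ fun t h => ?_
    have := norm_BI_Blk c l t
    rw [h] at this
    simp at this
  have h4 : Continuous ((cst (4 ^ (p - 1)) : Fn p) l) := continuous_const
  exact ((((h4.mul (hQ _ _ 1)).mul (hQ _ _ 2)).mul (hQ _ _ 3)).mul (hJ 2)).mul (hJ 4)

theorem inblock_Blk {hf : ℤ_[p]} (h2 : 2 * hf = 1) (m : ℕ) (t : ℤ_[p]) (j : ℕ) :
    f ((p : ℚ_[p]) * t) (p * m + j) = f ((p : ℚ_[p]) * t) (p * m) * fV_Blk hf j m t := by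
  induction j with
  | zero => simp [fV_Blk]
  | succ j ih =>
    rw [← add_assoc, f_succ, ih]
    simp only [fV_apply_Blk, prod_range_succ, fw_apply_Blk, fZ_apply_Blk, coe_half h2, up, dn]
    push_cast
    rw [div_eq_mul_inv (4 * _ * _ * _), mul_inv, mul_inv,
      show (p : ℚ_[p]) * m + j + 1 + 2 * (p * t) = p * m + 2 * (p * t) + (1 + j) by ring,
      show (p : ℚ_[p]) * m + j + 1 + 4 * (p * t) = p * m + 4 * (p * t) + (1 + j) by ring,
      show (p : ℚ_[p]) * m + j + 1 = p * m + 0 * (p * t) + (1 + j) by ring]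
    ring

theorem full_Blk (hp : 5 ≤ p) {hf : ℤ_[p]} (h2 : 2 * hf = 1) (m : ℕ) (t : ℤ_[p]) :
    fV_Blk hf p m t = up (t : ℚ_[p]) m / dn (t : ℚ_[p]) ((m : ℚ_[p]) + 1) * fq_Blk hf m t := by
  have hh : (hf : ℚ_[p]) + ((p / 2 : ℕ) : ℚ_[p]) = p * (1 / 2) := by
    have := congrArg (fun z : ℤ_[p] => (z : ℚ_[p])) (half_add hp h2)
    simp only [PadicInt.coe_add, PadicInt.coe_mul, PadicInt.coe_natCast] at this
    rw [this, coe_half h2]
  have c4 : ((p - 1 : ℕ) : ℚ_[p]) = p - 1 := by rw [Nat.cast_sub (by omega)]; simp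
  have eA : ∀ c : ℕ, ∏ i ∈ range p, (fZ_Blk c m t + ((hf : ℚ_[p]) + i)) =
      p * (1 / 2 + c * t + m) * fQ hf (p / 2) (fZ_Blk c) m t := fun c => by
    rw [prod_split hf (i0 := p / 2) (by omega), hh, fZ_apply_Blk]; ring
  have eB : ∀ c : ℕ, ∏ i ∈ range p, (fZ_Blk c m t + (1 + (i : ℚ_[p]))) =
      p * (m + 1 + c * t) * fQ 1 (p - 1) (fZ_Blk c) m t := fun c => by
    have := prod_split (1 : ℤ_[p]) (i0 := p - 1) (by omega) (fZ_Blk c) m t
    rw [PadicInt.coe_one] at this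
    rw [this, c4, fZ_apply_Blk]; ring
  have z0 : fZ_Blk (p := p) 0 = fX := by simp [fZ_Blk]
  have hB : ∀ c : ℕ, fQ 1 (p - 1) (fZ_Blk c) m t ≠ 0 := fun c h => by
    simpa [h] using norm_B_Blk c m t
  have hq : fQ 1 (p - 1) fX m t ≠ 0 := fun h => by simpa [h] using norm_fQ4 m t
  have hp0 : (p : ℚ_[p]) ≠ 0 := by exact_mod_cast (by omega : p ≠ 0)
  have e4 : (4 : ℚ_[p]) ^ p = 4 * 4 ^ (p - 1) := by
    rw [← pow_succ', Nat.sub_add_cancel (by omega)]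
  simp only [fV_apply_Blk, fw_apply_Blk, prod_mul_distrib, prod_inv_distrib, prod_const,
    card_range, eA, eB]
  simp only [fq_Blk, fJ_Blk, fI, Pi.mul_apply, cst_apply, PadicInt.coe_pow, four_Blk, z0, up, dn,
    div_eq_mul_inv (4 * _ * _ * _ : ℚ_[p]), mul_inv, e4]
  push_cast
  have b2 := hB 2
  have b4 := hB 4
  rw [zero_mul, add_zero]
  generalize ((m : ℚ_[p]) + 1 + 2 * t)⁻¹ = u2
  generalize ((m : ℚ_[p]) + 1 + 4 * t)⁻¹ = u4
  generalize ((m : ℚ_[p]) + 1)⁻¹ = u0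
  field_simp

theorem block_Blk (hp : 5 ≤ p) {hf : ℤ_[p]} (h2 : 2 * hf = 1) (t : ℤ_[p]) (m : ℕ) :
    f ((p : ℚ_[p]) * t) (p * m) = f (t : ℚ_[p]) m * fU_Blk hf m t := by
  induction m with
  | zero => simp [f_zero, fU_Blk]
  | succ m ih =>
    rw [mul_add, mul_one, inblock_Blk h2, ih, full_Blk hp h2, f_succ]
    simp only [fU_Blk, prod_range_succ, Pi.mul_apply]
    ring

/-- The weight inside a block. -/
noncomputable def fE_Blk (i : Fin 3) (j : ℕ) : Fn p :=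
  fun m t => e i ((p : ℚ_[p]) * t) ((p * m + j : ℕ) : ℚ_[p])

theorem G2_E_Blk (E : Eps p) (i : Fin 3) (j : ℕ) : (G2 E).N (fE_Blk i j) 1 := by
  have hL : ∀ a : ℕ, (G2 E).N (cst ((3 : ℕ) : ℤ_[p]) * fZ_Blk 2 + cst ((3 * j + a : ℕ) : ℤ_[p])) 1 :=
    fun a => (G2 E).add ((G2 E).mul1 (G2_cst E _) (G2_Z1_Blk E 2)) (G2_cst E _)
  have h0 : fE_Blk (p := p) 0 j = 1 := by funext m t; simp [fE_Blk]
  have h1 : fE_Blk (p := p) 1 j =
      cst ((3 : ℕ) : ℤ_[p]) * fZ_Blk 2 + cst ((3 * j + 1 : ℕ) : ℤ_[p]) := by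
    funext m t
    simp only [fE_Blk, e_one, Pi.add_apply, Pi.mul_apply, cst_apply, PadicInt.coe_natCast,
      fZ_apply_Blk]
    push_cast; ring
  have h2 : fE_Blk (p := p) 2 j =
      (cst ((3 : ℕ) : ℤ_[p]) * fZ_Blk 2 + cst ((3 * j + 1 : ℕ) : ℤ_[p])) *
        (cst ((3 : ℕ) : ℤ_[p]) * fZ_Blk 2 + cst ((3 * j + 2 : ℕ) : ℤ_[p])) := by
    funext m t
    simp only [fE_Blk, e_two, Pi.add_apply, Pi.mul_apply, cst_apply, PadicInt.coe_natCast,
      fZ_apply_Blk]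
    push_cast; ring
  rcases (by decide : ∀ i : Fin 3, i = 0 ∨ i = 1 ∨ i = 2) i with rfl | rfl | rfl
  · rw [h0]; exact (G2 E).one
  · rw [h1]; exact hL 1
  · rw [h2]; exact (G2 E).mul1 (hL 1) (hL 2)

theorem cont_E_Blk (i : Fin 3) (j m : ℕ) : Continuous (fE_Blk (p := p) i j m) := by
  have hY := cont_coe (p := p)
  unfold fE_Blk
  rcases (by decide : ∀ i : Fin 3, i = 0 ∨ i = 1 ∨ i = 2) i with rfl | rfl | rfl
  · simp only [e_zero]; fun_prop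
  · simp only [e_one]; fun_prop
  · simp only [e_two]; fun_prop

theorem blk (hp : 5 ≤ p) : BlkSt p := by
  intro i
  obtain ⟨hf, h2⟩ := exists_half hp
  refine ⟨fU_Blk hf * ∑ j ∈ range p, fV_Blk hf j * fE_Blk i j, fun E => ?_, fun m => ?_,
    fun t N => ?_⟩
  · exact (G2 E).mul1 (G2_U_Blk E hp h2) ((G2 E).sum _ _ zero_le_one fun j hj =>
      (G2 E).mul1 (G2_V_Blk E hf (mem_range.1 hj)) (G2_E_Blk E i j))
  · have e : (fU_Blk hf * ∑ j ∈ range p, fV_Blk hf j * fE_Blk i j : Fn p) m =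
        fun t => fU_Blk hf m t * ∑ j ∈ range p, fV_Blk hf j m t * fE_Blk i j m t := by
      funext t; simp [Finset.sum_apply]
    rw [e]
    exact (cont_U_Blk hf m).mul (continuous_finsetSum _ fun j hj =>
      (cont_V_Blk hf (mem_range.1 hj) m).mul (cont_E_Blk i j m))
  · rw [M, sum_blocks]
    refine sum_congr rfl fun m _ => ?_
    simp only [Pi.mul_apply, Finset.sum_apply, mul_sum]
    refine sum_congr rfl fun j _ => ?_
    rw [inblock_Blk h2, block_Blk hp h2, fE_Blk]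
    ring

end Pool.Agent.MP_54d89f_nt.Dw
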