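import Pool.Agent.MP_54d89f_nt.Dw.Gk

/-! The bound for the coefficients of the splitting series. -/

namespace Pool.Agent.MP_54d89f_nt.Dw

open Finset Pool.Agent.MP_030fd4_nt

variable {p : ℕ} [Fact p.Prime]

theorem newton_Bnd {K : Type*} [CommRing K] (h c : ℕ → K)
    (e : ∀ m, h m = ∑ k ∈ range (m + 1), c k * (m.choose k : K)) (k : ℕ) :
    (fwdDiff 1)^[k] h 0 = c k := by
  induction k using Nat.strong_induction_on with
  | _ k ih =>
    have h1 := shift_eq_sum_fwdDiff_iter (h := (1 : ℕ)) h k 0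
    rw [zero_add, smul_eq_mul, mul_one, e k, sum_range_succ, sum_range_succ, Nat.choose_self,
      one_smul, Nat.cast_one, mul_one] at h1
    have h2 : ∑ j ∈ range k, k.choose j • (fwdDiff 1)^[j] h 0 =
        ∑ j ∈ range k, c j * (k.choose j : K) :=
      sum_congr rfl fun j hj => by rw [ih j (mem_range.1 hj), nsmul_eq_mul, mul_comm]
    rw [h2] at h1
    exact (add_left_cancel h1).symm

theorem step_Bnd (hp : 7 ≤ p) (hg : GamSt p) {a : ℕ} (ha : a < p) (m : ℕ) (t : ℤ_[p]) :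
    (gammaP p (-(a : ℤ_[p]) - p * (m + 1 : ℕ)) : ℚ_[p]) *
      -fQ (-(a : ℤ_[p])) a (-fX - cst (p : ℤ_[p])) m t =
      (gammaP p (-(a : ℤ_[p]) - p * m) : ℚ_[p]) := by
  have h := hg.1 (-(a : ℤ_[p]) - p * (m + 1 : ℕ)) (-((m + 1 : ℕ) : ℤ_[p])) a p ha (by ring)
  have e1 : (p + p - 1 - a) / p = 1 := Nat.div_eq_of_lt_le (by omega) (by omega)
  have e2 : -(a : ℤ_[p]) - p * (m + 1 : ℕ) + p = -(a : ℤ_[p]) - p * m := by push_cast; ring
  have e3 : (-1 : ℚ_[p]) ^ p = -1 :=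
    ((Fact.out : p.Prime).odd_of_ne_two (by omega)).neg_one_pow
  have e4 : rising ((-(a : ℤ_[p]) - p * (m + 1 : ℕ) : ℤ_[p]) : ℚ_[p]) p =
      -((p : ℚ_[p]) * (m + 1)) * fQ (-(a : ℤ_[p])) a (-fX - cst (p : ℤ_[p])) m t := by
    have := prod_split (-(a : ℤ_[p])) ha (-fX - cst (p : ℤ_[p])) m t
    rw [rising, show -((p : ℚ_[p]) * (m + 1)) = (-fX - cst (p : ℤ_[p]) : Fn p) m t +
      (((-(a : ℤ_[p]) : ℤ_[p]) : ℚ_[p]) + a) by simp [fX]; ring, ← this]
    refine prod_congr rfl fun i _ => ?_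
    simp [fX]; ring
  rw [e1, e2, e3, e4, pow_one, rising_succ, rising_zero] at h
  have h0 : (p : ℚ_[p]) * (m + 1) ≠ 0 :=
    mul_ne_zero (Nat.cast_ne_zero.2 (by omega)) (natCast_add_one_ne m)
  apply mul_left_cancel₀ h0
  push_cast at h ⊢
  linear_combination h

theorem reg_Bnd (E : Eps p) (hp : 7 ≤ p) (hg : GamSt p) {a : ℕ} (ha : a < p) :
    (G2 E).N (fun m _ => (gammaP p (-(a : ℤ_[p]) - p * m) : ℚ_[p])) 1 := by
  obtain ⟨Z, hZ⟩ : ∃ Z : Fn p, Z = -fX - cst (p : ℤ_[p]) := ⟨_, rfl⟩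
  have hs := step_Bnd hp hg ha
  rw [← hZ] at hs
  have gZ : (G2 E).N Z (E.e ^ 1) := by
    rw [hZ]
    exact (G2 E).sub ((G2 E).neg (G2_X E)) ((G2 E).mono (G2_p E) (E.le (by omega)))
  obtain ⟨P, hP⟩ := upart_eq (y := -(a : ℤ_[p])) ha ⟨0, by simp⟩
  obtain ⟨Q, hQ⟩ : ∃ Q : Fn p, Q = -fQ (-(a : ℤ_[p])) a Z := ⟨_, rfl⟩
  have gQ : (G2 E).N (Q - 1) (E.e ^ 5) := by
    have e : Q - 1 = -(Z ^ (p - 1) + cst (p : ℤ_[p]) * P.eval₂ cst Z) := by
      simp only [hQ, fQ, hP, Polynomial.eval₂_add, Polynomial.eval₂_sub, Polynomial.eval₂_mul,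
        Polynomial.eval₂_C, Polynomial.eval₂_one, Polynomial.eval₂_X_pow]
      ring
    rw [e]
    refine (G2 E).neg ((G2 E).add ((G2 E).mono ((G2 E).pow gZ _) ?_) ?_)
    · rw [← pow_mul]; exact E.le (by omega)
    · exact (G2 E).mono ((G2 E).mul1' (G2_p E) ((G2 E).eval₂ cst (G2_cst E)
        ((G2 E).mono gZ (E.le_one _)) _)) (E.le (by omega))
  have gQ1 : (G2 E).N Q 1 := by
    have := (G2 E).add ((G2 E).mono gQ (E.le_one _)) (G2 E).one
    rwa [sub_add_cancel] at this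
  have nQ : ∀ m t, ‖Q m t‖ = 1 := fun m t => by
    have h1 : ‖Q m t - 1‖ < ‖(1 : ℚ_[p])‖ := by
      rw [norm_one]
      exact (G2_pt E gQ m t).trans_lt (pow_lt_one₀ E.pos.le E.lt (by omega))
    have := IsUltrametricDist.norm_add_eq_max_of_norm_ne_norm h1.ne
    rwa [sub_add_cancel, max_eq_right h1.le, norm_one] at this
  have hne : ∀ m t, Q m t ≠ 0 := fun m t h0 => by simpa [h0] using nQ m t
  refine Gauge.lift_prodFun (q := fun m t => (Q m t)⁻¹) (fun m => ?_) ?_ fun m => ?_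
  · exact Gauge.lift_const (G := normGauge p) (PadicInt.norm_le_one _)
  · have e : (fun m t => (Q m t)⁻¹) - 1 = -((Q - 1) * fun m t => (Q m t)⁻¹) := by
      funext m t
      simp only [Pi.sub_apply, Pi.one_apply, Pi.neg_apply, Pi.mul_apply]
      rw [sub_mul, mul_inv_cancel₀ (hne m t)]; ring
    rw [e]
    exact (G2 E).neg ((G2 E).mul1' gQ (G2_inv E gQ1 nQ))
  · funext t
    simp only [Pi.mul_apply]
    rw [← hs m t, eq_mul_inv_iff_mul_eq₀ (hne m t), hQ]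
    rfl

theorem bnd (hp : 7 ≤ p) (hg : GamSt p) (hl : LamSt p) : BndSt p := by
  intro E n
  have hp0 : 0 < p := by omega
  obtain ⟨a, ha⟩ : ∃ a, a = n % p := ⟨_, rfl⟩
  obtain ⟨k, hk⟩ : ∃ k, k = n / p := ⟨_, rfl⟩
  have hap : a < p := ha ▸ Nat.mod_lt n hp0
  have hn : n = a + p * k := by rw [ha, hk, Nat.mod_add_div]
  rw [← hk, hn]
  have h1 : ‖(fwdDiff 1)^[k] (fun (m : ℕ) (_ : ℤ_[p]) =>
      (gammaP p (-(a : ℤ_[p]) - p * m) : ℚ_[p])) 0 0‖ ≤ 1 * (E.e ^ 5) ^ k :=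
    Gauge.lift_pt (G := normGauge p) (Gauge.lift_iter (reg_Bnd E hp hg hap) k 0) 0
  rw [iter_apply, newton_Bnd _
    (fun k => lam p (a + p * k) * (-(p : ℚ_[p])) ^ k * (k.factorial : ℚ_[p])) (fun m => by
      rw [← hl.2 a m hap]
      exact sum_congr rfl fun k _ => by rw [ff_nat]; ring)] at h1
  have hv : 6 * padicValNat p k.factorial ≤ k := by
    rcases Nat.eq_zero_or_pos k with rfl | h
    · simp
    · have := sub_one_mul_padicValNat_factorial_lt_of_ne_zero p (n := k) (by omega)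
      have h4 : 6 * padicValNat p k.factorial ≤ (p - 1) * padicValNat p k.factorial :=
        Nat.mul_le_mul_right _ (by omega)
      omega
  have e : ‖(k.factorial : ℚ_[p])‖ = E.e ^ (6 * padicValNat p k.factorial) := by
    rw [Padic.norm_eq_zpow_neg_valuation (by exact_mod_cast Nat.factorial_ne_zero _),
      Padic.valuation_natCast, pow_mul, E.six, zpow_neg, zpow_natCast, inv_pow]
  rw [norm_mul, norm_mul, norm_pow, norm_neg, norm_p_eq E, e, one_mul, ← pow_mul, ← pow_mul,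
    mul_assoc, ← pow_add] at h1
  refine le_of_mul_le_mul_right ?_ (pow_pos E.pos (5 * k))
  rw [one_mul, mul_assoc, ← pow_add]
  exact (mul_le_mul_of_nonneg_left (E.le (by omega)) (norm_nonneg _)).trans h1

end Pool.Agent.MP_54d89f_nt.Dw
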