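import Pool.Agent.MP_54d89f_nt.Dw.St

namespace Pool.Agent.MP_54d89f_nt.Dw

open Finset Pool.Agent.MP_030fd4_nt

theorem pos_Fam {x : ℚ} (hx : 0 < x) (k : ℕ) : 0 < rising x k :=
  prod_pos fun i _ => by positivity

theorem a0_cast_Fam (K : Type) [Field K] [CharZero K] (m : ℕ) : ((a0 ℚ m : ℚ) : K) = a0 K m := by
  simp [a0, rising_cast]

theorem a2_cast_Fam (K : Type) [Field K] [CharZero K] (m : ℕ) : ((a2 ℚ m : ℚ) : K) = a2 K m := by
  simp [a2, rising_cast]

theorem nn_cast_Fam (K : Type) [Field K] [CharZero K] (i : Fin 3) (t : ℚ) :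
    ((nn i t : ℚ) : K) = nn i (t : K) := by
  fin_cases i <;> simp

theorem P3_cast_Fam (K : Type) [Field K] [CharZero K] (i : Fin 3) (n : ℕ) :
    ((P3 ℚ i n : ℚ) : K) = P3 K i n := by
  simp [P3, M_cast]

theorem recQ_Fam : RecSt ℚ := by
  intro m
  have p1 := fun k => (pos_Fam (x := 1) (by norm_num) k).ne'
  have p2 := fun k => (pos_Fam (x := 1 / 3) (by norm_num) k).ne'
  have p3 := fun k => (pos_Fam (x := 2 / 3) (by norm_num) k).ne'
  have p4 := fun k => (pos_Fam (x := 3) (by norm_num) k).ne'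
  have p5 := fun k => (pos_Fam (x := 4 / 3) (by norm_num) k).ne'
  have p6 := fun k => (pos_Fam (x := 5 / 3) (by norm_num) k).ne'
  have s : ((-1 : ℚ)) ^ m ≠ 0 := pow_ne_zero _ (by norm_num)
  have e3 : 3 * (m + 1) = 3 * m + 1 + 1 + 1 := by ring
  have e2 : 2 * (m + 1) = 2 * m + 1 + 1 := by ring
  refine ⟨div_ne_zero (mul_ne_zero (mul_ne_zero (mul_ne_zero s (p1 _)) (p2 _)) (p3 _))
      (mul_ne_zero (p1 _) (pow_ne_zero _ (p2 _))),
    div_ne_zero (mul_ne_zero (mul_ne_zero (mul_ne_zero (mul_ne_zero (by norm_num) s) (p4 _)) (p5 _))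
      (p6 _)) (mul_ne_zero (p1 _) (pow_ne_zero _ (p6 _))), ?_, ?_⟩
  · have q1 := p1 m
    have q2 := p2 (2 * m)
    simp only [a0, e3, e2, rising_succ, nn_zero, pow_succ (-1 : ℚ)]
    generalize rising (1 : ℚ) m = A at *
    generalize rising (1 / 3 : ℚ) (2 * m) = B at *
    push_cast
    field_simp
    ring
  · have q1 := p1 m
    have q2 := p6 (2 * m)
    simp only [a2, e3, e2, rising_succ, nn_two, pow_succ (-1 : ℚ)]
    generalize rising (1 : ℚ) m = A at *
    generalize rising (5 / 3 : ℚ) (2 * m) = B at *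
    push_cast
    field_simp
    ring

theorem recst (K : Type) [Field K] [CharZero K] : RecSt K := by
  intro m
  obtain ⟨h1, h2, h3, h4⟩ := recQ_Fam m
  have h3' := congrArg (fun q : ℚ => (q : K)) h3
  have h4' := congrArg (fun q : ℚ => (q : K)) h4
  simp only [Rat.cast_mul, nn_cast_Fam, a0_cast_Fam, a2_cast_Fam] at h3' h4'
  push_cast at h3' h4'
  exact ⟨by rw [← a0_cast_Fam]; exact_mod_cast h1, by rw [← a2_cast_Fam]; exact_mod_cast h2,
    h3', h4'⟩

theorem ind_Fam (h : WZSt) (i : Fin 3) (c : ℚ) (d : ℕ) (hd : d = 0 ∨ d = 2)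
    (hc : c = -(2 * d + 1) / 6) (A : ℕ → ℚ) (h0 : M i c (d + 1) = A 0)
    (hA : ∀ m : ℕ, 64 * (c - m) ^ 2 * A (m + 1) = nn i (c - m) * A m) (m N : ℕ)
    (hN : 3 * m + d < N) : M i (c - m) N = A m := by
  have hup : ∀ m : ℕ, up (c - m) ((3 * m + d : ℕ) : ℚ) = 0 := fun m => by
    have : 1 / 2 + 3 * (c - m) + ((3 * m + d : ℕ) : ℚ) = 0 := by rw [hc]; push_cast; ring
    rw [up, this, mul_zero]
  have hneg : ∀ m : ℕ, c - m < 0 := fun m => by
    have : (0 : ℚ) ≤ m := m.cast_nonneg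
    have : (0 : ℚ) ≤ d := d.cast_nonneg
    rw [hc]; linarith
  rw [M_stable i (hup m) hN]
  clear hN
  induction m with
  | zero => simpa using h0
  | succ m ih =>
    have hg : Good (c - m) (3 * m + d + 3) := fun k _ => by
      constructor
      · intro e
        have : (3 : ℚ) + 3 * k = 2 * d + 1 + 6 * m := by rw [hc] at e; linarith
        have : 3 + 3 * k = 2 * d + 1 + 6 * m := by exact_mod_cast this
        omega
      · intro e
        have : (3 : ℚ) + 3 * k = 2 * (2 * d + 1) + 12 * m := by rw [hc] at e; linarith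
        have : 3 + 3 * k = 2 * (2 * d + 1) + 12 * m := by exact_mod_cast this
        omega
    have w := h i (c - m) (3 * m + d + 3) (hneg m) hg (Or.inr (by rw [hc]; push_cast; ring))
    rw [M_stable i (hup m) (by omega : 3 * m + d < 3 * m + d + 3 + 1), ih, ← hA m] at w
    have w' := mul_left_cancel₀ (mul_ne_zero (by norm_num) (pow_ne_zero 2 (hneg m).ne)) w
    rw [← w']
    congr 1
    · push_cast; ring
    · ring

theorem fam0 (h : WZSt) (K : Type) [Field K] [CharZero K] : Fam0St K := by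
  intro m N hN
  have e : ((-1 / 6 - (m : ℚ) : ℚ) : K) = -1 / 6 - (m : K) := by push_cast; ring
  have h0 := ind_Fam h 0 (-1 / 6) 0 (Or.inl rfl) (by norm_num) (a0 ℚ)
    (by simp [M, f_zero, a0, rising]) (fun m => (recQ_Fam m).2.2.1) m N hN
  have h1 := ind_Fam h 1 (-1 / 6) 0 (Or.inl rfl) (by norm_num) (fun _ => 0)
    (by norm_num [M, f_zero]) (fun m => by simp) m N hN
  have h2 := ind_Fam h 2 (-1 / 6) 0 (Or.inl rfl) (by norm_num) (fun _ => 0)
    (by norm_num [M, f_zero]) (fun m => by simp) m N hN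
  rw [← e, ← M_cast, ← M_cast, ← M_cast, h0, h1, h2, a0_cast_Fam]
  simp

theorem fam2 (h : WZSt) (K : Type) [Field K] [CharZero K] : Fam2St K := by
  intro m N hN
  have e : ((-5 / 6 - (m : ℚ) : ℚ) : K) = -5 / 6 - (m : K) := by push_cast; ring
  have h0 := ind_Fam h 0 (-5 / 6) 2 (Or.inr rfl) (by norm_num) (fun _ => 0)
    (by norm_num [M, f, rising, sum_range_succ, prod_range_succ]) (fun m => by simp) m N hN
  have h1 := ind_Fam h 1 (-5 / 6) 2 (Or.inr rfl) (by norm_num) (fun _ => 0)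
    (by norm_num [M, f, rising, sum_range_succ, prod_range_succ]) (fun m => by simp) m N hN
  have h2 := ind_Fam h 2 (-5 / 6) 2 (Or.inr rfl) (by norm_num) (a2 ℚ)
    (by norm_num [M, f, a2, rising, sum_range_succ, prod_range_succ])
    (fun m => (recQ_Fam m).2.2.2) m N hN
  rw [← e, ← M_cast, ← M_cast, ← M_cast, h0, h1, h2, a2_cast_Fam]
  simp

theorem fam3Q_Fam (h : WZSt) : Fam3St ℚ := by
  have hneg : ∀ n : ℕ, -(2 * (n : ℚ) + 1) / 4 < 0 := fun n => by
    have : (0 : ℚ) ≤ n := n.cast_nonneg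
    linarith
  have key : ∀ (i : Fin 3) (n : ℕ), 2 ≤ n → 64 * (-(2 * (n : ℚ) + 1) / 4) ^ 2 * P3 ℚ i (n + 2) =
      nn i (-(2 * (n : ℚ) + 1) / 4) * P3 ℚ i n := by
    intro i n hn
    have hup : up (-(2 * (n : ℚ) + 1) / 4) (n : ℚ) = 0 := by unfold up; ring
    have hg : Good (-(2 * (n : ℚ) + 1) / 4) (n + 2) := fun k hk => by
      constructor
      · intro e
        have : (1 : ℚ) + 2 * k = 2 * n := by linarith
        have : 1 + 2 * k = 2 * n := by exact_mod_cast this
        omega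
      · intro e
        have : (k : ℚ) = 2 * n := by linarith
        have : k = 2 * n := by exact_mod_cast this
        omega
    have w := h i _ (n + 2) (hneg n) hg (Or.inl (by push_cast; ring))
    rw [M_stable i hup (by omega : n < n + 2 + 1)] at w
    have e : -(2 * ((n + 2 : ℕ) : ℚ) + 1) / 4 = -(2 * (n : ℚ) + 1) / 4 - 1 := by push_cast; ring
    rw [P3, P3, e]
    exact w
  have step : ∀ n : ℕ, 2 ≤ n → P3 ℚ 1 n ≠ 0 → P3 ℚ 1 (n + 2) ≠ 0 := fun n hn h0 e => by
    have := key 1 n hn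
    rw [e, mul_zero, nn_one] at this
    have a := hneg n
    exact mul_ne_zero (mul_ne_zero (mul_ne_zero (by norm_num) (by linarith)) (by linarith)) h0
      this.symm
  have two : ∀ n : ℕ, P3 ℚ 1 (n + 2) ≠ 0 ∧ P3 ℚ 1 (n + 3) ≠ 0 := fun n => by
    induction n with
    | zero =>
      constructor <;> norm_num [P3, M, f, rising, sum_range_succ, prod_range_succ, Nat.factorial]
    | succ n ih => exact ⟨ih.2, step (n + 2) (by omega) ih.1⟩
  refine ⟨key, fun n hn => ?_⟩
  obtain ⟨n, rfl⟩ := Nat.exists_eq_add_of_le' hn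
  exact (two n).1

theorem fam3 (h : WZSt) (K : Type) [Field K] [CharZero K] : Fam3St K := by
  obtain ⟨h1, h2⟩ := fam3Q_Fam h
  refine ⟨fun i n hn => ?_, fun n hn => by rw [← P3_cast_Fam]; exact_mod_cast h2 n hn⟩
  have := congrArg (fun q : ℚ => (q : K)) (h1 i n hn)
  simp only [Rat.cast_mul, nn_cast_Fam, P3_cast_Fam] at this
  push_cast at this
  exact this

end Pool.Agent.MP_54d89f_nt.Dw
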