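import Pool.Agent.MP_54d89f_nt.Dw.St

/-! The contiguity relation in the parameter, by telescoping certificates. -/

namespace Pool.Agent.MP_54d89f_nt.Dw

open Finset Pool.Agent.MP_030fd4_nt

def uph_WZ (t k : ℚ) : ℚ := 4 * (k + t - 1 / 2) * (k + 2 * t - 3 / 2) * (k + 3 * t - 5 / 2)

def PN_WZ (t k : ℚ) : ℚ :=
  (k + t - 1 / 2) * (k + 2 * t - 3 / 2) * (k + 2 * t - 1 / 2) * (k + 3 * t - 5 / 2) *
    (k + 3 * t - 3 / 2) * (k + 3 * t - 1 / 2)

def PD_WZ (t k : ℚ) : ℚ :=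
  (k + 2 * t - 1) * (k + 2 * t) * (k + 4 * t - 3) * (k + 4 * t - 2) * (k + 4 * t - 1) *
    (k + 4 * t)

/-- The base term. -/
def h_WZ (t : ℚ) : ℕ → ℚ
  | 0 => 1
  | k + 1 => h_WZ t k * (uph_WZ t k / dn t ((k : ℚ) + 1))

theorem dn_ne_WZ {t : ℚ} {N k : ℕ} (hG : Good t N) (hk : k < N) : dn t ((k : ℚ) + 1) ≠ 0 := by
  obtain ⟨h1, h2⟩ := hG k hk
  refine mul_ne_zero (mul_ne_zero (natCast_add_one_ne k) ?_) ?_
  · intro h; apply h1; linear_combination h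
  · intro h; apply h2; linear_combination h

theorem dn_ne'_WZ {t : ℚ} {N k : ℕ} (ht : t < 0) (hG : Good t N) (hk : k < N) :
    dn (t - 1) ((k : ℚ) + 1) ≠ 0 := by
  refine mul_ne_zero (mul_ne_zero (natCast_add_one_ne k) ?_) ?_
  · intro h
    rcases lt_or_ge k 2 with h2 | h2
    · have : (k : ℚ) ≤ 1 := by exact_mod_cast (by omega : k ≤ 1)
      linarith
    · obtain ⟨j, rfl⟩ := Nat.exists_eq_add_of_le h2
      apply (hG j (by omega)).1
      push_cast at h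
      linear_combination h
  · intro h
    rcases lt_or_ge k 4 with h2 | h2
    · have : (k : ℚ) ≤ 3 := by exact_mod_cast (by omega : k ≤ 3)
      linarith
    · obtain ⟨j, rfl⟩ := Nat.exists_eq_add_of_le h2
      apply (hG j (by omega)).2
      push_cast at h
      linear_combination h

theorem fN_WZ (t : ℚ) (k : ℕ) : PN_WZ t 0 * f t k = h_WZ t k * PN_WZ t k := by
  induction k with
  | zero => simp [f_zero, h_WZ]
  | succ k ih =>
    have e1 : PN_WZ t k * up t k = uph_WZ t k * PN_WZ t ((k : ℚ) + 1) := by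
      simp only [PN_WZ, up, uph_WZ]; ring
    rw [f_succ, h_WZ, ← mul_assoc, ih]
    push_cast
    rw [div_eq_mul_inv, div_eq_mul_inv]
    linear_combination (h_WZ t k * (dn t ((k : ℚ) + 1))⁻¹) * e1

theorem fD_WZ {t : ℚ} {N : ℕ} (ht : t < 0) (hG : Good t N) (k : ℕ) (hk : k ≤ N) :
    PD_WZ t 0 * f (t - 1) k = h_WZ t k * PD_WZ t k := by
  induction k with
  | zero => simp [f_zero, h_WZ]
  | succ k ih =>
    have h1 := dn_ne_WZ hG (show k < N by omega)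
    have h2 := dn_ne'_WZ ht hG (show k < N by omega)
    have e1 : PD_WZ t k * dn t ((k : ℚ) + 1) =
        PD_WZ t ((k : ℚ) + 1) * dn (t - 1) ((k : ℚ) + 1) := by
      simp only [PD_WZ, dn]; ring
    have e2 : up (t - 1) (k : ℚ) = uph_WZ t k := by
      simp only [up, uph_WZ]; ring
    rw [f_succ, h_WZ, ← mul_assoc, ih (by omega), e2]
    push_cast
    field_simp
    linear_combination (h_WZ t k * uph_WZ t k) * e1

theorem tele_WZ {t : ℚ} {N : ℕ} (hG : Good t N) (R : ℚ → ℚ) (L : ℕ) (hL : L ≤ N) :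
    ∑ k ∈ range (L + 1), h_WZ t k * (uph_WZ t k * R ((k : ℚ) + 1) - dn t k * R k) =
      uph_WZ t L * h_WZ t L * R ((L : ℚ) + 1) := by
  induction L with
  | zero => simp [dn]; ring
  | succ L ih =>
    have h1 := dn_ne_WZ hG (show L < N by omega)
    have e1 : dn t ((L : ℚ) + 1) * h_WZ t (L + 1) = uph_WZ t L * h_WZ t L := by
      rw [h_WZ]; field_simp
    rw [sum_range_succ, ih (by omega)]
    push_cast
    linear_combination (-R ((L : ℚ) + 1)) * e1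

theorem key_WZ {t : ℚ} {N : ℕ} (ht : t < 0) (hG : Good t N)
    (hN : 2 * t - 3 / 2 + N = 0 ∨ 3 * t - 5 / 2 + N = 0) (i : Fin 3) (a b : ℚ) (R : ℚ → ℚ)
    (hR : ∀ k : ℚ, a * e i (t - 1) k * PD_WZ t k + b * e i t k * PN_WZ t k =
      uph_WZ t k * R (k + 1) - dn t k * R k) :
    a * PD_WZ t 0 * M i (t - 1) (N + 1) + b * PN_WZ t 0 * M i t (N + 1) = 0 := by
  have hu : uph_WZ t N = 0 := by
    unfold uph_WZ
    rcases hN with h | h
    · rw [show (N : ℚ) + 2 * t - 3 / 2 = 0 by linear_combination h]; ring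
    · rw [show (N : ℚ) + 3 * t - 5 / 2 = 0 by linear_combination h]; ring
  have h0 := tele_WZ hG R N le_rfl
  rw [hu, zero_mul, zero_mul] at h0
  refine Eq.trans ?_ h0
  rw [M, M, mul_sum, mul_sum, ← sum_add_distrib]
  refine sum_congr rfl fun k hk => ?_
  have h1 := fN_WZ t k
  have h2 := fD_WZ ht hG k (by have := mem_range.1 hk; omega)
  rw [← hR]
  linear_combination (a * e i (t - 1) k) * h2 + (b * e i t k) * h1

def R0_WZ (t k : ℚ) : ℚ :=
  (59 / 2 - 313 * t + 1054 * t ^ 2 - 1436 * t ^ 3 + 688 * t ^ 4) +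
    (-56 + 488 * t - 1132 * t ^ 2 + 776 * t ^ 3) * k + (35 - 236 * t + 284 * t ^ 2) * k ^ 2 +
    (-7 + 34 * t) * k ^ 3

def R1_WZ (t k : ℚ) : ℚ :=
  (64 - 503 * t + 1396 * t ^ 2 - 1636 * t ^ 3 + 688 * t ^ 4) +
    (-407 / 2 + 1132 * t - 1994 * t ^ 2 + 1120 * t ^ 3) * k +
    (225 - 796 * t + 672 * t ^ 2) * k ^ 2 + (-104 + 176 * t) * k ^ 3 + 17 * k ^ 4

def R2_WZ (t k : ℚ) : ℚ :=
  (541 - 6949 * t + 34948 * t ^ 2 - 89144 * t ^ 3 + 122608 * t ^ 4 - 86736 * t ^ 5 +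
      24768 * t ^ 6) +
    (-5215 / 2 + 26159 * t - 99010 * t ^ 2 + 179036 * t ^ 3 - 156000 * t ^ 4 +
      52704 * t ^ 5) * k +
    (9571 / 2 - 35543 * t + 94358 * t ^ 2 - 107244 * t ^ 3 + 44352 * t ^ 4) * k ^ 2 +
    (-4093 + 21010 * t - 34584 * t ^ 2 + 18432 * t ^ 3) * k ^ 3 +
    (1632 - 5046 * t + 3780 * t ^ 2) * k ^ 4 + (-243 + 306 * t) * k ^ 5

theorem wz : WZSt := by
  intro i t N ht hG hN
  have c1 : 2 * t - 1 ≠ 0 := by linarith
  have c2 : 4 * t - 1 ≠ 0 := by linarith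
  have c3 : 4 * t - 3 ≠ 0 := by linarith
  have c4 : 6 * t - 1 ≠ 0 := by linarith
  have c5 : 6 * t - 5 ≠ 0 := by linarith
  have hC : (2 * t - 1) ^ 2 * (4 * t - 1) * (4 * t - 3) ≠ 0 :=
    mul_ne_zero (mul_ne_zero (pow_ne_zero 2 c1) c2) c3
  have hD : PD_WZ t 0 = (2 * t - 1) ^ 2 * (4 * t - 1) * (4 * t - 3) * (16 * t ^ 2) := by
    unfold PD_WZ; ring
  have hP : PN_WZ t 0 =
      (2 * t - 1) ^ 2 * (4 * t - 1) * (4 * t - 3) * (3 / 64 * ((6 * t - 5) * (6 * t - 1))) := by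
    unfold PN_WZ; ring
  have hi : i = 0 ∨ i = 1 ∨ i = 2 := by
    fin_cases i
    · exact Or.inl rfl
    · exact Or.inr (Or.inl rfl)
    · exact Or.inr (Or.inr rfl)
  rcases hi with rfl | rfl | rfl
  · have h := key_WZ ht hG hN 0 (6 * t - 5) (16 * (6 * t - 1)) (R0_WZ t) (fun k => by
      simp only [e_zero, PD_WZ, PN_WZ, uph_WZ, dn, R0_WZ]; ring)
    rw [hD, hP] at h
    rw [nn_zero]
    apply mul_left_cancel₀ (mul_ne_zero hC c5)
    linear_combination 4 * h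
  · have h := key_WZ ht hG hN 1 1 16 (R1_WZ t) (fun k => by
      simp only [e_one, PD_WZ, PN_WZ, uph_WZ, dn, R1_WZ]; ring)
    rw [hD, hP] at h
    rw [nn_one]
    apply mul_left_cancel₀ hC
    linear_combination 4 * h
  · have h := key_WZ ht hG hN 2 (6 * t - 1) (16 * (6 * t - 5)) (R2_WZ t) (fun k => by
      simp only [e_two, PD_WZ, PN_WZ, uph_WZ, dn, R2_WZ]; ring)
    rw [hD, hP] at h
    rw [nn_two]
    apply mul_left_cancel₀ (mul_ne_zero hC c4)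
    linear_combination 4 * h

end Pool.Agent.MP_54d89f_nt.Dw
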