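import Pool.Agent.MP_54d89f_nt.Dw.Str
import Pool.Agent.MP_54d89f_nt.Dw.Blk
import Pool.Agent.MP_54d89f_nt.Dw.WZ
import Pool.Agent.MP_54d89f_nt.Dw.Fam

/-! The rows of the Frobenius matrix on the three terminating families. -/

namespace Pool.Agent.MP_54d89f_nt.Dw

open Finset Pool.Agent.MP_030fd4_nt

variable {p : ℕ} [Fact p.Prime]

theorem coe_of_mul {n : ℕ} (hn : n ≠ 0) {x : ℤ_[p]} (h : (n : ℤ_[p]) * x = 1) :
    (x : ℚ_[p]) = 1 / n := by
  have h1 := congrArg (fun z : ℤ_[p] => (z : ℚ_[p])) h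
  simp only [PadicInt.coe_mul, PadicInt.coe_natCast, PadicInt.coe_one] at h1
  have : (n : ℚ_[p]) ≠ 0 := by exact_mod_cast hn
  field_simp
  linear_combination h1

theorem exists_inv_nat {n : ℕ} (h : ¬ p ∣ n) : ∃ x : ℤ_[p], (n : ℤ_[p]) * x = 1 := by
  have hu : IsUnit (n : ℤ_[p]) := by
    rw [PadicInt.isUnit_iff]
    have := norm_nat_unit (p := p) h
    rw [← PadicInt.coe_natCast] at this
    simpa using this
  exact hu.exists_right_inv

theorem good_cast {K : Type*} [Field K] [CharZero K] {t : ℚ} {N : ℕ} (h : Good t N) :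
    Good (t : K) N := by
  intro k hk
  obtain ⟨h1, h2⟩ := h k hk
  exact ⟨by exact_mod_cast h1, by exact_mod_cast h2⟩

theorem good_one (m N : ℕ) : Good (-1 / 6 - (m : ℚ)) N := by
  intro k _
  constructor
  · intro h
    have : ((2 + 3 * k : ℕ) : ℚ) = ((6 * m : ℕ) : ℚ) := by push_cast; linear_combination 3 * h
    have := Nat.cast_injective this
    omega
  · intro h
    have : ((1 + 3 * k : ℕ) : ℚ) = ((12 * m : ℕ) : ℚ) := by push_cast; linear_combination 3 * h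
    have := Nat.cast_injective this
    omega

theorem good_five (m N : ℕ) : Good (-5 / 6 - (m : ℚ)) N := by
  intro k _
  constructor
  · intro h
    have : ((3 * k : ℕ) : ℚ) = ((6 * m + 2 : ℕ) : ℚ) := by push_cast; linear_combination 3 * h
    have := Nat.cast_injective this
    omega
  · intro h
    have : ((3 * k : ℕ) : ℚ) = ((12 * m + 7 : ℕ) : ℚ) := by push_cast; linear_combination 3 * h
    have := Nat.cast_injective this
    omega

theorem good_three (m : ℕ) : Good (-5 / 4 - (m : ℚ)) (2 * m + 3) := by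
  intro k hk
  constructor
  · intro h
    have : ((2 * k : ℕ) : ℚ) = ((4 * m + 3 : ℕ) : ℚ) := by push_cast; linear_combination 2 * h
    have := Nat.cast_injective this
    omega
  · intro h
    have : ((k : ℕ) : ℚ) = ((4 * m + 4 : ℕ) : ℚ) := by push_cast; linear_combination h
    have := Nat.cast_injective this
    omega

/-- One row of the matrix: the congruence and its values on the three families. -/
theorem row (hp : 5 ≤ p) (i : Fin 3) {x w : ℤ_[p]} (hx : 6 * x = 1) (hw : 4 * w = 1) :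
    ∃ σ : Fin 3 → ℤ_[p] → ℚ_[p], (∀ j, Continuous (σ j)) ∧
      (∀ N : ℕ, ∃ R : ℤ_[p], M i (0 : ℚ_[p]) (p * N) =
        σ 0 0 * M 0 (0 : ℚ_[p]) N + σ 1 0 * M 1 (0 : ℚ_[p]) N + σ 2 0 * M 2 (0 : ℚ_[p]) N +
          (p : ℚ_[p]) ^ 3 * (N : ℚ_[p]) ^ 3 * f (0 : ℚ_[p]) N * R) ∧
      (∀ m : ℕ, σ 0 (-x - m) * a0 ℚ_[p] m =
        M i ((p : ℚ_[p]) * (-1 / 6 - m)) (p * (3 * m + 1))) ∧
      (∀ m : ℕ, σ 2 (-5 * x - m) * a2 ℚ_[p] m =
        M i ((p : ℚ_[p]) * (-5 / 6 - m)) (p * (3 * m + 3))) ∧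
      (∀ m : ℕ, P3 ℚ_[p] i (p * (2 * m + 2) + p / 2) =
        σ 0 (-5 * w - m) * P3 ℚ_[p] 0 (2 * m + 2) + σ 1 (-5 * w - m) * P3 ℚ_[p] 1 (2 * m + 2) +
          σ 2 (-5 * w - m) * P3 ℚ_[p] 2 (2 * m + 2)) := by
  obtain ⟨c, hc1, hc2, hc3⟩ := blk hp i
  obtain ⟨σ, hσ, hs⟩ := str hp c hc1 hc2
  have ex : (x : ℚ_[p]) = 1 / 6 := by simpa using coe_of_mul (n := 6) (by omega) (by simpa using hx)
  have ew : (w : ℚ_[p]) = 1 / 4 := by simpa using coe_of_mul (n := 4) (by omega) (by simpa using hw)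
  have c5 : ((5 : ℤ_[p]) : ℚ_[p]) = 5 := by exact_mod_cast PadicInt.coe_natCast (p := p) 5
  have key : ∀ (t : ℤ_[p]) (q : ℚ) (n : ℕ), (t : ℚ_[p]) = q → Good q (n + 1) →
      up (q : ℚ_[p]) n = 0 → M i ((p : ℚ_[p]) * q) (p * (n + 1)) =
        σ 0 t * M 0 (q : ℚ_[p]) (n + 1) + σ 1 t * M 1 (q : ℚ_[p]) (n + 1) +
          σ 2 t * M 2 (q : ℚ_[p]) (n + 1) := by
    intro t q n ht hG hu
    obtain ⟨R, hR⟩ := hs t (n + 1) (by rw [ht]; exact good_cast hG)
    rw [← hc3, ht, f_eq_zero hu (Nat.lt_succ_self n)] at hR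
    rw [hR]; ring
  refine ⟨σ, hσ, fun N => ?_, fun m => ?_, fun m => ?_, fun m => ?_⟩
  · obtain ⟨R, hR⟩ := hs 0 N (by
      intro k _
      have := natCast_add_one_ne (K := ℚ_[p]) k
      simp only [PadicInt.coe_zero, mul_zero, add_zero]
      exact ⟨by rwa [add_comm], by rwa [add_comm]⟩)
    rw [← hc3] at hR
    simp only [PadicInt.coe_zero, mul_zero] at hR
    refine ⟨R, ?_⟩
    rw [hR, dn]; ring
  · have h := key (-x - m) (-1 / 6 - m) (3 * m) (by simp [ex]; ring) (good_one _ _)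
      (by simp only [up]; push_cast; ring)
    push_cast at h
    obtain ⟨h0, h1, h2⟩ := fam0 wz ℚ_[p] m (3 * m + 1) (by omega)
    rw [h, h0, h1, h2]; ring
  · have h := key (-5 * x - m) (-5 / 6 - m) (3 * m + 2) (by simp [ex, c5]; ring) (good_five _ _)
      (by simp only [up]; push_cast; ring)
    push_cast at h
    obtain ⟨h0, h1, h2⟩ := fam2 wz ℚ_[p] m (3 * m + 3) (by omega)
    rw [h, h0, h1, h2]; ring
  · have h := key (-5 * w - m) (-5 / 4 - m) (2 * m + 2) (by simp [ew, c5]; ring) (good_three _)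
      (by simp only [up]; push_cast; ring)
    push_cast at h
    have ho := p_odd hp
    have hoq : (2 * ((p / 2 : ℕ) : ℚ_[p]) + 1) = p := by exact_mod_cast ho
    have e1 : (-(2 * ((2 * m + 2 : ℕ) : ℚ_[p]) + 1) / 4) = -5 / 4 - m := by push_cast; ring
    have e2 : (-(2 * ((p * (2 * m + 2) + p / 2 : ℕ) : ℚ_[p]) + 1) / 4) =
        (p : ℚ_[p]) * (-5 / 4 - m) := by
      rw [Nat.cast_add, Nat.cast_mul]
      push_cast
      linear_combination (-1 / 4) * hoq
    simp only [P3]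
    rw [e1, e2, ← h]
    symm
    refine M_stable i ?_ ?_
    · rw [← e2]; simp only [up]; ring
    · have : p * (2 * m + 2 + 1) = p * (2 * m + 2) + p := by ring
      omega

end Pool.Agent.MP_54d89f_nt.Dw
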