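import Pool.Agent.MP_54d89f_nt.Dw.St

namespace Pool.Agent.MP_54d89f_nt.Dw

open Finset Pool.Agent.MP_030fd4_nt

variable {p : Nat} [Fact p.Prime]

theorem alg_Ev00 {K : Type*} [Field K]
    {s ε η P R1 R2 R3 R4 R5 T1 T2 T3 T4 T5 A1 A2 A3 A4 A5 g1 g2 g3 : K}
    (hε : ε * ε = 1) (hη : η * η = 1) (hP : P ≠ 0) (r1 : R1 ≠ 0) (r2 : R2 ≠ 0) (r3 : R3 ≠ 0)
    (r4 : R4 ≠ 0) (r5 : R5 ≠ 0) (t4 : T4 ≠ 0) (t5 : T5 ≠ 0)
    (h : s * (ε * R1 * R2 * R3 / (R4 * R5 ^ 2)) = ε * η * T1 * T2 * T3 / (T4 * T5 ^ 2))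
    (e1 : T1 * g1 = (ε * η) ^ 3 * A1 * P ^ 3 * R1) (e2 : T2 * g2 = ε * η * A2 * P * R2)
    (e3 : T3 * g3 = ε * η * A3 * P * R3) (e4 : T4 * g1 = ε * η * A4 * P * R4)
    (e5 : T5 * g2 = (ε * η) ^ 2 * A5 * P ^ 2 * R5) :
    s * (g3 * A4 * A5 ^ 2) = η * (A1 * A2 * A3 * g2) := by
  have h0 : ε ≠ 0 := left_ne_zero_of_mul_eq_one hε
  have h1 : η ≠ 0 := left_ne_zero_of_mul_eq_one hη
  obtain rfl : A1 = T1 * g1 / ((ε * η) ^ 3 * P ^ 3 * R1) := by rw [e1]; field_simp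
  obtain rfl : A2 = T2 * g2 / (ε * η * P * R2) := by rw [e2]; field_simp
  obtain rfl : A3 = T3 * g3 / (ε * η * P * R3) := by rw [e3]; field_simp
  obtain rfl : A4 = T4 * g1 / (ε * η * P * R4) := by rw [e4]; field_simp
  obtain rfl : A5 = T5 * g2 / ((ε * η) ^ 2 * P ^ 2 * R5) := by rw [e5]; field_simp
  obtain rfl : s = ε * η * T1 * T2 * T3 / (T4 * T5 ^ 2) / (ε * R1 * R2 * R3 / (R4 * R5 ^ 2)) := by
    rw [← h]; field_simp
  field_simp

theorem ne_Ev00 {q : ℚ} (hq : 0 < q) (n : ℕ) : rising (q : ℚ_[p]) n ≠ 0 := by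
  rw [← rising_cast]
  have : 0 < rising q n := prod_pos fun i _ => by positivity
  exact_mod_cast this.ne'

omit [Fact p.Prime] in
theorem div_Ev00 {n a b : ℕ} (hb : b < p) (h : n = p * a + b) : n / p = a := by
  rw [h, Nat.mul_add_div (by omega), Nat.div_eq_of_lt hb, add_zero]

theorem ev00 (hp : 5 ≤ p) (hg : GamSt p) : Ev00St p := by
  intro μ x s hμ hx hs h
  have hpZ : (p : ℤ_[p]) = 6 * μ + 1 := by exact_mod_cast congrArg (Nat.cast : ℕ → ℤ_[p]) hμ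
  have hxQ : 6 * (x : ℚ_[p]) = 1 := by exact_mod_cast congrArg (fun z : ℤ_[p] => (z : ℚ_[p])) hx
  have c2 : ((2 * x : ℤ_[p]) : ℚ_[p]) = 1 / 3 := by
    rw [PadicInt.coe_mul, show ((2 : ℤ_[p]) : ℚ_[p]) = 2 from rfl]
    linear_combination (1 / 3 : ℚ_[p]) * hxQ
  have c4 : ((4 * x : ℤ_[p]) : ℚ_[p]) = 2 / 3 := by
    rw [PadicInt.coe_mul, show ((4 : ℤ_[p]) : ℚ_[p]) = 4 from rfl]
    linear_combination (2 / 3 : ℚ_[p]) * hxQ
  have d1 : (1 : ℤ_[p]) + ((6 * μ : ℕ) : ℤ_[p]) = p * 1 := by push_cast; linear_combination -hpZ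
  have d2 : 2 * x + ((2 * μ : ℕ) : ℤ_[p]) = p * (2 * x) := by
    push_cast; linear_combination (-2 * x) * hpZ - (2 * μ : ℤ_[p]) * hx
  have d4 : 4 * x + ((4 * μ : ℕ) : ℤ_[p]) = p * (4 * x) := by
    push_cast; linear_combination (-4 * x) * hpZ - (4 * μ : ℤ_[p]) * hx
  have d0 : x + (μ : ℤ_[p]) = p * x := by linear_combination (-x) * hpZ - (μ : ℤ_[p]) * hx
  have n1 : ∀ n, rising (1 : ℚ_[p]) n ≠ 0 := fun n => by simpa using ne_Ev00 (p := p) one_pos n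
  have n2 : ∀ n, rising (1 / 3 : ℚ_[p]) n ≠ 0 := fun n => by
    simpa using ne_Ev00 (p := p) (q := 1 / 3) (by norm_num) n
  have n4 : ∀ n, rising (2 / 3 : ℚ_[p]) n ≠ 0 := fun n => by
    simpa using ne_Ev00 (p := p) (q := 2 / 3) (by norm_num) n
  have hp0 : (p : ℚ_[p]) ≠ 0 := by exact_mod_cast (by omega : p ≠ 0)
  have hc := cont_coe.comp (gammaP_cont hp)
  have key : ∀ t : ℤ_[p], s t * ((gammaP p (4 * x) : ℚ_[p]) * (gammaP p (1 + (-x - p * t)) : ℚ_[p]) *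
      (gammaP p (2 * x + 2 * (-x - p * t)) : ℚ_[p]) ^ 2) =
      (-1) ^ μ * ((gammaP p (1 + 3 * (-x - p * t)) : ℚ_[p]) *
        (gammaP p (2 * x + (-x - p * t)) : ℚ_[p]) * (gammaP p (4 * x + (-x - p * t)) : ℚ_[p]) *
        (gammaP p (2 * x) : ℚ_[p])) := by
    refine dense_sub ?_ ?_ (-x) fun m => ?_
    · exact hs.mul ((continuous_const.mul (hc.comp (by fun_prop))).mul
        ((hc.comp (by fun_prop)).pow 2))
    · exact continuous_const.mul ((((hc.comp (by fun_prop)).mul (hc.comp (by fun_prop))).mul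
        (hc.comp (by fun_prop))).mul continuous_const)
    · have hz : -x - p * (-x - m) = ((p * m + μ : ℕ) : ℤ_[p]) := by
        push_cast; linear_combination -d0
      have hsg : (-1 : ℚ_[p]) ^ (p * m + μ) = (-1) ^ m * (-1) ^ μ := by
        rw [pow_add, pow_mul, Odd.neg_one_pow ⟨3 * μ, by omega⟩]
      have e1 := hg.1 1 1 (6 * μ) (3 * (p * m + μ)) (by omega) d1
      have e2 := hg.1 _ _ (2 * μ) (p * m + μ) (by omega) d2
      have e3 := hg.1 _ _ (4 * μ) (p * m + μ) (by omega) d4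
      have e4 := hg.1 1 1 (6 * μ) (p * m + μ) (by omega) d1
      have e5 := hg.1 _ _ (2 * μ) (2 * (p * m + μ)) (by omega) d2
      rw [div_Ev00 (a := 3 * m) (b := 3 * μ) (by omega) (by rw [mul_left_comm]; omega),
        pow_mul', pow_mul', hsg, Nat.cast_mul, Nat.cast_ofNat, PadicInt.coe_one] at e1
      rw [div_Ev00 (a := m) (b := 5 * μ) (by omega) (by omega), hsg, c2] at e2
      rw [div_Ev00 (a := m) (b := 3 * μ) (by omega) (by omega), hsg, c4] at e3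
      rw [div_Ev00 (a := m) (b := μ) (by omega) (by omega), hsg, PadicInt.coe_one] at e4
      rw [div_Ev00 (a := 2 * m) (b := 6 * μ) (by omega) (by rw [mul_left_comm]; omega),
        pow_mul', pow_mul', hsg, Nat.cast_mul, Nat.cast_ofNat, c2] at e5
      have hm := h m
      rw [a0, a0, hsg] at hm
      rw [hz]
      exact alg_Ev00 (by rw [← mul_pow]; simp) (by rw [← mul_pow]; simp) (pow_ne_zero m hp0)
        (n1 _) (n2 _) (n4 _) (n1 _) (n2 _) (n1 _) (n2 _) hm e1 e2 e3 e4 e5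
  have k0 := key 0
  have r1 := hg.2 _ _ μ (by omega) d0
  have r2 := hg.2 _ _ (2 * μ) (by omega) d2
  have r3 : (gammaP p (3 * x) : ℚ_[p]) ^ 2 = (-1) ^ ((p + 1) / 2) := by
    exact_mod_cast congrArg (fun z : ℤ_[p] => (z : ℚ_[p]))
      (gammaP_half hp (hf := 3 * x) (by linear_combination hx))
  rw [mul_zero, sub_zero, show 2 * x + 2 * -x = 0 by ring, gammaP_zero hp,
    show 1 + 3 * -x = 3 * x by linear_combination -hx, show 2 * x + -x = x by ring,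
    show 4 * x + -x = 3 * x by ring, ← sub_eq_add_neg, PadicInt.coe_one] at k0
  rw [show 1 - 2 * x = 4 * x by linear_combination -hx, pow_succ, pow_mul, neg_one_sq,
    one_pow] at r2
  rw [pow_succ] at r1
  have h0 : (-1 : ℚ_[p]) ^ μ ≠ 0 := pow_ne_zero _ (by norm_num)
  apply mul_left_cancel₀ h0
  rw [GG, ← r3]
  linear_combination ((gammaP p x : ℚ_[p]) * (gammaP p (2 * x) : ℚ_[p])) * k0 -
    (s 0 * (gammaP p x : ℚ_[p]) * (gammaP p (1 - x) : ℚ_[p])) * r2 + s 0 * r1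

end Pool.Agent.MP_54d89f_nt.Dw
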