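import Pool.Agent.MP_54d89f_nt.Dw.St

/-! The evaluation of the coefficient that links a0 and a2 when p is 5 modulo 6. -/

namespace Pool.Agent.MP_54d89f_nt.Dw

open Finset Pool.Agent.MP_030fd4_nt

variable {p : Nat} [Fact p.Prime]

theorem rising_ne_Ev02 {K : Type*} [Field K] [CharZero K] (a b : ℕ) (ha : 0 < a) (hb : 0 < b)
    (k : ℕ) : rising ((a : K) / b) k ≠ 0 := by
  refine prod_ne_zero_iff.2 fun i _ => ?_
  have h1 : ((a + b * i : ℕ) : K) ≠ 0 := by exact_mod_cast (by omega : a + b * i ≠ 0)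
  have h2 : (b : K) ≠ 0 := by exact_mod_cast hb.ne'
  intro h
  apply h1
  push_cast
  field_simp at h
  linear_combination h

theorem alg_Ev02 {K : Type*} [Field K] [CharZero K]
    {s u1 u2 u3 u4 u5 v1 v2 v3 v4 v5 G1 G2 G3 G4 G5 ga gb P q d e : K}
    (hd : d = 1 ∨ d = -1) (he : e = 1 ∨ e = -1) (hP : P ≠ 0) (hq : q ≠ 0)
    (hu4 : u4 ≠ 0) (hu5 : u5 ≠ 0) (h1 : v1 ≠ 0) (h2 : v2 ≠ 0) (h3 : v3 ≠ 0) (h4 : v4 ≠ 0)
    (h5 : v5 ≠ 0)
    (e1 : u1 * (-1) = (d * e) * G1 * (P ^ 3 * q ^ 2) * (2 * v1))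
    (e2 : u2 * ga = (d * e) * G2 * (P * q) * (2 / 3 * v2))
    (e3 : u3 * gb = (d * e) * G3 * (P * q) * (1 / 3 * v3))
    (e4 : u4 * (-1) = (d * e) * G4 * P * v4)
    (e5 : u5 * ga = G5 * (P ^ 2 * q) * (2 / 3 * v5))
    (h : s * (18 * d * v1 * v3 * v2 / (v4 * v5 ^ 2)) = (d * e) * u1 * u2 * u3 / (u4 * u5 ^ 2)) :
    18 * s * gb * G4 * G5 ^ 2 = e * q ^ 2 * G1 * G2 * G3 * ga := by
  rw [← mul_div_assoc, div_eq_div_iff (mul_ne_zero h4 (pow_ne_zero 2 h5))
    (mul_ne_zero hu4 (pow_ne_zero 2 hu5))] at h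
  have E : s * 18 * d * v1 * v2 * v3 * ((u4 * (-1)) * (u5 * ga) ^ 2) * gb =
      (d * e) * (u1 * (-1)) * (u2 * ga) * (u3 * gb) * ga * v4 * v5 ^ 2 := by
    linear_combination (-ga ^ 2 * gb) * h
  rw [e1, e2, e3, e4, e5] at E
  have hc : v1 * v2 * v3 * v4 * v5 ^ 2 * P ^ 5 * q ^ 2 * (4 / 9) ≠ 0 := by
    have : (4 / 9 : K) ≠ 0 := by norm_num
    positivity
  apply mul_left_cancel₀ hc
  rcases hd with rfl | rfl <;> rcases he with rfl | rfl
  · linear_combination E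
  · linear_combination -E
  · linear_combination E
  · linear_combination -E

theorem div_Ev02 {q a k c : ℕ} (hq : 0 < q) (hc : c < q) (h : a = q * k + c) : a / q = k := by
  rw [h, Nat.mul_add_div hq, Nat.div_eq_of_lt hc, add_zero]

theorem ev02 (hp : 5 ≤ p) (hg : GamSt p) : Ev02St p := by
  intro μ x s hμ h6 hs H
  have hpz : (p : ℤ_[p]) = 6 * μ + 5 := by exact_mod_cast congrArg (Nat.cast (R := ℤ_[p])) hμ
  have hxq : (x : ℚ_[p]) = 1 / 6 := by
    have := congrArg (fun z : ℤ_[p] => (z : ℚ_[p])) h6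
    simp only [PadicInt.coe_mul, PadicInt.coe_one] at this
    have e : ((6 : ℤ_[p]) : ℚ_[p]) = 6 := rfl
    rw [e] at this
    linear_combination this / 6
  have c2 : ((2 * x : ℤ_[p]) : ℚ_[p]) = 1 / 3 := by
    have e : ((2 : ℤ_[p]) : ℚ_[p]) = 2 := rfl
    rw [PadicInt.coe_mul, e, hxq]; norm_num
  have c4 : ((4 * x : ℤ_[p]) : ℚ_[p]) = 2 / 3 := by
    have e : ((4 : ℤ_[p]) : ℚ_[p]) = 4 := rfl
    rw [PadicInt.coe_mul, e, hxq]; norm_num
  have g1 : (gammaP p 1 : ℚ_[p]) = -1 := by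
    have := gammaP_succ_dvd hp (dvd_zero (p : ℤ_[p]))
    rw [zero_add, gammaP_zero hp] at this
    rw [this]; simp
  have r1 : (1 : ℤ_[p]) + ((6 * μ + 4 : ℕ) : ℤ_[p]) = p * 1 := by
    push_cast; linear_combination -hpz
  have r2 : 2 * x + ((4 * μ + 3 : ℕ) : ℤ_[p]) = p * (4 * x) := by
    push_cast; linear_combination (-4 * x) * hpz - (4 * (μ : ℤ_[p]) + 3) * h6
  have r4 : 4 * x + ((2 * μ + 1 : ℕ) : ℤ_[p]) = p * (2 * x) := by
    push_cast; linear_combination (-2 * x) * hpz - (2 * (μ : ℤ_[p]) + 1) * h6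
  have r6 : x + ((5 * μ + 4 : ℕ) : ℤ_[p]) = p * (5 * x) := by
    push_cast; linear_combination (-5 * x) * hpz - (5 * (μ : ℤ_[p]) + 4) * h6
  have hc := gammaP_cont hp
  have hY := cont_coe (p := p)
  have hp0 : (p : ℚ_[p]) ≠ 0 := by exact_mod_cast (by omega : p ≠ 0)
  have key := dense_sub
    (φ := fun t => 18 * s t * (gammaP p (4 * x) : ℚ_[p]) * (gammaP p (1 + (-x - p * t)) : ℚ_[p]) *
      (gammaP p (2 * x + 2 * (-x - p * t)) : ℚ_[p]) ^ 2)
    (ψ := fun t => (-1) ^ μ * (p : ℚ_[p]) ^ 2 * (gammaP p (1 + 3 * (-x - p * t)) : ℚ_[p]) *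
      (gammaP p (2 * x + (-x - p * t)) : ℚ_[p]) * (gammaP p (4 * x + (-x - p * t)) : ℚ_[p]) *
      (gammaP p (2 * x) : ℚ_[p]))
    (by fun_prop) (by fun_prop) (-5 * x) (fun m => by
      have h := H m
      obtain ⟨n, hn⟩ : ∃ n, n = p * m + (5 * μ + 4) := ⟨_, rfl⟩
      rw [← hn] at h
      have hz : -x - p * (-5 * x - m) = (n : ℤ_[p]) := by
        rw [hn]; push_cast
        linear_combination (5 * x) * hpz + (5 * (μ : ℤ_[p]) + 4) * h6
      have hsn : (-1 : ℚ_[p]) ^ n = (-1) ^ m * (-1) ^ μ := by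
        have hn' : n = 2 * (3 * μ * m + 2 * m + 2 * μ + 2) + (m + μ) := by
          rw [hn, hμ]; ring
        rw [hn', pow_add, pow_mul, pow_add (-1 : ℚ_[p]) m]
        simp
      have hs3 : (-1 : ℚ_[p]) ^ (3 * n) = (-1) ^ n := by
        rw [show 3 * n = 2 * n + n by ring, pow_add, pow_mul]; simp
      have hs2 : (-1 : ℚ_[p]) ^ (2 * n) = 1 := by rw [pow_mul]; simp
      have m2 : p * (2 * m + 1) = 2 * (p * m) + p := by ring
      have m3 : p * (3 * m + 2) = 3 * (p * m) + 2 * p := by ring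
      have m1 : p * (m + 1) = p * m + p := by ring
      have e1 := hg.1 1 1 (6 * μ + 4) (3 * n) (by omega) r1
      have e2 := hg.1 (2 * x) (4 * x) (4 * μ + 3) n (by omega) r2
      have e3 := hg.1 (4 * x) (2 * x) (2 * μ + 1) n (by omega) r4
      have e4 := hg.1 1 1 (6 * μ + 4) n (by omega) r1
      have e5 := hg.1 (2 * x) (4 * x) (4 * μ + 3) (2 * n) (by omega) r2
      rw [div_Ev02 (k := 3 * m + 2) (c := 3 * μ + 2) (by omega) (by omega) (by omega), g1, hs3,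
        hsn, PadicInt.coe_one, rising_succ', rising_succ'] at e1
      rw [div_Ev02 (k := m + 1) (c := μ) (by omega) (by omega) (by omega), hsn, c2, c4,
        rising_succ'] at e2
      rw [div_Ev02 (k := m + 1) (c := 3 * μ + 2) (by omega) (by omega) (by omega), hsn, c2, c4,
        rising_succ'] at e3
      rw [div_Ev02 (k := m) (c := 5 * μ + 4) (by omega) (by omega) (by omega), g1, hsn,
        PadicInt.coe_one] at e4
      rw [div_Ev02 (k := 2 * m + 1) (c := 6 * μ + 4) (by omega) (by omega) (by omega), hs2, c2, c4,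
        rising_succ'] at e5
      rw [show (1 : ℚ_[p]) + 1 + 1 = 3 by norm_num] at e1
      rw [show (2 / 3 : ℚ_[p]) + 1 = 5 / 3 by norm_num] at e2 e5
      rw [show (1 / 3 : ℚ_[p]) + 1 = 4 / 3 by norm_num] at e3
      rw [a0, a2, hsn] at h
      push_cast at e1 e5
      simp only [hz]
      refine alg_Ev02 (P := (p : ℚ_[p]) ^ m) (neg_one_pow_eq_or _ m) (neg_one_pow_eq_or _ μ)
        (pow_ne_zero _ hp0) hp0 ?_ ?_ ?_ ?_ ?_ ?_ ?_ ?_ ?_ ?_ e4 ?_ h
      · simpa using rising_ne_Ev02 (K := ℚ_[p]) 1 1 (by omega) (by omega) n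
      · simpa using rising_ne_Ev02 (K := ℚ_[p]) 1 3 (by omega) (by omega) (2 * n)
      · simpa using rising_ne_Ev02 (K := ℚ_[p]) 3 1 (by omega) (by omega) (3 * m)
      · simpa using rising_ne_Ev02 (K := ℚ_[p]) 5 3 (by omega) (by omega) m
      · simpa using rising_ne_Ev02 (K := ℚ_[p]) 4 3 (by omega) (by omega) m
      · simpa using rising_ne_Ev02 (K := ℚ_[p]) 1 1 (by omega) (by omega) m
      · simpa using rising_ne_Ev02 (K := ℚ_[p]) 5 3 (by omega) (by omega) (2 * m)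
      · rw [e1]; ring
      · rw [e2]; ring
      · rw [e3]; ring
      · rw [e5]; ring) 0
  have f2 := hg.2 (2 * x) (4 * x) (4 * μ + 3) (by omega) r2
  have f6 := hg.2 x (5 * x) (5 * μ + 4) (by omega) r6
  have hh := congrArg (fun z : ℤ_[p] => (z : ℚ_[p]))
    (gammaP_half hp (hf := 3 * x) (by linear_combination h6))
  simp only [PadicInt.coe_pow, PadicInt.coe_neg, PadicInt.coe_one] at hh
  simp only [mul_zero, sub_zero] at key
  rw [show 2 * x + 2 * -x = 0 by ring, gammaP_zero hp, show 1 + -x = 1 - x by ring,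
    show 1 + 3 * -x = 3 * x by linear_combination -h6, show 2 * x + -x = x by ring,
    show 4 * x + -x = 3 * x by ring, PadicInt.coe_one] at key
  rw [show 1 - 2 * x = 4 * x by linear_combination -h6,
    show 4 * μ + 3 + 1 = 2 * (2 * μ + 2) by ring, pow_mul] at f2
  rw [show 5 * μ + 4 + 1 = 2 * (2 * μ + 2) + μ + 1 by ring, pow_succ, pow_add, pow_mul] at f6
  rw [GG, ← hh]
  simp only [neg_one_sq, one_pow, one_mul, mul_one] at f2 f6 key
  rcases neg_one_pow_eq_or ℚ_[p] μ with e | e <;> rw [e] at f6 key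
  · linear_combination (-(gammaP p (2 * x) : ℚ_[p]) * (gammaP p x : ℚ_[p])) * key +
      18 * s 0 * ((gammaP p x : ℚ_[p]) * (gammaP p (1 - x) : ℚ_[p])) * f2 + 18 * s 0 * f6
  · linear_combination ((gammaP p (2 * x) : ℚ_[p]) * (gammaP p x : ℚ_[p])) * key -
      18 * s 0 * ((gammaP p x : ℚ_[p]) * (gammaP p (1 - x) : ℚ_[p])) * f2 - 18 * s 0 * f6

end Pool.Agent.MP_54d89f_nt.Dw
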