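import Pool.Agent.MP_54d89f_nt.Dw.St

namespace Pool.Agent.MP_54d89f_nt.Dw

open Finset Pool.Agent.MP_030fd4_nt

variable {p : Nat} [Fact p.Prime]

theorem alg_Ev20 {K : Type*} [Field K] [CharZero K]
    {s σ ε A B C D E A' B' C' D' E' P G1 G3 G8 G10 gA gB gC gD gE : K}
    (hσ : σ = 1 ∨ σ = -1) (hε : ε = 1 ∨ ε = -1) (hA : A ≠ 0) (hB : B ≠ 0) (hC : C ≠ 0)
    (hD : D ≠ 0) (hE : E ≠ 0) (hP : P ≠ 0) (n1 : G1 ≠ 0) (n3 : G3 ≠ 0) (n8 : G8 ≠ 0)
    (n10 : G10 ≠ 0) (nD : gD ≠ 0) (nE : gE ≠ 0)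
    (h1 : A' * G3 = (σ * ε) ^ 3 * gA * P ^ 3 * A) (h2 : B' * G8 = σ * ε * gB * P * B)
    (h3 : C' * G10 = σ * ε * gC * P * C) (h4 : D' * G1 = σ * ε * gD * P * D)
    (h5 : E' * G10 = (σ * ε) ^ 2 * gE * P ^ 2 * E)
    (h : s * (σ * A * C * B / (D * E ^ 2)) = 18 * (σ * ε) * A' * B' * C' / (D' * E' ^ 2)) :
    s * G3 * G8 * gD * gE ^ 2 = 18 * ε * gA * gB * gC * G1 * G10 := by
  obtain rfl := eq_div_of_mul_eq n3 h1
  obtain rfl := eq_div_of_mul_eq n8 h2
  obtain rfl := eq_div_of_mul_eq n10 h3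
  obtain rfl := eq_div_of_mul_eq n1 h4
  obtain rfl := eq_div_of_mul_eq n10 h5
  have h0 : σ * A * C * B / (D * E ^ 2) ≠ 0 := by
    rcases hσ with rfl | rfl <;> simp [hA, hB, hC, hD, hE]
  obtain rfl := eq_div_of_mul_eq h0 h
  rcases hσ with rfl | rfl <;> rcases hε with rfl | rfl <;> field_simp

theorem rising_ne_Ev20 {K : Type*} [Field K] [CharZero K] (q : ℚ) (hq : 0 < q) (k : ℕ) :
    rising (q : K) k ≠ 0 := by
  rw [← rising_cast]
  have : 0 < rising q k := prod_pos fun i _ => by positivity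
  exact_mod_cast this.ne'

theorem div_Ev20 {p a c n : ℕ} (hc : c < p) (h : n = p * a + c) : n / p = a := by
  rw [h, Nat.mul_add_div (by omega), Nat.div_eq_of_lt hc, add_zero]

theorem ev20 (hp : 5 ≤ p) (hg : GamSt p) : Ev20St p := by
  intro μ x s hμ hx hs h
  obtain ⟨g1, g2⟩ := hg
  have hpz : (p : ℤ_[p]) = 6 * μ + 5 := by exact_mod_cast congrArg (Nat.cast : ℕ → ℤ_[p]) hμ
  have hxq : (x : ℚ_[p]) = 1 / 6 := by
    have : ((6 * x : ℤ_[p]) : ℚ_[p]) = 1 := by rw [hx]; rfl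
    push_cast at this
    change (6 : ℚ_[p]) * _ = _ at this
    rw [eq_div_iff (by norm_num)]
    linear_combination this
  have gne : ∀ u : ℤ_[p], (gammaP p u : ℚ_[p]) ≠ 0 := fun u => by
    obtain ⟨y, hy⟩ := exists_digit (-u)
    have := g2 u (-y) (-u).zmodRepr (PadicInt.zmodRepr_lt_p _) (by linear_combination -hy)
    intro e
    rw [e, zero_mul] at this
    exact pow_ne_zero _ (by norm_num) this.symm
  have c1 : ((1 : ℤ_[p]) : ℚ_[p]) = 1 := rfl
  have c3 : ((3 : ℤ_[p]) : ℚ_[p]) = 3 := rfl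
  have c2 : ((2 * x : ℤ_[p]) : ℚ_[p]) = 1 / 3 := by
    push_cast; rw [hxq]; change (2 : ℚ_[p]) * _ = _; norm_num
  have c4 : ((4 * x : ℤ_[p]) : ℚ_[p]) = 2 / 3 := by
    push_cast; rw [hxq]; change (4 : ℚ_[p]) * _ = _; norm_num
  have c8 : ((8 * x : ℤ_[p]) : ℚ_[p]) = 4 / 3 := by
    push_cast; rw [hxq]; change (8 : ℚ_[p]) * _ = _; norm_num
  have c10 : ((10 * x : ℤ_[p]) : ℚ_[p]) = 5 / 3 := by
    push_cast; rw [hxq]; change (10 : ℚ_[p]) * _ = _; norm_num
  have hc := gammaP_cont hp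
  have hP : (p : ℚ_[p]) ≠ 0 := by exact_mod_cast (by omega : p ≠ 0)
  have key := dense_sub
    (φ := fun t => s t * (gammaP p 3 : ℚ_[p]) * (gammaP p (8 * x) : ℚ_[p]) *
      (gammaP p (1 + (-5 * x - p * t)) : ℚ_[p]) *
      (gammaP p (10 * x + 2 * (-5 * x - p * t)) : ℚ_[p]) ^ 2)
    (ψ := fun t => 18 * (-1) ^ μ * (gammaP p (3 + 3 * (-5 * x - p * t)) : ℚ_[p]) *
      (gammaP p (8 * x + (-5 * x - p * t)) : ℚ_[p]) *
      (gammaP p (10 * x + (-5 * x - p * t)) : ℚ_[p]) * (gammaP p 1 : ℚ_[p]) *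
      (gammaP p (10 * x) : ℚ_[p]))
    (by have := cont_coe (p := p); fun_prop) (by have := cont_coe (p := p); fun_prop) (-x)
    (fun m => by
      have hz : -5 * x - p * (-x - m) = ((p * m + μ : ℕ) : ℤ_[p]) := by
        push_cast
        linear_combination x * hpz + μ * hx
      have hA := g1 3 1 (6 * μ + 2) (3 * (p * m + μ)) (by omega)
        (by push_cast; linear_combination -hpz)
      have hB := g1 (8 * x) (4 * x) (4 * μ + 2) (p * m + μ) (by omega)
        (by push_cast; linear_combination (-4 * x) * hpz - (4 * μ + 2) * hx)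
      have hC := g1 (10 * x) (2 * x) (2 * μ) (p * m + μ) (by omega)
        (by push_cast; linear_combination (-2 * x) * hpz - (2 * μ) * hx)
      have hD := g1 1 1 (6 * μ + 4) (p * m + μ) (by omega)
        (by push_cast; linear_combination -hpz)
      have hE := g1 (10 * x) (2 * x) (2 * μ) (2 * (p * m + μ)) (by omega)
        (by push_cast; linear_combination (-2 * x) * hpz - (2 * μ) * hx)
      rw [div_Ev20 (a := 3 * m) (c := 3 * μ + 2) (by omega)
        (by rw [mul_left_comm p 3 m]; omega)] at hA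
      rw [div_Ev20 (a := m) (c := 3 * μ + 2) (by omega) (by omega)] at hB
      rw [div_Ev20 (a := m) (c := 5 * μ + 4) (by omega) (by omega)] at hC
      rw [div_Ev20 (a := m) (c := μ) (by omega) (by omega)] at hD
      rw [div_Ev20 (a := 2 * m) (c := 6 * μ + 4) (by omega)
        (by rw [mul_left_comm p 2 m]; omega)] at hE
      have hsg : (-1 : ℚ_[p]) ^ (p * m + μ) = (-1) ^ m * (-1) ^ μ := by
        have ho : Odd p := ⟨3 * μ + 2, by omega⟩
        rw [pow_add, pow_mul, ho.neg_one_pow]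
      have hm := h m
      rw [a0, a2, hsg] at hm
      rw [c1, c3, pow_mul', hsg, pow_mul', Nat.cast_mul 3] at hA
      rw [c8, c4, hsg] at hB
      rw [c10, c2, hsg] at hC
      rw [c1, hsg] at hD
      rw [c10, c2, pow_mul', hsg, pow_mul', Nat.cast_mul 2] at hE
      have r1 := fun k => rising_ne_Ev20 (K := ℚ_[p]) 1 (by norm_num) k
      have r2 := fun k => rising_ne_Ev20 (K := ℚ_[p]) (1 / 3) (by norm_num) k
      have r3 := fun k => rising_ne_Ev20 (K := ℚ_[p]) (2 / 3) (by norm_num) k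
      push_cast at r1 r2 r3
      simp only [hz]
      exact alg_Ev20 (neg_one_pow_eq_or _ m) (neg_one_pow_eq_or _ μ) (r1 _) (r3 _) (r2 _) (r1 _)
        (r2 _) (pow_ne_zero m hP) (gne _) (gne _) (gne _) (gne _) (gne _) (gne _)
        hA hB hC hD hE hm) 0
  have e1 : 1 + (-5 * x - p * 0) = x := by linear_combination -hx
  have e2 : 10 * x + 2 * (-5 * x - p * 0) = 0 := by ring
  have e3 : 3 + 3 * (-5 * x - p * 0) = 3 * x := by linear_combination -3 * hx
  have e4 : 8 * x + (-5 * x - p * 0) = 3 * x := by ring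
  have e5 : 10 * x + (-5 * x - p * 0) = 1 - x := by linear_combination hx
  simp only [e1, e2, e3, e4, e5] at key
  have nd : ∀ u : ℤ_[p], (∃ v, u * v = 1) → ¬ (p : ℤ_[p]) ∣ u := fun u ⟨v, hv⟩ hd =>
    PadicInt.prime_p.not_isUnit (isUnit_of_dvd_one (hv ▸ hd.mul_right v))
  have v1 : gammaP p 1 = -1 := by
    have := gammaP_succ_dvd hp (dvd_zero (p : ℤ_[p]))
    rwa [zero_add, gammaP_zero hp] at this
  have v3 : gammaP p 3 = -2 := by
    have h2 := gammaP_succ_unit hp (nd 1 ⟨1, one_mul 1⟩)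
    have h3 := gammaP_succ_unit hp (nd 2 ⟨3 * x, by linear_combination hx⟩)
    rw [v1, one_add_one_eq_two] at h2
    rw [h2, two_add_one_eq_three] at h3
    rw [h3]; ring
  have v8 : gammaP p (8 * x) = -(2 * x) * gammaP p (2 * x) := by
    rw [← gammaP_succ_unit hp (nd (2 * x) ⟨3, by linear_combination hx⟩)]
    congr 1
    linear_combination hx
  have v10 : gammaP p (10 * x) = -(4 * x) * gammaP p (1 - 2 * x) := by
    have e : 1 - 2 * x = 4 * x := by linear_combination -hx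
    rw [e, ← gammaP_succ_unit hp (nd (4 * x) ⟨9 * x, by linear_combination (6 * x + 1) * hx⟩)]
    congr 1
    linear_combination hx
  have w1 := g2 x (5 * x) (5 * μ + 4) (by omega)
    (by push_cast; linear_combination (-5 * x) * hpz - (5 * μ + 4) * hx)
  have w2 := g2 (2 * x) (4 * x) (4 * μ + 3) (by omega)
    (by push_cast; linear_combination (-4 * x) * hpz - (4 * μ + 3) * hx)
  have w3 : (gammaP p (3 * x) : ℚ_[p]) ^ 2 = (-1) ^ ((p + 1) / 2) := by
    exact_mod_cast congrArg (fun u : ℤ_[p] => (u : ℚ_[p]))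
      (gammaP_half hp (hf := 3 * x) (by linear_combination hx))
  have s1 : (-1 : ℚ_[p]) ^ ((p + 1) / 2) = -(-1) ^ μ := by
    rw [show (p + 1) / 2 = 2 * (μ + 1) + μ + 1 by omega, pow_succ, pow_add, pow_mul]; simp
  have s2 : (-1 : ℚ_[p]) ^ (5 * μ + 4 + 1) = -(-1) ^ μ := by
    rw [show 5 * μ + 4 + 1 = 2 * (2 * μ + 2) + μ + 1 by omega, pow_succ, pow_add, pow_mul]; simp
  have s3 : (-1 : ℚ_[p]) ^ (4 * μ + 3 + 1) = 1 := by
    rw [show 4 * μ + 3 + 1 = 2 * (2 * μ + 2) by omega, pow_mul]; simp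
  rw [v1, v3, v8, v10, gammaP_zero hp, PadicInt.coe_mul, PadicInt.coe_mul (-(4 * x)),
    PadicInt.coe_neg (2 * x), PadicInt.coe_neg (4 * x), c2, c4, PadicInt.coe_neg, PadicInt.coe_neg,
    c1, show ((2 : ℤ_[p]) : ℚ_[p]) = 2 from rfl] at key
  rw [s1] at w3
  rw [s2] at w1
  rw [s3] at w2
  rw [GG, s1]
  generalize (gammaP p x : ℚ_[p]) = a at *
  generalize (gammaP p (2 * x) : ℚ_[p]) = b at *
  generalize (gammaP p (3 * x) : ℚ_[p]) = c at *
  generalize (gammaP p (1 - x) : ℚ_[p]) = d at *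
  generalize (gammaP p (1 - 2 * x) : ℚ_[p]) = e at *
  rcases neg_one_pow_eq_or ℚ_[p] μ with hε | hε <;> rw [hε] at key w1 w3 ⊢
  · linear_combination (-3 / 2 * a * b) * key - 18 * a * b * d * e * w3 + 18 * b * e * w1 - 18 * w2
  · linear_combination (3 / 2 * a * b) * key - 18 * a * b * d * e * w3 - 18 * b * e * w1 - 18 * w2

end Pool.Agent.MP_54d89f_nt.Dw
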