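import Pool.Agent.MP_54d89f_nt.Dw.St

namespace Pool.Agent.MP_54d89f_nt.Dw

open Finset Pool.Agent.MP_030fd4_nt

variable {p : ℕ} [Fact p.Prime]

theorem alg_Ev22 {K : Type*} [Field K] [CharZero K]
    {s δ σ P q a b c d e A B C D E g1 g3 g4 g5 G1 G3 G4 G5 G6 : K}
    (hδ : δ * δ = 1) (hσ : σ * σ = 1) (ha : a ≠ 0) (hb : b ≠ 0) (hc : c ≠ 0) (hd : d ≠ 0)
    (he : e ≠ 0) (hD : D ≠ 0) (hE : E ≠ 0) (hP : P ≠ 0) (hq : q ≠ 0)
    (h1 : A * g3 = (δ * σ) ^ 3 * G3 * (P ^ 3 * q ^ 2) * (2 * a))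
    (h2 : B * g4 = δ * σ * G4 * (P * q) * (1 / 3 * b))
    (h3 : C * g5 = δ * σ * G5 * (P * q) * (2 / 3 * c))
    (h4 : D * g1 = δ * σ * G1 * P * d)
    (h5 : E * g5 = (δ * σ) ^ 2 * G6 * (P ^ 2 * q) * (2 / 3 * e))
    (h : s * (18 * δ * a * b * c / (d * e ^ 2)) = 18 * (δ * σ) * A * B * C / (D * E ^ 2)) :
    s * (g3 * g4 * g5 * G1 * G6 ^ 2) = σ * q ^ 2 * (G3 * G4 * G5 * g1 * g5 ^ 2) := by
  have h' : s * δ * a * b * c * D * E ^ 2 = δ * σ * A * B * C * d * e ^ 2 := by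
    rw [← mul_div_assoc, div_eq_div_iff (mul_ne_zero hd (pow_ne_zero _ he))
      (mul_ne_zero hD (pow_ne_zero _ hE))] at h
    linear_combination h / 18
  have e1 : s * δ * a * b * c * (D * g1) * (E * g5) ^ 2 * (g3 * g4 * g5) =
      δ * σ * (A * g3) * (B * g4) * (C * g5) * d * e ^ 2 * (g1 * g5 ^ 2) := by
    linear_combination (g1 * g5 ^ 3 * g3 * g4) * h'
  rw [h1, h2, h3, h4, h5] at e1
  have hX : a * b * c * d * e ^ 2 * P ^ 5 * q ^ 2 ≠ 0 := by simp [ha, hb, hc, hd, he, hP, hq]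
  apply mul_left_cancel₀ hX
  rcases mul_self_eq_one_iff.1 hδ with rfl | rfl <;>
    rcases mul_self_eq_one_iff.1 hσ with rfl | rfl <;>
    first
      | linear_combination (9 / 4) * e1
      | linear_combination (-9 / 4) * e1

theorem gam_Ev22 (hg : GamSt p) (x y : ℤ_[p]) (r n L j : ℕ) (hr : r < p) (hj : j < p)
    (h : x + r = p * y) (hL : n + p = p * L + j + r + 1) :
    rising (x : ℚ_[p]) n * (gammaP p x : ℚ_[p]) =
      (-1) ^ n * (gammaP p (x + n) : ℚ_[p]) * (p : ℚ_[p]) ^ L * rising (y : ℚ_[p]) L := by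
  have e : (n + p - 1 - r) / p = L := by
    rw [show n + p - 1 - r = p * L + j by omega, Nat.mul_add_div (by omega),
      Nat.div_eq_of_lt hj, add_zero]
  have := hg.1 x y r n hr h
  rwa [e] at this

theorem ne_Ev22 (u n : ℕ) {y : ℚ_[p]} (hu : 0 < u) (hy : 3 * y = u) : rising y n ≠ 0 := by
  refine prod_ne_zero_iff.2 fun i _ h => ?_
  have : ((u + 3 * i : ℕ) : ℚ_[p]) ≠ 0 := by exact_mod_cast (by omega : u + 3 * i ≠ 0)
  apply this
  push_cast
  linear_combination 3 * h - hy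

theorem ev22 (hp : 5 ≤ p) (hg : GamSt p) : Ev22St p := by
  intro μ x s hμ h6 hs h
  obtain ⟨ν, rfl⟩ : ∃ ν, μ = ν + 1 := ⟨μ - 1, by omega⟩
  have hν : p = 6 * ν + 7 := by omega
  have hpz : (p : ℤ_[p]) = 6 * ν + 7 := by exact_mod_cast congrArg (Nat.cast : ℕ → ℤ_[p]) hν
  have hp0 : (p : ℚ_[p]) ≠ 0 := by exact_mod_cast (by omega : p ≠ 0)
  have hx : (x : ℚ_[p]) = 1 / 6 := by
    have h : (((6 : ℕ) * x : ℤ_[p]) : ℚ_[p]) = 1 := by rw [Nat.cast_ofNat, h6]; rfl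
    rw [PadicInt.coe_mul, PadicInt.coe_natCast] at h
    push_cast at h
    linear_combination h / 6
  have cx : ∀ k : ℕ, (((k : ℤ_[p]) * x : ℤ_[p]) : ℚ_[p]) = k / 6 := fun k => by
    rw [PadicInt.coe_mul, PadicInt.coe_natCast, hx]; ring
  have c2 : ((2 * x : ℤ_[p]) : ℚ_[p]) = 1 / 3 := (cx 2).trans (by norm_num)
  have c4 : ((4 * x : ℤ_[p]) : ℚ_[p]) = 2 / 3 := (cx 4).trans (by norm_num)
  have c8 : ((8 * x : ℤ_[p]) : ℚ_[p]) = 4 / 3 := (cx 8).trans (by norm_num)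
  have c10 : ((10 * x : ℤ_[p]) : ℚ_[p]) = 5 / 3 := (cx 10).trans (by norm_num)
  have c3 : ((3 : ℤ_[p]) : ℚ_[p]) = 3 := PadicInt.coe_natCast 3
  have c1 : ((1 : ℤ_[p]) : ℚ_[p]) = 1 := rfl
  have hc : Continuous fun y : ℤ_[p] => (gammaP p y : ℚ_[p]) := cont_coe.comp (gammaP_cont hp)
  set G : ℤ_[p] → ℚ_[p] := fun y => (gammaP p y : ℚ_[p]) with hG
  have key := dense_sub
    (φ := fun t => s t * (G 3 * G (8 * x) * G (10 * x) * G (1 + (-5 * x - p * t)) *
      G (10 * x + 2 * (-5 * x - p * t)) ^ 2))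
    (ψ := fun t => (-1) ^ (5 * (ν + 1)) * (p : ℚ_[p]) ^ 2 * (G (3 + 3 * (-5 * x - p * t)) *
      G (8 * x + (-5 * x - p * t)) * G (10 * x + (-5 * x - p * t)) * G 1 * G (10 * x) ^ 2))
    (by fun_prop) (by fun_prop) (-5 * x) (fun m => ?_) 0
  · have r1 := hg.2 x x (ν + 1) (by omega)
      (by rw [hpz]; push_cast; linear_combination (-((ν : ℤ_[p]) + 1)) * h6)
    have r2 := hg.2 (2 * x) (2 * x) (2 * ν + 2) (by omega)
      (by rw [hpz]; push_cast; linear_combination (-(2 * (ν : ℤ_[p]) + 2)) * h6)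
    have s1 := gam_Ev22 hg (2 * x) (2 * x) (2 * ν + 2) 1 0 (4 * ν + 5) (by omega) (by omega)
      (by rw [hpz]; push_cast; linear_combination (-(2 * (ν : ℤ_[p]) + 2)) * h6) (by omega)
    have s2 := gam_Ev22 hg (4 * x) (4 * x) (4 * ν + 4) 1 0 (2 * ν + 3) (by omega) (by omega)
      (by rw [hpz]; push_cast; linear_combination (-(4 * (ν : ℤ_[p]) + 4)) * h6) (by omega)
    have s3 := gam_Ev22 hg 1 1 (6 * ν + 6) 2 0 2 (by omega) (by omega)
      (by rw [hpz]; push_cast; ring) (by omega)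
    have g0 : G 0 = 1 := by simp only [hG, gammaP_zero hp]; rfl
    have g1 : G 1 = -1 := by
      have := gammaP_succ_dvd hp (dvd_zero (p : ℤ_[p]))
      rw [zero_add, gammaP_zero hp] at this
      simp only [hG, this]; rfl
    have gh : G (3 * x) ^ 2 = (-1) ^ ((p + 1) / 2) := by
      have := gammaP_half hp (hf := 3 * x) (by linear_combination h6)
      simp only [hG]
      exact_mod_cast congrArg (fun y : ℤ_[p] => (y : ℚ_[p])) this
    rw [show 1 - x = 5 * x by linear_combination -h6] at r1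
    rw [show 1 - 2 * x = 4 * x by linear_combination -h6] at r2
    rw [show 2 * x + ((1 : ℕ) : ℤ_[p]) = 8 * x by push_cast; linear_combination -h6, c2] at s1
    rw [show 4 * x + ((1 : ℕ) : ℤ_[p]) = 10 * x by push_cast; linear_combination -h6, c4] at s2
    rw [show 1 + ((2 : ℕ) : ℤ_[p]) = 3 by push_cast; ring, c1] at s3
    simp only [rising, prod_range_succ, prod_range_zero] at s1 s2 s3
    push_cast at s1 s2 s3
    rw [show 1 + (-5 * x - p * 0) = x by linear_combination -h6,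
      show 10 * x + 2 * (-5 * x - p * 0) = 0 by ring,
      show 3 + 3 * (-5 * x - p * 0) = 3 * x by linear_combination -3 * h6,
      show 8 * x + (-5 * x - p * 0) = 3 * x by ring,
      show 10 * x + (-5 * x - p * 0) = 5 * x by ring, g0, g1] at key
    change G x * G (5 * x) = _ at r1
    change G (2 * x) * G (4 * x) = _ at r2
    have t1 : G (8 * x) = -(1 / 3) * G (2 * x) := by simp only [hG]; linear_combination s1
    have t2 : G (10 * x) = -(2 / 3) * G (4 * x) := by simp only [hG]; linear_combination s2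
    have t3 : G 3 = -2 := by simp only [hG] at g1 ⊢; linear_combination 2 * g1 - s3
    have r2' : G (2 * x) * G (4 * x) = -1 := by
      rw [r2, show 2 * ν + 2 + 1 = 2 * (ν + 1) + 1 by ring, pow_succ, pow_mul]; norm_num
    have r1' : (-1) ^ (5 * (ν + 1)) * (G x * G (5 * x)) = -1 := by
      rw [r1, ← pow_add, show 5 * (ν + 1) + (ν + 1 + 1) = 2 * (3 * ν + 3) + 1 by ring, pow_succ,
        pow_mul]; norm_num
    have sq : ((-1 : ℚ_[p]) ^ ((p + 1) / 2)) * (-1) ^ ((p + 1) / 2) = 1 := by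
      rw [← mul_pow]; norm_num
    rw [t1, t2, t3] at key
    change (-1) ^ ((p + 1) / 2) * G x ^ 2 * G (2 * x) ^ 2 * s 0 = _
    have k2 : s 0 * (G (2 * x) * G x) * (G (2 * x) * G (4 * x)) * (G (2 * x) * G x) =
        (p : ℚ_[p]) ^ 2 * G (3 * x) ^ 2 * ((-1) ^ (5 * (ν + 1)) * (G x * G (5 * x))) *
          (G (2 * x) * G (4 * x)) ^ 2 := by
      linear_combination (-9 / 4 * G x * G (2 * x) ^ 2) * key
    rw [r2', r1', gh] at k2
    linear_combination (-(-1) ^ ((p + 1) / 2)) * k2 + (p : ℚ_[p]) ^ 2 * sq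
  · have hz : ((p * m + 5 * (ν + 1) : ℕ) : ℤ_[p]) = -5 * x - p * (-5 * x - m) := by
      push_cast; rw [hpz]; linear_combination (-5 * ((ν : ℤ_[p]) + 1)) * h6
    have e8 : 8 * x + ((2 * ν + 1 : ℕ) : ℤ_[p]) = p * (2 * x) := by
      rw [hpz]; push_cast; linear_combination (-(2 * (ν : ℤ_[p]) + 1)) * h6
    have e10 : 10 * x + ((4 * ν + 3 : ℕ) : ℤ_[p]) = p * (4 * x) := by
      rw [hpz]; push_cast; linear_combination (-(4 * (ν : ℤ_[p]) + 3)) * h6
    have h1 := gam_Ev22 hg 3 1 (6 * ν + 4) (3 * (p * m + 5 * (ν + 1))) (3 * m + 1 + 1) (3 * ν + 3)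
      (by omega) (by omega) (by rw [hpz]; push_cast; ring) (by rw [hν]; ring)
    have h2 := gam_Ev22 hg (8 * x) (2 * x) (2 * ν + 1) (p * m + 5 * (ν + 1)) (m + 1) (3 * ν + 3)
      (by omega) (by omega) e8 (by rw [hν]; ring)
    have h3 := gam_Ev22 hg (10 * x) (4 * x) (4 * ν + 3) (p * m + 5 * (ν + 1)) (m + 1) (ν + 1)
      (by omega) (by omega) e10 (by rw [hν]; ring)
    have h4 := gam_Ev22 hg 1 1 (6 * ν + 6) (p * m + 5 * (ν + 1)) m (5 * ν + 5)
      (by omega) (by omega) (by rw [hpz]; push_cast; ring) (by rw [hν]; ring)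
    have h5 := gam_Ev22 hg (10 * x) (4 * x) (4 * ν + 3) (2 * (p * m + 5 * (ν + 1))) (2 * m + 1)
      (6 * ν + 6) (by omega) (by omega) e10 (by rw [hν]; ring)
    have hm := h m
    have sg : (-1 : ℚ_[p]) ^ (p * m + 5 * (ν + 1)) = (-1) ^ m * (-1) ^ (5 * (ν + 1)) := by
      rw [pow_add, pow_mul, Odd.neg_one_pow ⟨3 * ν + 3, by omega⟩]
    rw [Nat.cast_mul, hz, pow_mul', sg, rising_succ', rising_succ', c3, c1] at h1
    rw [Nat.cast_mul, hz, pow_mul', sg, rising_succ', c10, c4] at h5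
    rw [hz, sg, rising_succ', c8, c2] at h2
    rw [hz, sg, rising_succ', c10, c4] at h3
    rw [hz, sg, c1] at h4
    simp only [a2, sg] at hm
    refine alg_Ev22 (δ := (-1) ^ m) (P := (p : ℚ_[p]) ^ m) (by rw [← mul_pow]; norm_num)
      (by rw [← mul_pow]; norm_num) (ne_Ev22 9 _ (by omega) (by norm_num))
      (ne_Ev22 4 _ (by omega) (by norm_num)) (ne_Ev22 5 _ (by omega) (by norm_num))
      (ne_Ev22 3 _ (by omega) (by norm_num)) (ne_Ev22 5 _ (by omega) (by norm_num))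
      (ne_Ev22 3 _ (by omega) (by norm_num)) (ne_Ev22 5 _ (by omega) (by norm_num))
      (pow_ne_zero _ hp0) hp0 (h1.trans ?_) (h2.trans ?_) (h3.trans ?_) h4 (h5.trans ?_) hm
    · rw [show (1 + 1 + 1 : ℚ_[p]) = 3 by norm_num]; simp only [hG, Nat.cast_ofNat]; ring
    · rw [show (1 / 3 + 1 : ℚ_[p]) = 4 / 3 by norm_num]; simp only [hG]; ring
    · rw [show (2 / 3 + 1 : ℚ_[p]) = 5 / 3 by norm_num]; simp only [hG]; ring
    · rw [show (2 / 3 + 1 : ℚ_[p]) = 5 / 3 by norm_num]; simp only [hG, Nat.cast_ofNat]; ring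

end Pool.Agent.MP_54d89f_nt.Dw
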