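import Pool.Agent.MP_54d89f_nt.Dw.St

namespace Pool.Agent.MP_54d89f_nt.Dw

open Finset Pool.Agent.MP_030fd4_nt

variable {p : Nat} [Fact p.Prime]

theorem rising_succ_Gam (x : ℚ_[p]) (n : ℕ) : rising x (n + 1) = rising x n * (x + n) := by
  simp only [rising, prod_range_succ]

theorem first_Gam (hp : 5 ≤ p) (x y : ℤ_[p]) (d : ℕ) (h : x + p = p * y + (d + 1 : ℕ))
    (hd : d < p) (n : ℕ) :
    rising (x : ℚ_[p]) n * (gammaP p x : ℚ_[p]) =
      (-1) ^ n * (gammaP p (x + n) : ℚ_[p]) * (p : ℚ_[p]) ^ ((n + d) / p) *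
        rising (y : ℚ_[p]) ((n + d) / p) := by
  induction n with
  | zero => simp [rising, Nat.div_eq_of_lt hd]
  | succ n ih =>
    have hx : x + n = p * (y - 1) + ((n + d + 1 : ℕ) : ℤ_[p]) := by
      push_cast at h ⊢
      linear_combination h
    rw [rising_succ_Gam, show n + 1 + d = n + d + 1 by ring, Nat.succ_div,
      show x + ((n + 1 : ℕ) : ℤ_[p]) = x + n + 1 by push_cast; ring]
    by_cases hn : p ∣ n + d + 1
    · have h1 : n + d + 1 = p * ((n + d) / p + 1) := by
        have := Nat.mul_div_cancel' hn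
        rwa [Nat.succ_div, if_pos hn, eq_comm] at this
      have h2 : x + n = p * (y + ((n + d) / p : ℕ)) := by
        rw [hx, h1]
        push_cast
        ring
      have h3 : (x : ℚ_[p]) + n = p * ((y : ℚ_[p]) + ((n + d) / p : ℕ)) := by
        exact_mod_cast congrArg (fun t : ℤ_[p] => (t : ℚ_[p])) h2
      rw [if_pos hn, gammaP_succ_dvd hp ⟨_, h2⟩, rising_succ_Gam, PadicInt.coe_neg, h3]
      linear_combination (p * ((y : ℚ_[p]) + ((n + d) / p : ℕ))) * ih
    · have h2 : ¬ (p : ℤ_[p]) ∣ x + n := by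
        rw [hx, dvd_add_right (dvd_mul_right _ _), dvd_natCast_iff]
        exact hn
      rw [if_neg hn, gammaP_succ_unit hp h2, add_zero, PadicInt.coe_mul, PadicInt.coe_neg,
        PadicInt.coe_add, PadicInt.coe_natCast]
      linear_combination ((x : ℚ_[p]) + n) * ih

theorem refl_Gam (hp : 5 ≤ p) (r : ℕ) (hr : r < p) (z : ℤ_[p]) :
    gammaP p ((r : ℤ_[p]) + p * z + 1) * gammaP p (-((r : ℤ_[p]) + p * z)) = (-1) ^ (r + 1) := by
  have hc := gammaP_cont hp
  refine PadicInt.denseRange_natCast.induction_on z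
    (p := fun z : ℤ_[p] => gammaP p ((r : ℤ_[p]) + p * z + 1) * gammaP p (-((r : ℤ_[p]) + p * z))
      = (-1) ^ (r + 1)) (isClosed_eq (by fun_prop) continuous_const) fun m => ?_
  have := gammaP_refl_nat hp (r + p * m)
  rw [Nat.add_mul_mod_self_left, Nat.mod_eq_of_lt hr] at this
  exact_mod_cast this

theorem gam (hp : 5 ≤ p) : GamSt p := by
  refine ⟨fun x y r n hr h => ?_, fun x y r hr h => ?_⟩
  · obtain ⟨d, hd⟩ : ∃ d, p = r + d + 1 := ⟨p - 1 - r, by omega⟩
    rw [show n + p - 1 - r = n + d by omega]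
    refine first_Gam hp x y d ?_ (by omega) n
    have h1 : (p : ℤ_[p]) = r + d + 1 := by exact_mod_cast congrArg (Nat.cast (R := ℤ_[p])) hd
    push_cast
    linear_combination h + h1
  · have h1 := refl_Gam hp r hr (-y)
    rw [show (r : ℤ_[p]) + p * -y + 1 = 1 - x by linear_combination h,
      show -((r : ℤ_[p]) + p * -y) = x by linear_combination -h, mul_comm] at h1
    exact_mod_cast congrArg (fun t : ℤ_[p] => (t : ℚ_[p])) h1

end Pool.Agent.MP_54d89f_nt.Dw
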