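import Pool.Agent.MP_54d89f_nt.Dw.St

/-! The middle coefficient vanishes. -/

namespace Pool.Agent.MP_54d89f_nt.Dw

open Finset Pool.Agent.MP_030fd4_nt

theorem iter_Mid {K : Type*} [Field K] (g h u : ℕ → K)
    (hu : ∀ l, g l * u (l + 1) = h l * u l) (n : ℕ) :
    (∏ l ∈ range n, g l) * u n = (∏ l ∈ range n, h l) * u 0 := by
  induction n with
  | zero => simp
  | succ n ih =>
    rw [prod_range_succ, prod_range_succ]
    linear_combination (∏ l ∈ range n, g l) * hu n + h n * ih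

variable {p : ℕ} [Fact p.Prime]

/-- The iterated denominator. -/
noncomputable def D_Mid (t : ℚ_[p]) : ℚ_[p] := ∏ l ∈ range p, 64 * ((p : ℚ_[p]) * t - l) ^ 2

/-- The iterated numerator. -/
noncomputable def N_Mid (i : Fin 3) (t : ℚ_[p]) : ℚ_[p] :=
  ∏ l ∈ range p, nn i ((p : ℚ_[p]) * t - l)

theorem cont_nn_Mid (i : Fin 3) : Continuous (fun t : ℚ_[p] => nn i t) := by
  fin_cases i <;> simp <;> fun_prop

theorem cont_D_Mid : Continuous (D_Mid (p := p)) := by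
  unfold D_Mid
  exact continuous_finsetProd _ fun l _ => by fun_prop

theorem cont_prod_Mid (i : Fin 3) (S : Finset ℕ) :
    Continuous (fun t : ℚ_[p] => ∏ l ∈ S, nn i ((p : ℚ_[p]) * t - l)) :=
  continuous_finsetProd _ fun l _ => (cont_nn_Mid i).comp (by fun_prop)

theorem cont_N_Mid (i : Fin 3) : Continuous (N_Mid (p := p) i) := cont_prod_Mid i _

theorem mid (hp : 5 ≤ p) (h3 : Fam3St (Padic p)) : MidSt p := by
  intro i j c d μ x w A B s τ hc hd hpd hx hw hi _hj hA hB hs hτ hsB hP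
  have hcoe : Continuous (fun t : ℤ_[p] => (t : ℚ_[p])) := continuous_subtype_val
  have c4 : ((4 : ℤ_[p]) : ℚ_[p]) = 4 := rfl
  have c5 : ((5 : ℤ_[p]) : ℚ_[p]) = 5 := rfl
  have c6 : ((6 : ℤ_[p]) : ℚ_[p]) = 6 := rfl
  have hx' : (x : ℚ_[p]) = 1 / 6 := by
    have := congrArg (fun z : ℤ_[p] => (z : ℚ_[p])) hx
    push_cast at this
    rw [c6] at this
    linear_combination this / 6
  have hw' : (w : ℚ_[p]) = 1 / 4 := by
    have := congrArg (fun z : ℤ_[p] => (z : ℚ_[p])) hw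
    push_cast at this
    rw [c4] at this
    linear_combination this / 4
  have hpd' : (p : ℚ_[p]) * d = c + 6 * μ := by exact_mod_cast hpd
  have hs1 : Continuous (fun t : ℤ_[p] => s (t - 1)) := hs.comp (by fun_prop)
  have hτ1 : Continuous (fun t : ℤ_[p] => τ (t - 1)) := hτ.comp (by fun_prop)
  have hD := (cont_D_Mid (p := p)).comp hcoe
  have hN := (cont_N_Mid (p := p) i).comp hcoe
  -- step 1
  have E1 : ∀ t : ℤ_[p], s (t - 1) * nn j (t : ℚ_[p]) * D_Mid (t : ℚ_[p]) =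
      N_Mid i (t : ℚ_[p]) * (64 * (t : ℚ_[p]) ^ 2) * s t := by
    refine dense_sub ((hs1.mul ((cont_nn_Mid j).comp hcoe)).mul hD)
      ((hN.mul (by fun_prop)).mul hs) (-(d : ℤ_[p]) * x) fun m => ?_
    have ht : ((-(d : ℤ_[p]) * x - m : ℤ_[p]) : ℚ_[p]) = -(d : ℚ_[p]) / 6 - m := by
      push_cast; rw [hx']; ring
    have hl : ∀ l : ℕ, (p : ℚ_[p]) * (-(d : ℚ_[p]) / 6 - m) - l =
        -(c : ℚ_[p]) / 6 - ((p * m + μ + l : ℕ) : ℚ_[p]) := fun l => by
      push_cast; linear_combination (-1 / 6 : ℚ_[p]) * hpd'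
    have it := iter_Mid (fun l => 64 * ((p : ℚ_[p]) * (-(d : ℚ_[p]) / 6 - m) - l) ^ 2)
      (fun l => nn i ((p : ℚ_[p]) * (-(d : ℚ_[p]) / 6 - m) - l)) (fun l => A (p * m + μ + l))
      (fun l => by simp only [hl]; exact hA (p * m + μ + l)) p
    have e1 := hsB m
    have e2 := hsB (m + 1)
    have hm : -(d : ℤ_[p]) * x - ((m + 1 : ℕ) : ℤ_[p]) = -(d : ℤ_[p]) * x - m - 1 := by
      push_cast; ring
    have hm' : p * (m + 1) + μ = p * m + μ + p := by ring
    rw [hm, hm'] at e2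
    obtain ⟨hB0, hB1⟩ := hB m
    rw [ht]
    apply mul_right_cancel₀ hB0
    simp only [add_zero] at it
    unfold D_Mid N_Mid
    rw [← e1, ← e2] at it
    linear_combination (64 * (-(d : ℚ_[p]) / 6 - m) ^ 2) * it -
      (s (-(d : ℤ_[p]) * x - m - 1) *
        ∏ l ∈ range p, 64 * ((p : ℚ_[p]) * (-(d : ℚ_[p]) / 6 - m) - l) ^ 2) * hB1
  -- step 2
  have hodd : 2 * (p / 2) + 1 = p := by
    have := (Fact.out : p.Prime).eq_two_or_odd
    omega
  have hodd' : 2 * ((p / 2 : ℕ) : ℚ_[p]) + 1 = p := by exact_mod_cast hodd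
  have E2 : ∀ m : ℕ, τ (-5 * w - m - 1) * nn 1 (-5 / 4 - (m : ℚ_[p])) *
      D_Mid (-5 / 4 - (m : ℚ_[p])) =
      N_Mid i (-5 / 4 - (m : ℚ_[p])) * (64 * (-5 / 4 - (m : ℚ_[p])) ^ 2) * τ (-5 * w - m) := by
    intro m
    have ht : ((-5 * w - m : ℤ_[p]) : ℚ_[p]) = -5 / 4 - m := by
      push_cast; rw [hw', c5]; ring
    have hl : ∀ l : ℕ, (p : ℚ_[p]) * (-5 / 4 - m) - l =
        -(2 * ((p * (2 * m + 2) + p / 2 + 2 * l : ℕ) : ℚ_[p]) + 1) / 4 := fun l => by
      rw [Nat.cast_add, Nat.cast_add]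
      generalize ((p / 2 : ℕ) : ℚ_[p]) = q at hodd' ⊢
      push_cast; linear_combination (1 / 4 : ℚ_[p]) * hodd'
    have it := iter_Mid (fun l => 64 * ((p : ℚ_[p]) * (-5 / 4 - m) - l) ^ 2)
      (fun l => nn i ((p : ℚ_[p]) * (-5 / 4 - m) - l))
      (fun l => P3 ℚ_[p] i (p * (2 * m + 2) + p / 2 + 2 * l))
      (fun l => by
        simp only [hl]
        exact h3.1 i (p * (2 * m + 2) + p / 2 + 2 * l) (by nlinarith [Nat.zero_le (p / 2)])) p
    have e1 := hP m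
    have e2 := hP (m + 1)
    have hm : -5 * w - ((m + 1 : ℕ) : ℤ_[p]) = -5 * w - m - 1 := by push_cast; ring
    have hm' : p * (2 * (m + 1) + 2) + p / 2 = p * (2 * m + 2) + p / 2 + 2 * p := by ring
    have hm2 : 2 * (m + 1) + 2 = 2 * m + 2 + 2 := by ring
    rw [hm, hm', hm2] at e2
    have hn : -(2 * ((2 * m + 2 : ℕ) : ℚ_[p]) + 1) / 4 = -5 / 4 - m := by push_cast; ring
    have rj := h3.1 j (2 * m + 2) (by omega)
    have r1 := h3.1 1 (2 * m + 2) (by omega)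
    rw [hn] at rj r1
    have e3 := E1 (-5 * w - m)
    rw [ht] at e3
    apply mul_right_cancel₀ (h3.2 (2 * m + 2) (by omega))
    simp only [mul_zero, add_zero] at it
    rw [e1, e2] at it
    unfold D_Mid N_Mid at *
    linear_combination (64 * (-5 / 4 - (m : ℚ_[p])) ^ 2) * it -
      (s (-5 * w - m - 1) * ∏ l ∈ range p, 64 * ((p : ℚ_[p]) * (-5 / 4 - m) - l) ^ 2) * rj -
      (τ (-5 * w - m - 1) * ∏ l ∈ range p, 64 * ((p : ℚ_[p]) * (-5 / 4 - m) - l) ^ 2) * r1 -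
      P3 ℚ_[p] j (2 * m + 2) * e3
  -- step 3
  have hμ : μ < p := by rcases hd with rfl | rfl <;> omega
  have hW : ∀ t : ℚ_[p], N_Mid i t = (6 * t - d) ^ 2 *
      (-3 * (p : ℚ_[p]) ^ 2 * ∏ l ∈ (range p).erase μ, nn i ((p : ℚ_[p]) * t - l)) := fun t => by
    unfold N_Mid
    rw [← mul_prod_erase (range p) _ (mem_range.2 hμ), hi]
    have : 6 * ((p : ℚ_[p]) * t - μ) - c = p * (6 * t - d) := by linear_combination hpd'
    rw [this]; ring
  have hn1 : ∀ t : ℚ_[p], nn 1 t = -3 * (6 * t - d) * (6 * t - (6 - d)) := fun t => by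
    rw [nn_one]
    rcases hd with rfl | rfl <;> push_cast <;> ring
  have E3 : ∀ t : ℤ_[p], τ (t - 1) * (-3 * (6 * (t : ℚ_[p]) - (6 - d))) * D_Mid (t : ℚ_[p]) =
      (6 * (t : ℚ_[p]) - d) * (-3 * (p : ℚ_[p]) ^ 2 *
        ∏ l ∈ (range p).erase μ, nn i ((p : ℚ_[p]) * (t : ℚ_[p]) - l)) *
        (64 * (t : ℚ_[p]) ^ 2) * τ t := by
    refine dense_sub ((hτ1.mul (by fun_prop)).mul hD)
      ((((by fun_prop : Continuous fun t : ℤ_[p] => 6 * (t : ℚ_[p]) - d).mul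
        (continuous_const.mul ((cont_prod_Mid i _).comp hcoe))).mul (by fun_prop)).mul hτ)
      (-5 * w) fun m => ?_
    have ht : ((-5 * w - m : ℤ_[p]) : ℚ_[p]) = -5 / 4 - m := by
      push_cast; rw [hw', c5]; ring
    have e := E2 m
    rw [hW, hn1] at e
    rw [ht]
    have h0 : 6 * (-5 / 4 - (m : ℚ_[p])) - d ≠ 0 := by
      intro h
      have h1 : ((15 + 12 * m + 2 * d : ℕ) : ℚ_[p]) = 0 := by
        push_cast; linear_combination (-2) * h
      have := Nat.cast_eq_zero.1 h1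
      omega
    apply mul_left_cancel₀ h0
    linear_combination e
  -- step 4
  have ht : ∀ m : ℕ, (((d : ℤ_[p]) * x - m : ℤ_[p]) : ℚ_[p]) = (d : ℚ_[p]) / 6 - m := fun m => by
    push_cast; rw [hx']; ring
  have step : ∀ m : ℕ, (6 * ((d : ℚ_[p]) / 6 - m) - d = 0 ∨ τ ((d : ℤ_[p]) * x - m) = 0) →
      τ ((d : ℤ_[p]) * x - m - 1) = 0 := fun m h => by
    have e := E3 ((d : ℤ_[p]) * x - m)
    rw [ht] at e
    have h1 : -3 * (6 * ((d : ℚ_[p]) / 6 - m) - (6 - d)) ≠ 0 := by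
      intro h
      have h1 : ((2 * d : ℕ) : ℚ_[p]) = ((6 + 6 * m : ℕ) : ℚ_[p]) := by
        push_cast; linear_combination (-1 / 3) * h
      have := Nat.cast_injective h1
      omega
    have h2 : D_Mid ((d : ℚ_[p]) / 6 - (m : ℚ_[p])) ≠ 0 := by
      unfold D_Mid
      refine prod_ne_zero_iff.2 fun l _ => mul_ne_zero (by norm_num) (pow_ne_zero _ fun h => ?_)
      have h1 : ((c + 6 * μ : ℕ) : ℚ_[p]) = ((6 * (p * m + l) : ℕ) : ℚ_[p]) := by
        push_cast; linear_combination 6 * h - hpd'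
      have := Nat.cast_injective h1
      omega
    have h0 := e.trans (by rcases h with h | h <;> rw [h] <;> ring : _ = (0 : ℚ_[p]))
    exact (mul_eq_zero.1 ((mul_eq_zero.1 h0).resolve_right h2)).resolve_right h1
  have all : ∀ m : ℕ, τ ((d : ℤ_[p]) * x - m - 1) = 0 := fun m => by
    induction m with
    | zero => exact step 0 (Or.inl (by push_cast; ring))
    | succ m ih =>
      refine step (m + 1) (Or.inr ?_)
      rw [← ih]; congr 1; push_cast; ring
  refine dense_sub (ψ := fun _ => 0) hτ continuous_const ((d : ℤ_[p]) * x - 1) fun m => ?_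
  rw [← all m]; congr 1; ring

end Pool.Agent.MP_54d89f_nt.Dw
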