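import Pool.Agent.MP_54d89f_nt.Dw.Core
import Pool.Agent.MP_54d89f_nt.Dw.Gam
import Pool.Agent.MP_54d89f_nt.Dw.Mid
import Pool.Agent.MP_54d89f_nt.Dw.Ev00
import Pool.Agent.MP_54d89f_nt.Dw.Ev02
import Pool.Agent.MP_54d89f_nt.Dw.Ev20
import Pool.Agent.MP_54d89f_nt.Dw.Ev22

/-! The two rows of the Frobenius matrix at t = 0. -/

namespace Pool.Agent.MP_54d89f_nt.Dw

open Finset Pool.Agent.MP_030fd4_nt

variable {p : ℕ} [Fact p.Prime]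

theorem up_one (i : Fin 3) (m m' N : ℕ) {s : ℚ_[p]} (hs : s = -1 / 6 - (m' : ℚ_[p]))
    (hN : 3 * m' < N) : M i s N = ![a0 ℚ_[p] m', 0, 0] i + 0 * (m : ℚ_[p]) := by
  obtain ⟨h0, h1, h2⟩ := fam0 wz ℚ_[p] m' N hN
  rw [hs]
  fin_cases i <;> simp [h0, h1, h2]

theorem up_five (i : Fin 3) (m m' N : ℕ) {s : ℚ_[p]} (hs : s = -5 / 6 - (m' : ℚ_[p]))
    (hN : 3 * m' + 2 < N) : M i s N = ![0, 0, a2 ℚ_[p] m'] i + 0 * (m : ℚ_[p]) := by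
  obtain ⟨h0, h1, h2⟩ := fam2 wz ℚ_[p] m' N hN
  rw [hs]
  fin_cases i <;> simp [h0, h1, h2]

theorem zero_of_fam {s : ℤ_[p] → ℚ_[p]} (hs : Continuous s) (x : ℤ_[p]) {B : ℕ → ℚ_[p]}
    (hB : ∀ m, B m ≠ 0) (h : ∀ m : ℕ, s (x - m) * B m = 0) (t : ℤ_[p]) : s t = 0 :=
  dense_sub hs continuous_const x (fun m => (mul_eq_zero.1 (h m)).resolve_right (hB m)) t

theorem rec0 (m : ℕ) : 64 * (-((1 : ℕ) : ℚ_[p]) / 6 - m) ^ 2 * a0 ℚ_[p] (m + 1) =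
    nn 0 (-((1 : ℕ) : ℚ_[p]) / 6 - m) * a0 ℚ_[p] m := by
  simpa using (recst ℚ_[p] m).2.2.1

theorem rec2 (m : ℕ) : 64 * (-((5 : ℕ) : ℚ_[p]) / 6 - m) ^ 2 * a2 ℚ_[p] (m + 1) =
    nn 2 (-((5 : ℕ) : ℚ_[p]) / 6 - m) * a2 ℚ_[p] m := by
  simpa using (recst ℚ_[p] m).2.2.2

theorem split_case (hp : 5 ≤ p) {μ : ℕ} (hμ : p = 6 * μ + 1) {x : ℤ_[p]} (hx : 6 * x = 1)
    (N : ℕ) : (∃ R : ℤ_[p], M 0 (0 : ℚ_[p]) (p * N) = GG x * M 0 (0 : ℚ_[p]) N +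
      (p : ℚ_[p]) ^ 3 * (N : ℚ_[p]) ^ 3 * f (0 : ℚ_[p]) N * R) ∧
    ∃ (s : ℚ_[p]) (R : ℤ_[p]), GG x * s = (p : ℚ_[p]) ^ 2 ∧ M 2 (0 : ℚ_[p]) (p * N) =
      s * M 2 (0 : ℚ_[p]) N + (p : ℚ_[p]) ^ 3 * (N : ℚ_[p]) ^ 3 * f (0 : ℚ_[p]) N * R := by
  obtain ⟨w, hw⟩ := exists_inv_nat (p := p) (n := 4) (not_dvd_of_lt (by omega) (by omega))
  replace hw : 4 * w = 1 := by simpa using hw
  have hq : (p : ℚ_[p]) = 6 * μ + 1 := by exact_mod_cast congrArg (Nat.cast (R := ℚ_[p])) hμ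
  have u1 : ∀ (i : Fin 3) (m : ℕ), M i ((p : ℚ_[p]) * (-1 / 6 - m)) (p * (3 * m + 1)) =
      ![a0 ℚ_[p] (p * m + μ), 0, 0] i + 0 * (m : ℚ_[p]) := fun i m =>
    up_one i m _ _ (by push_cast; linear_combination (-1 / 6) * hq) (by nlinarith)
  have u5 : ∀ (i : Fin 3) (m : ℕ), M i ((p : ℚ_[p]) * (-5 / 6 - m)) (p * (3 * m + 3)) =
      ![0, 0, a2 ℚ_[p] (p * m + 5 * μ)] i + 0 * (m : ℚ_[p]) := fun i m =>
    up_five i m _ _ (by push_cast; linear_combination (-5 / 6) * hq) (by nlinarith)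
  constructor
  · obtain ⟨σ, hσ, h0, h1, h2, h3⟩ := row hp 0 hx hw
    simp only [u1, u5] at h1 h2
    have z2 := zero_of_fam (hσ 2) (-5 * x) (fun m => (recst ℚ_[p] m).2.1)
      (fun m => by simpa using h2 m)
    have g1 : ∀ m : ℕ, σ 0 (-x - m) * a0 ℚ_[p] m = a0 ℚ_[p] (p * m + μ) :=
      fun m => by simpa using h1 m
    have z1 := mid hp (fam3 wz ℚ_[p]) 0 0 1 1 μ x w (a0 ℚ_[p]) (a0 ℚ_[p]) (σ 0) (σ 1)
      (Or.inl rfl) (Or.inl rfl) (by omega) hx hw (by simp) (by simp) rec0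
      (fun m => ⟨(recst ℚ_[p] m).1, rec0 m⟩) (hσ 0) (hσ 1) (fun m => by simpa using g1 m)
      (fun m => by rw [h3, z2]; ring)
    obtain ⟨R, hR⟩ := h0 N
    refine ⟨R, ?_⟩
    rw [hR, z1, z2, ev00 hp (gam hp) μ x (σ 0) hμ hx (hσ 0) g1]; ring
  · obtain ⟨σ, hσ, h0, h1, h2, h3⟩ := row hp 2 hx hw
    simp only [u1, u5] at h1 h2
    have z0 := zero_of_fam (hσ 0) (-x) (fun m => (recst ℚ_[p] m).1)
      (fun m => by simpa using h1 m)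
    have g1 : ∀ m : ℕ, σ 2 (-5 * x - m) * a2 ℚ_[p] m = a2 ℚ_[p] (p * m + 5 * μ) :=
      fun m => by simpa using h2 m
    have z1 := mid hp (fam3 wz ℚ_[p]) 2 2 5 5 (5 * μ) x w (a2 ℚ_[p]) (a2 ℚ_[p]) (σ 2) (σ 1)
      (Or.inr rfl) (Or.inr rfl) (by omega) hx hw (by simp) (by simp) rec2
      (fun m => ⟨(recst ℚ_[p] m).2.1, rec2 m⟩) (hσ 2) (hσ 1) (fun m => by simpa using g1 m)
      (fun m => by rw [h3, z0]; ring)
    obtain ⟨R, hR⟩ := h0 N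
    refine ⟨σ 2 0, R, ev22 hp (gam hp) μ x (σ 2) hμ hx (hσ 2) g1, ?_⟩
    rw [hR, z1, z0]; ring

theorem inert_case (hp : 5 ≤ p) {μ : ℕ} (hμ : p = 6 * μ + 5) {x : ℤ_[p]} (hx : 6 * x = 1)
    (N : ℕ) : (∃ (s : ℚ_[p]) (R : ℤ_[p]), 18 * s = -((p : ℚ_[p]) ^ 2 * GG x) ∧
      M 0 (0 : ℚ_[p]) (p * N) =
        s * M 2 (0 : ℚ_[p]) N + (p : ℚ_[p]) ^ 3 * (N : ℚ_[p]) ^ 3 * f (0 : ℚ_[p]) N * R) ∧
    ∃ (s : ℚ_[p]) (R : ℤ_[p]), GG x * s = -18 ∧ M 2 (0 : ℚ_[p]) (p * N) =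
      s * M 0 (0 : ℚ_[p]) N + (p : ℚ_[p]) ^ 3 * (N : ℚ_[p]) ^ 3 * f (0 : ℚ_[p]) N * R := by
  obtain ⟨w, hw⟩ := exists_inv_nat (p := p) (n := 4) (not_dvd_of_lt (by omega) (by omega))
  replace hw : 4 * w = 1 := by simpa using hw
  have hq : (p : ℚ_[p]) = 6 * μ + 5 := by exact_mod_cast congrArg (Nat.cast (R := ℚ_[p])) hμ
  have u1 : ∀ (i : Fin 3) (m : ℕ), M i ((p : ℚ_[p]) * (-1 / 6 - m)) (p * (3 * m + 1)) =
      ![0, 0, a2 ℚ_[p] (p * m + μ)] i + 0 * (m : ℚ_[p]) := fun i m =>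
    up_five i m _ _ (by push_cast; linear_combination (-1 / 6) * hq) (by nlinarith)
  have u5 : ∀ (i : Fin 3) (m : ℕ), M i ((p : ℚ_[p]) * (-5 / 6 - m)) (p * (3 * m + 3)) =
      ![a0 ℚ_[p] (p * m + (5 * μ + 4)), 0, 0] i + 0 * (m : ℚ_[p]) := fun i m =>
    up_one i m _ _ (by push_cast; linear_combination (-5 / 6) * hq) (by nlinarith)
  constructor
  · obtain ⟨σ, hσ, h0, h1, h2, h3⟩ := row hp 0 hx hw
    simp only [u1, u5] at h1 h2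
    have z0 := zero_of_fam (hσ 0) (-x) (fun m => (recst ℚ_[p] m).1)
      (fun m => by simpa using h1 m)
    have g1 : ∀ m : ℕ, σ 2 (-5 * x - m) * a2 ℚ_[p] m = a0 ℚ_[p] (p * m + (5 * μ + 4)) :=
      fun m => by simpa using h2 m
    have z1 := mid hp (fam3 wz ℚ_[p]) 0 2 1 5 (5 * μ + 4) x w (a0 ℚ_[p]) (a2 ℚ_[p]) (σ 2) (σ 1)
      (Or.inl rfl) (Or.inr rfl) (by omega) hx hw (by simp) (by simp) rec0
      (fun m => ⟨(recst ℚ_[p] m).2.1, rec2 m⟩) (hσ 2) (hσ 1) (fun m => by simpa using g1 m)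
      (fun m => by rw [h3, z0]; ring)
    obtain ⟨R, hR⟩ := h0 N
    refine ⟨σ 2 0, R, ev02 hp (gam hp) μ x (σ 2) hμ hx (hσ 2) g1, ?_⟩
    rw [hR, z1, z0]; ring
  · obtain ⟨σ, hσ, h0, h1, h2, h3⟩ := row hp 2 hx hw
    simp only [u1, u5] at h1 h2
    have z2 := zero_of_fam (hσ 2) (-5 * x) (fun m => (recst ℚ_[p] m).2.1)
      (fun m => by simpa using h2 m)
    have g1 : ∀ m : ℕ, σ 0 (-x - m) * a0 ℚ_[p] m = a2 ℚ_[p] (p * m + μ) :=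
      fun m => by simpa using h1 m
    have z1 := mid hp (fam3 wz ℚ_[p]) 2 0 5 1 μ x w (a2 ℚ_[p]) (a0 ℚ_[p]) (σ 0) (σ 1)
      (Or.inr rfl) (Or.inl rfl) (by omega) hx hw (by simp) (by simp) rec2
      (fun m => ⟨(recst ℚ_[p] m).1, rec0 m⟩) (hσ 0) (hσ 1) (fun m => by simpa using g1 m)
      (fun m => by rw [h3, z2]; ring)
    obtain ⟨R, hR⟩ := h0 N
    refine ⟨σ 0 0, R, ev20 hp (gam hp) μ x (σ 0) hμ hx (hσ 0) g1, ?_⟩
    rw [hR, z1, z2]; ring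

theorem rising_one (K : Type*) [Field K] (k : ℕ) : rising (1 : K) k = (k.factorial : K) := by
  induction k with
  | zero => simp [rising]
  | succ k ih =>
    rw [Nat.factorial_succ]
    simp only [rising, prod_range_succ] at ih ⊢
    rw [ih]; push_cast; ring

theorem f_at_zero (k : ℕ) :
    f (0 : ℚ_[p]) k = (((2 * k).choose k : ℕ) : ℚ_[p]) ^ 3 / 16 ^ k := by
  have h1 : ((k.factorial : ℚ_[p])) ≠ 0 := by exact_mod_cast k.factorial_ne_zero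
  have h2 := fact_rising (K := ℚ_[p]) k
  have h3 : (((2 * k).choose k : ℕ) : ℚ_[p]) * k.factorial * k.factorial =
      ((2 * k).factorial : ℚ_[p]) := by
    have := Nat.choose_mul_factorial_mul_factorial (show k ≤ 2 * k by omega)
    rw [show 2 * k - k = k by omega] at this
    exact_mod_cast this
  have h4 : rising (1 / 2 : ℚ_[p]) k * 4 ^ k = (((2 * k).choose k : ℕ) : ℚ_[p]) * k.factorial := by
    apply mul_left_cancel₀ h1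
    linear_combination h2 - h3
  have h5 : (4 : ℚ_[p]) ^ k ≠ 0 := pow_ne_zero _ (by norm_num)
  have h6 : (16 : ℚ_[p]) ^ k = 4 ^ k * 4 ^ k := by rw [← mul_pow]; norm_num
  have h7 : rising (1 / 2 : ℚ_[p]) k =
      (((2 * k).choose k : ℕ) : ℚ_[p]) * k.factorial / 4 ^ k := by
    rw [eq_div_iff h5, h4]
  simp only [f, mul_zero, add_zero, rising_one, h6, h7]
  field_simp

theorem exists_unit (hp : 5 ≤ p) (x : ℤ_[p]) : ∃ u : ℤ_[p], IsUnit u ∧ (u : ℚ_[p]) = GG x ∧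
    u = (-1) ^ ((p + 1) / 2) * gammaP p x ^ 2 * gammaP p (2 * x) ^ 2 := by
  have hu : ∀ y : ℤ_[p], IsUnit (gammaP p y) := by
    intro y
    obtain ⟨z, hz⟩ := exists_digit (-y)
    have h := (gam hp).2 y (-z) _ (PadicInt.zmodRepr_lt_p (-y)) (by linear_combination -hz)
    have h' : gammaP p y * gammaP p (1 - y) = (-1) ^ ((-y).zmodRepr + 1) := by
      apply Subtype.ext
      simpa using h
    exact isUnit_of_mul_isUnit_left (h' ▸ (isUnit_one.neg.pow _))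
  refine ⟨_, ((isUnit_one.neg.pow _).mul ((hu x).pow 2)).mul ((hu (2 * x)).pow 2), ?_, rfl⟩
  simp [GG]

end Pool.Agent.MP_54d89f_nt.Dw
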