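import Pool.Agent.MP_54d89f_nt.Dw.Gk

namespace Pool.Agent.MP_54d89f_nt.Dw

open Finset Pool.Agent.MP_030fd4_nt

variable {p : Nat} [Fact p.Prime]

/-- The Teichmuller character with values in the p-adic complex numbers. -/
noncomputable def chi_Gau (τ : ZMod p →*₀ ℤ_[p]) : MulChar (ZMod p) ℂ_[p] where
  toFun y := algebraMap ℚ_[p] ℂ_[p] (τ y : ℚ_[p])
  map_one' := by simp
  map_mul' y y' := by simp
  map_nonunit' y hy := by
    have : y = 0 := by simpa using hy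
    simp [this]

theorem chi_apply_Gau (τ : ZMod p →*₀ ℤ_[p]) (y : ZMod p) :
    chi_Gau τ y = algebraMap ℚ_[p] ℂ_[p] (τ y : ℚ_[p]) := rfl

theorem chi_one_Gau (τ : ZMod p →*₀ ℤ_[p]) (hτ : ∀ y, PadicInt.toZMod (τ y) = y) (s : ℕ) :
    chi_Gau τ ^ s = 1 ↔ (p - 1) ∣ s := by
  constructor
  · intro h
    obtain ⟨g, hg⟩ := IsCyclic.exists_ofOrder_eq_natCard (α := (ZMod p)ˣ)
    have h1 : (chi_Gau τ ^ s) (g : ZMod p) = 1 := by rw [h, MulChar.one_apply_coe]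
    rw [MulChar.pow_apply_coe, ← map_pow, chi_apply_Gau,
      map_eq_one_iff _ (algebraMap ℚ_[p] ℂ_[p]).injective] at h1
    have h2 : τ ((g : ZMod p) ^ s) = 1 := Subtype.ext h1
    have h3 := hτ ((g : ZMod p) ^ s)
    rw [h2, map_one] at h3
    have h4 : g ^ s = 1 := Units.ext (by simpa using h3.symm)
    have h5 := orderOf_dvd_of_pow_eq_one h4
    rwa [hg, Nat.card_eq_fintype_card, ZMod.card_units] at h5
  · rintro ⟨c, rfl⟩
    rw [pow_mul, ← ZMod.card_units p, MulChar.pow_card_eq_one, one_pow]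

theorem sum_Gau (τ : ZMod p →*₀ ℤ_[p]) (hτ : ∀ y, PadicInt.toZMod (τ y) = y) {s : ℕ}
    (hs : s ≠ 0) :
    ∑ y, chi_Gau τ y ^ s = if (p - 1) ∣ s then ((p - 1 : ℕ) : ℂ_[p]) else 0 := by
  simp only [← MulChar.pow_apply' _ hs]
  split_ifs with h
  · rw [(chi_one_Gau τ hτ s).2 h, MulChar.sum_one_eq_card_units, ZMod.card_units]
  · exact MulChar.sum_eq_zero_of_ne_one fun h' => h ((chi_one_Gau τ hτ s).1 h')

theorem gs_Gau (hr : RobSt p) (τ : ZMod p →*₀ ℤ_[p]) (hτ : ∀ y, PadicInt.toZMod (τ y) = y)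
    {w : ℂ_[p]} (hw : w ^ (p - 1) = -(p : ℂ_[p])) (ψ : AddChar (ZMod p) ℂ_[p])
    (hψ : ∀ y, HasSum (fun n : ℕ => algebraMap ℚ_[p] ℂ_[p] (lam p n) * w ^ n *
      chi_Gau τ y ^ n) (ψ y)) {a b : ℕ} (hab : a + b = p - 1) (hb : b ≠ 0) (z : ℤ_[p])
    (hz : ((p : ℤ_[p]) - 1) * z = a) :
    gaussSum (chi_Gau τ ^ b) ψ = -(w ^ a * algebraMap ℚ_[p] ℂ_[p] (gammaP p z : ℚ_[p])) := by
  have hp : p.Prime := Fact.out
  have hp2 := hp.two_le
  have h1 : HasSum (fun n : ℕ => ∑ y, chi_Gau τ y ^ b *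
      (algebraMap ℚ_[p] ℂ_[p] (lam p n) * w ^ n * chi_Gau τ y ^ n))
      (gaussSum (chi_Gau τ ^ b) ψ) := by
    simp only [gaussSum, MulChar.pow_apply' _ hb]
    exact hasSum_sum fun y _ => (hψ y).mul_left _
  have h2 : ∀ n : ℕ, ∑ y, chi_Gau τ y ^ b *
      (algebraMap ℚ_[p] ℂ_[p] (lam p n) * w ^ n * chi_Gau τ y ^ n) =
      algebraMap ℚ_[p] ℂ_[p] (lam p n) * w ^ n *
        if (p - 1) ∣ n + b then ((p - 1 : ℕ) : ℂ_[p]) else 0 := by
    intro n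
    rw [← sum_Gau τ hτ (s := n + b) (by omega), mul_sum]
    exact sum_congr rfl fun y _ => by ring
  simp only [h2] at h1
  have hinj : Function.Injective fun j : ℕ => a + (p - 1) * j := fun j j' h =>
    Nat.eq_of_mul_eq_mul_left (by omega : 0 < p - 1) (Nat.add_left_cancel h)
  have h3 := (hinj.hasSum_iff (f := fun n : ℕ => algebraMap ℚ_[p] ℂ_[p] (lam p n) * w ^ n *
      if (p - 1) ∣ n + b then ((p - 1 : ℕ) : ℂ_[p]) else 0) (fun n hn => by
    rw [if_neg, mul_zero]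
    rintro ⟨c, hc⟩
    refine hn ⟨c - 1, ?_⟩
    obtain _ | c := c
    · omega
    · rw [mul_add, mul_one] at hc
      simp only [Nat.add_sub_cancel]
      omega)).2 h1
  have h4 := ((hr a z (by omega) hz).map (algebraMap ℚ_[p] ℂ_[p])
    (continuous_algebraMap _ _)).mul_left (w ^ a * ((p - 1 : ℕ) : ℂ_[p]))
  have h5 : gaussSum (chi_Gau τ ^ b) ψ = w ^ a * ((p - 1 : ℕ) : ℂ_[p]) *
      algebraMap ℚ_[p] ℂ_[p] ((gammaP p z : ℚ_[p]) / (1 - p)) := by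
    refine h3.unique (h4.congr_fun fun j => ?_)
    have hd : (p - 1) ∣ a + (p - 1) * j + b := ⟨j + 1, by rw [mul_add, mul_one]; omega⟩
    simp only [Function.comp_apply, if_pos hd, map_mul, map_pow, map_neg, map_natCast]
    rw [pow_add, pow_mul, hw]
    ring
  have h6 : (1 : ℂ_[p]) - p ≠ 0 := by
    rw [sub_ne_zero]
    exact_mod_cast hp.one_lt.ne
  rw [h5, Nat.cast_sub hp.one_le, map_div₀, map_sub, map_one, map_natCast]
  field_simp
  push_cast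
  ring

theorem gau (hr : RobSt p) (ht : ThSt p) : GauSt p := by
  intro μ x τ hμ hx hτ
  have hp : p.Prime := Fact.out
  have hp2 := hp.two_le
  have hμ0 : μ ≠ 0 := by omega
  obtain ⟨w, hw⟩ := IsAlgClosed.exists_pow_nat_eq (-(p : ℂ_[p])) (n := p - 1) (by omega)
  have hw0 : w ≠ 0 := by
    rintro rfl
    rw [zero_pow (by omega), eq_comm, neg_eq_zero] at hw
    exact hp.ne_zero (by exact_mod_cast hw)
  obtain ⟨Θ, h1, h2, h3⟩ := ht w hw
  have hker : ∀ z : ℤ_[p], PadicInt.toZMod z = 0 ↔ (p : ℤ_[p]) ∣ z := by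
    intro z
    rw [← RingHom.mem_ker, PadicInt.ker_toZMod, PadicInt.maximalIdeal_eq_span_p,
      Ideal.mem_span_singleton]
  have hT : ∀ y, τ y ^ p = τ y := fun y => by rw [← map_pow, ZMod.pow_card]
  let ψ : AddChar (ZMod p) ℂ_[p] :=
    { toFun := fun y => Θ (τ y)
      map_zero_eq_one' := by simpa using h2
      map_add_eq_mul' := fun y y' => (h3 _ _ _ (hT y) (hT y') (hT (y + y'))
        ((hker _).1 (by simp [hτ]))).symm }
  have hψ : ∀ y, HasSum (fun n : ℕ => algebraMap ℚ_[p] ℂ_[p] (lam p n) * w ^ n *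
      chi_Gau τ y ^ n) (ψ y) := fun y => h1 (τ y)
  have hpc : (p : ℤ_[p]) - 1 = 6 * (μ : ℤ_[p]) := by
    have : ((p : ℕ) : ℤ_[p]) = ((6 * μ + 1 : ℕ) : ℤ_[p]) := congrArg _ hμ
    rw [this]
    push_cast
    ring
  have g2 := gs_Gau hr τ hτ hw ψ hψ (a := 2 * μ) (b := 4 * μ) (by omega) (by omega) (2 * x)
    (by rw [hpc]; push_cast; linear_combination (2 * (μ : ℤ_[p])) * hx)
  have g3 := gs_Gau hr τ hτ hw ψ hψ (a := 3 * μ) (b := 3 * μ) (by omega) (by omega) (3 * x)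
    (by rw [hpc]; push_cast; linear_combination (3 * (μ : ℤ_[p])) * hx)
  have g5 := gs_Gau hr τ hτ hw ψ hψ (a := 5 * μ) (b := μ) (by omega) hμ0 (5 * x)
    (by rw [hpc]; push_cast; linear_combination (5 * (μ : ℤ_[p])) * hx)
  have e : chi_Gau τ ^ (4 * μ) * chi_Gau τ ^ (3 * μ) = chi_Gau τ ^ μ := by
    have h6 : chi_Gau τ ^ (6 * μ) = 1 := (chi_one_Gau τ hτ _).2 ⟨1, by omega⟩
    rw [← pow_add, show 4 * μ + 3 * μ = μ + 6 * μ by ring, pow_add, h6, mul_one]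
  have hne : chi_Gau τ ^ (4 * μ) * chi_Gau τ ^ (3 * μ) ≠ 1 := by
    rw [e]
    intro h
    have := Nat.le_of_dvd (Nat.pos_of_ne_zero hμ0) ((chi_one_Gau τ hτ _).1 h)
    omega
  have hJ := jacobiSum_mul_nontrivial hne ψ
  have eJ : jacobiSum (chi_Gau τ ^ (4 * μ)) (chi_Gau τ ^ (3 * μ)) =
      algebraMap ℚ_[p] ℂ_[p] (Jac τ μ) := by
    rw [jacobiSum, Jac, map_sum]
    refine sum_congr rfl fun y _ => ?_
    rw [MulChar.pow_apply' _ (by omega), MulChar.pow_apply' _ (by omega), map_mul, map_pow,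
      map_pow, chi_apply_Gau, chi_apply_Gau]
  rw [e, eJ, g2, g3, g5] at hJ
  apply (algebraMap ℚ_[p] ℂ_[p]).injective
  rw [map_mul, map_neg, map_mul]
  apply mul_left_cancel₀ (pow_ne_zero (5 * μ) hw0)
  have e5 : w ^ (5 * μ) = w ^ (2 * μ) * w ^ (3 * μ) := by rw [← pow_add]; congr 1; ring
  rw [e5] at hJ ⊢
  linear_combination -hJ

end Pool.Agent.MP_54d89f_nt.Dw
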