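import Pool.Agent.MP_54d89f_nt.Dw.St

/-! Statements of the steps of the Gross-Koblitz formula (proof of Robert) for one Jacobi sum. -/

namespace Pool.Agent.MP_54d89f_nt.Dw

open Finset PowerSeries Pool.Agent.MP_030fd4_nt

/-- The series exp (a T + b T^p). -/
noncomputable def Ex (p : ℕ) [hp : Fact p.Prime] {K : Type*} [Field K] [CharZero K] (a b : K) :
    PowerSeries K :=
  rescale a (exp K) * expand p hp.out.ne_zero (rescale b (exp K))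

theorem Ex_mul (p : ℕ) [Fact p.Prime] {K : Type*} [Field K] [CharZero K] (a b a' b' : K) :
    Ex p a b * Ex p a' b' = Ex p (a + a') (b + b') := by
  simp only [Ex, ← exp_mul_exp_eq_exp_add, map_mul]
  ring

theorem Ex_zero (p : ℕ) [Fact p.Prime] {K : Type*} [Field K] [CharZero K] :
    Ex p (0 : K) 0 = 1 := by
  simp [Ex, rescale_zero]

/-- The coefficients of exp (T + T^p / p). -/
noncomputable def lam (p : ℕ) [Fact p.Prime] (n : ℕ) : ℚ_[p] :=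
  coeff n (Ex p (1 : ℚ_[p]) (p : ℚ_[p])⁻¹)

/-- The Jacobi sum of a cubic and the quadratic character. -/
noncomputable def Jac {p : ℕ} [Fact p.Prime] (τ : ZMod p →*₀ ℤ_[p]) (μ : ℕ) : ℚ_[p] :=
  ∑ y : ZMod p, (τ y : ℚ_[p]) ^ (4 * μ) * (τ (1 - y) : ℚ_[p]) ^ (3 * μ)

def TeichSt (p : ℕ) [Fact p.Prime] : Prop :=
  ∃ τ : ZMod p →*₀ ℤ_[p], ∀ y, PadicInt.toZMod (τ y) = y

def LamSt (p : ℕ) [Fact p.Prime] : Prop :=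
  (∀ n : ℕ, ((n + p : ℕ) : ℚ_[p]) * lam p (n + p) = lam p (n + p - 1) + lam p n) ∧
  ∀ a m : ℕ, a < p →
    ∑ k ∈ range (m + 1), lam p (a + p * k) * (-(p : ℚ_[p])) ^ k * ff (m : ℚ_[p]) k =
      (gammaP p (-(a : ℤ_[p]) - p * m) : ℚ_[p])

def BndSt (p : ℕ) [Fact p.Prime] : Prop :=
  ∀ (E : Eps p) (n : ℕ), ‖lam p n‖ * E.e ^ (2 * (n / p)) ≤ 1

def MahSt (p : ℕ) [Fact p.Prime] : Prop :=
  ∀ (a : ℕ) (y : ℤ_[p]), a < p →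
    HasSum (fun k : ℕ => lam p (a + p * k) * (-(p : ℚ_[p])) ^ k * ff (y : ℚ_[p]) k)
      (gammaP p (-(a : ℤ_[p]) - p * y) : ℚ_[p])

def RobSt (p : ℕ) [Fact p.Prime] : Prop :=
  ∀ (a : ℕ) (z : ℤ_[p]), a < p → ((p : ℤ_[p]) - 1) * z = a →
    HasSum (fun j : ℕ => lam p (a + (p - 1) * j) * (-(p : ℚ_[p])) ^ j)
      ((gammaP p z : ℚ_[p]) / (1 - p))

def ThSt (p : ℕ) [Fact p.Prime] : Prop :=
  ∀ ϖ : ℂ_[p], ϖ ^ (p - 1) = -(p : ℂ_[p]) → ∃ Θ : ℤ_[p] → ℂ_[p],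
    (∀ z : ℤ_[p], HasSum (fun n : ℕ => algebraMap ℚ_[p] ℂ_[p] (lam p n) * ϖ ^ n *
      algebraMap ℚ_[p] ℂ_[p] (z : ℚ_[p]) ^ n) (Θ z)) ∧ Θ 0 = 1 ∧
    ∀ z z' z'' : ℤ_[p], z ^ p = z → z' ^ p = z' → z'' ^ p = z'' →
      (p : ℤ_[p]) ∣ z + z' - z'' → Θ z * Θ z' = Θ z''

def GauSt (p : ℕ) [Fact p.Prime] : Prop :=
  ∀ (μ : ℕ) (x : ℤ_[p]) (τ : ZMod p →*₀ ℤ_[p]), p = 6 * μ + 1 → 6 * x = 1 →
    (∀ y, PadicInt.toZMod (τ y) = y) →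
      Jac τ μ * (gammaP p (5 * x) : ℚ_[p]) =
        -((gammaP p (2 * x) : ℚ_[p]) * (gammaP p (3 * x) : ℚ_[p]))

def JacSt (p : ℕ) [Fact p.Prime] : Prop :=
  ∀ (μ : ℕ) (τ : ZMod p →*₀ ℤ_[p]), p = 6 * μ + 1 → (∀ y, PadicInt.toZMod (τ y) = y) →
    ∃ a b : ℤ, a ^ 2 + 3 * b ^ 2 = p ∧ Jac τ μ ^ 2 - 2 * a * Jac τ μ + p = 0

def RootSt (p : ℕ) [Fact p.Prime] : Prop :=
  ∀ (μ : ℕ) (x : ℤ_[p]) (a b : ℤ), p = 6 * μ + 1 → 6 * x = 1 → a ^ 2 + 3 * b ^ 2 = p →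
    GG x ^ 2 - (4 * (a : ℚ_[p]) ^ 2 - 2 * p) * GG x + (p : ℚ_[p]) ^ 2 = 0

end Pool.Agent.MP_54d89f_nt.Dw
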