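import Pool.Agent.MP_54d89f_nt.Dw.Gk

namespace Pool.Agent.MP_54d89f_nt.Dw

open Finset Pool.Agent.MP_030fd4_nt

theorem sum_JacI {F K : Type} [Field K] (ω : K) (s : Finset F) (t t' : F → K)
    (h : ∀ y, ∃ c d : ℤ, t y = 2 * (c + d * ω) ∧ t' y = 2 * (c + d * ω ^ 2)) :
    ∃ c d : ℤ, ∑ y ∈ s, t y = 2 * (c + d * ω) ∧ ∑ y ∈ s, t' y = 2 * (c + d * ω ^ 2) := by
  classical
  induction s using Finset.induction_on with
  | empty => exact ⟨0, 0, by simp, by simp⟩
  | insert y s hy ih =>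
    obtain ⟨c, d, e1, e2⟩ := ih
    obtain ⟨c', d', e3, e4⟩ := h y
    refine ⟨c' + c, d' + d, ?_, ?_⟩
    · rw [sum_insert hy, e1, e3]; push_cast; ring
    · rw [sum_insert hy, e2, e4]; push_cast; ring

theorem gen_JacI {F K : Type} [Field F] [Fintype F] [Field K] [CharZero K] (χ φ : MulChar F K)
    (ω : K) (hω : ω ^ 2 + ω + 1 = 0) (h3 : ∀ y, y ≠ 0 → χ y ^ 3 = 1)
    (h2 : ∀ y, y ≠ 0 → φ y ^ 2 = 1) (hχ : χ ≠ 1) (hφ : φ ≠ 1) (hχφ : χ * φ ≠ 1) :
    ∃ a b : ℤ, a ^ 2 + 3 * b ^ 2 = Fintype.card F ∧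
      jacobiSum χ φ ^ 2 - 2 * a * jacobiSum χ φ + Fintype.card F = 0 := by
  classical
  have hc : ringChar K ≠ ringChar F := by
    rw [ringChar.eq_zero]
    exact (CharP.ringChar_ne_zero_of_finite F).symm
  have hJ := jacobiSum_mul_jacobiSum_inv hc hχ hφ hχφ
  have hω3 : ω ^ 3 = 1 := by linear_combination (ω - 1) * hω
  obtain ⟨c, d, e1, e2⟩ := sum_JacI ω univ
    (fun y => χ y * φ (1 - y) - χ y + if y = 1 then 1 else 0)
    (fun y => χ⁻¹ y * φ⁻¹ (1 - y) - χ⁻¹ y + if y = 1 then 1 else 0) fun y => by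
      by_cases y1 : y = 1
      · exact ⟨0, 0, by simp [y1, MulChar.map_zero], by simp [y1, MulChar.map_zero]⟩
      by_cases y0 : y = 0
      · exact ⟨0, 0, by simp [y0], by simp [y0]⟩
      have a3 := h3 y y0
      have a2 := h2 (1 - y) (sub_ne_zero.2 (Ne.symm y1))
      have i3 : χ⁻¹ y = χ y ^ 2 := by
        rw [MulChar.inv_apply_eq_inv']
        exact inv_eq_of_mul_eq_one_right (by linear_combination a3)
      have i2 : φ⁻¹ (1 - y) = φ (1 - y) := by
        rw [MulChar.inv_apply_eq_inv']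
        exact inv_eq_of_mul_eq_one_right (by linear_combination a2)
      simp only [if_neg y1, i3, i2]
      rcases sq_eq_one_iff.1 a2 with b | b
      · exact ⟨0, 0, by simp [b], by simp [b]⟩
      have a4 : (χ y - 1) * ((χ y - ω) * (χ y - ω ^ 2)) = 0 := by
        linear_combination a3 + (χ y - χ y ^ 2) * hω + (χ y - 1) * hω3
      rcases mul_eq_zero.1 a4 with u | u
      · exact ⟨-1, 0, by rw [b, sub_eq_zero.1 u]; push_cast; ring,
          by rw [b, sub_eq_zero.1 u]; push_cast; ring⟩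
      rcases mul_eq_zero.1 u with u | u
      · exact ⟨0, -1, by rw [b, sub_eq_zero.1 u]; push_cast; ring,
          by rw [b, sub_eq_zero.1 u]; push_cast; ring⟩
      · exact ⟨1, 1, by rw [b, sub_eq_zero.1 u]; push_cast; linear_combination (-2) * hω,
          by rw [b, sub_eq_zero.1 u]; push_cast; linear_combination (-2) * hω - 2 * ω * hω3⟩
  rw [sum_add_distrib, sum_sub_distrib, MulChar.sum_eq_zero_of_ne_one hχ, sum_ite_eq',
    if_pos (mem_univ _)] at e1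
  rw [sum_add_distrib, sum_sub_distrib, MulChar.sum_eq_zero_of_ne_one (inv_ne_one.2 hχ),
    sum_ite_eq', if_pos (mem_univ _)] at e2
  have f1 : jacobiSum χ φ = -1 + 2 * (c + d * ω) := by
    rw [jacobiSum]; linear_combination e1
  have f2 : jacobiSum χ⁻¹ φ⁻¹ = -1 + 2 * (c + d * ω ^ 2) := by
    rw [jacobiSum]; linear_combination e2
  rw [f2] at hJ
  refine ⟨-1 + 2 * c - d, d, ?_, ?_⟩
  · apply Int.cast_injective (α := K)
    rw [f1] at hJ
    push_cast
    linear_combination hJ - 2 * d * (2 * c - 1) * hω - 4 * d ^ 2 * hω3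
  · push_cast
    linear_combination -hJ + jacobiSum χ φ * f1 + 2 * d * jacobiSum χ φ * hω

variable {p : Nat} [Fact p.Prime]

/-- powers of the Teichmueller character -/
noncomputable def ch_JacI (τ : ZMod p →*₀ ℤ_[p]) (s : ℕ) (hs : s ≠ 0) : MulChar (ZMod p) ℚ_[p] where
  toFun y := (τ y : ℚ_[p]) ^ s
  map_one' := by simp
  map_mul' x y := by simp [mul_pow]
  map_nonunit' a ha := by
    have : a = 0 := by simpa using ha
    simp [this, hs]

theorem ch_apply_JacI (τ : ZMod p →*₀ ℤ_[p]) (s : ℕ) (hs : s ≠ 0) (y : ZMod p) :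
    ch_JacI τ s hs y = (τ y : ℚ_[p]) ^ s := rfl

theorem jacI : JacSt p := by
  intro μ τ hp hτ
  have hμ : 0 < μ := by
    have := (Fact.out : p.Prime).two_le
    omega
  have h6 : ∀ y : ZMod p, y ≠ 0 → (τ y : ℚ_[p]) ^ (6 * μ) = 1 := fun y hy => by
    have h1 := ZMod.pow_card_sub_one_eq_one hy
    rw [show p - 1 = 6 * μ by omega] at h1
    rw [← PadicInt.coe_pow, ← map_pow, h1, map_one, PadicInt.coe_one]
  obtain ⟨g, hg⟩ := IsCyclic.exists_ofOrder_eq_natCard (α := (ZMod p)ˣ)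
  rw [Nat.card_eq_fintype_card, ZMod.card_units, show p - 1 = 6 * μ by omega] at hg
  have hk : ∀ k : ℕ, (τ g : ℚ_[p]) ^ (k * μ) = 1 → 6 ∣ k := fun k h => by
    have h1 : τ ((g : ZMod p) ^ (k * μ)) = 1 := by
      rw [map_pow]
      exact Subtype.ext (by rw [PadicInt.coe_pow, h, PadicInt.coe_one])
    have h2 := hτ ((g : ZMod p) ^ (k * μ))
    rw [h1, map_one] at h2
    have h3 : g ^ (k * μ) = 1 := Units.ext (by rw [Units.val_pow_eq_pow_val, ← h2, Units.val_one])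
    have h4 := orderOf_dvd_of_pow_eq_one h3
    rw [hg] at h4
    exact Nat.dvd_of_mul_dvd_mul_right hμ h4
  have hω3 : ((τ g : ℚ_[p]) ^ (2 * μ)) ^ 3 = 1 := by
    rw [← pow_mul, show 2 * μ * 3 = 6 * μ by ring, h6 _ g.ne_zero]
  have hω1 : (τ g : ℚ_[p]) ^ (2 * μ) - 1 ≠ 0 := fun h =>
    absurd (hk 2 (sub_eq_zero.1 h)) (by norm_num)
  obtain ⟨a, b, e1, e2⟩ := gen_JacI (ch_JacI τ (4 * μ) (by omega)) (ch_JacI τ (3 * μ) (by omega))
    ((τ g : ℚ_[p]) ^ (2 * μ)) (mul_left_cancel₀ hω1 (by linear_combination hω3))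
    (fun y hy => by
      rw [ch_apply_JacI, ← pow_mul, show 4 * μ * 3 = 6 * μ * 2 by ring, pow_mul, h6 y hy, one_pow])
    (fun y hy => by rw [ch_apply_JacI, ← pow_mul, show 3 * μ * 2 = 6 * μ by ring, h6 y hy])
    (MulChar.ne_one_iff.2 ⟨g, fun h => absurd (hk 4 h) (by norm_num)⟩)
    (MulChar.ne_one_iff.2 ⟨g, fun h => absurd (hk 3 h) (by norm_num)⟩)
    (MulChar.ne_one_iff.2 ⟨g, fun h => absurd (hk 7 (by
      rw [MulChar.mul_apply, ch_apply_JacI, ch_apply_JacI, ← pow_add] at h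
      rw [← h]
      congr 1
      ring)) (by norm_num)⟩)
  rw [ZMod.card] at e1 e2
  exact ⟨a, b, e1, e2⟩

end Pool.Agent.MP_54d89f_nt.Dw
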