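import Pool.Agent.MP_54d89f_nt.Dw.Gk

/-! The recursion and the interpolation property of the coefficients. -/

namespace Pool.Agent.MP_54d89f_nt.Dw

open Finset PowerSeries Pool.Agent.MP_030fd4_nt

variable {p : Nat} [Fact p.Prime]

theorem coeff_re_Lam (b : ℚ_[p]) (k : ℕ) :
    coeff k (rescale b (exp ℚ_[p])) = b ^ k / (k.factorial : ℚ_[p]) := by
  rw [coeff_rescale, coeff_exp]
  simp [div_eq_mul_inv]

theorem der_Lam : d⁄dX ℚ_[p] (expand p (Fact.out : p.Prime).ne_zero (rescale (p : ℚ_[p])⁻¹ (exp ℚ_[p]))) =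
    X ^ (p - 1) * expand p (Fact.out : p.Prime).ne_zero (rescale (p : ℚ_[p])⁻¹ (exp ℚ_[p])) := by
  have p1 := (Fact.out : p.Prime).one_lt
  have p0 : (p : ℚ_[p]) ≠ 0 := Nat.cast_ne_zero.2 (by omega)
  ext n
  rw [coeff_derivative, coeff_X_pow_mul']
  by_cases h : p ∣ n + 1
  · obtain ⟨k, hk⟩ := h
    obtain ⟨k, rfl⟩ : ∃ j, k = j + 1 := Nat.exists_eq_succ_of_ne_zero (by rintro rfl; omega)
    have e : n - (p - 1) = p * k := by rw [mul_add] at hk; omega
    have e2 : ((n : ℚ_[p]) + 1) = p * (k + 1) := by exact_mod_cast hk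
    have k1 : ((k : ℚ_[p]) + 1) ≠ 0 := Nat.cast_add_one_ne_zero k
    have k2 : (k.factorial : ℚ_[p]) ≠ 0 := Nat.cast_ne_zero.2 k.factorial_ne_zero
    rw [if_pos (by rw [mul_add] at hk; omega), e, hk, coeff_expand_mul, coeff_expand_mul,
      coeff_re_Lam, coeff_re_Lam, e2, Nat.factorial_succ, pow_succ]
    push_cast
    field_simp
  · rw [coeff_expand_of_not_dvd _ _ _ h, zero_mul]
    split_ifs with h1
    · refine (coeff_expand_of_not_dvd _ _ _ fun h2 => h ?_).symm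
      rw [show n + 1 = n - (p - 1) + p by omega]
      exact dvd_add h2 dvd_rfl
    · rfl

theorem cm_Lam (F g : PowerSeries ℚ_[p]) {a : ℕ} (m : ℕ) (ha : a < p) :
    coeff (a + p * m) (F * expand p (Fact.out : p.Prime).ne_zero g) =
      ∑ k ∈ range (m + 1), coeff (a + p * k) F * coeff (m - k) g := by
  rw [coeff_mul]
  symm
  refine sum_of_injOn (fun k => (a + p * k, p * (m - k))) (fun x _ y _ h => ?_) (fun k hk => ?_)
    (fun x hx h => ?_) fun k _ => by rw [coeff_expand_mul]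
  · exact Nat.eq_of_mul_eq_mul_left (by omega) (Nat.add_left_cancel (congrArg Prod.fst h))
  · rw [mem_coe, HasAntidiagonal.mem_antidiagonal, add_assoc, ← mul_add,
      Nat.add_sub_cancel' (mem_range_succ_iff.1 hk)]
  · rw [coeff_expand_of_not_dvd, mul_zero]
    rintro ⟨j, hj⟩
    have h1 := HasAntidiagonal.mem_antidiagonal.1 hx
    have h2 : j < m + 1 := Nat.lt_of_mul_lt_mul_left (a := p) (by rw [mul_add]; omega)
    obtain ⟨k, rfl⟩ := Nat.exists_eq_add_of_le (Nat.lt_succ_iff.1 h2)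
    refine h ⟨k, mem_coe.2 (mem_range.2 (by omega)), Prod.ext ?_ ?_⟩
    · rw [mul_add] at h1
      simp only
      omega
    · simp [hj]

theorem rising_Lam (n : ℕ) : rising ((1 : ℤ_[p]) : ℚ_[p]) n = n.factorial := by
  rw [rising, ← prod_range_add_one_eq_factorial]
  push_cast
  exact prod_congr rfl fun i _ => add_comm _ _

theorem lamst (hp : 5 ≤ p) (hg : GamSt p) : LamSt p := by
  have p0 : (p : ℚ_[p]) ≠ 0 := Nat.cast_ne_zero.2 (by omega)
  refine ⟨fun n => ?_, fun a m ha => ?_⟩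
  · have h : d⁄dX ℚ_[p] (Ex p (1 : ℚ_[p]) (p : ℚ_[p])⁻¹) =
        Ex p 1 (p : ℚ_[p])⁻¹ + X ^ (p - 1) * Ex p 1 (p : ℚ_[p])⁻¹ := by
      simp only [Ex, rescale_one, RingHom.id_apply]
      rw [Derivation.leibniz, der_Lam, derivative_exp, smul_eq_mul, smul_eq_mul]
      ring
    have h1 := congrArg (coeff (n + (p - 1))) h
    rw [coeff_derivative, map_add, coeff_X_pow_mul, show n + (p - 1) + 1 = n + p by omega,
      ← Nat.cast_succ, show (n + (p - 1)).succ = n + p by omega,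
      show n + (p - 1) = n + p - 1 by omega, mul_comm] at h1
    exact h1
  · have h : Ex p (1 : ℚ_[p]) (p : ℚ_[p])⁻¹ * expand p (Fact.out : p.Prime).ne_zero
        (rescale (-(p : ℚ_[p])⁻¹) (exp ℚ_[p])) = exp ℚ_[p] := by
      have := Ex_mul p (1 : ℚ_[p]) (p : ℚ_[p])⁻¹ 0 (-(p : ℚ_[p])⁻¹)
      simpa [Ex, rescale_zero] using this
    have h1 := cm_Lam (Ex p (1 : ℚ_[p]) (p : ℚ_[p])⁻¹) (rescale (-(p : ℚ_[p])⁻¹) (exp ℚ_[p])) m ha
    rw [h, coeff_exp] at h1
    have n0 : ((a + p * m).factorial : ℚ_[p]) ≠ 0 := Nat.cast_ne_zero.2 (Nat.factorial_ne_zero _)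
    have h2 : ∑ k ∈ range (m + 1), lam p (a + p * k) * (-(p : ℚ_[p])) ^ k * ff (m : ℚ_[p]) k =
        (-(p : ℚ_[p])) ^ m * m.factorial / (a + p * m).factorial := by
      rw [div_eq_mul_one_div, show (1 / ((a + p * m).factorial : ℚ_[p])) =
        algebraMap ℚ ℚ_[p] (1 / (a + p * m).factorial) by simp, h1, mul_sum]
      refine sum_congr rfl fun k hk => ?_
      obtain ⟨j, rfl⟩ := Nat.exists_eq_add_of_le (mem_range_succ_iff.1 hk)
      have j0 : (j.factorial : ℚ_[p]) ≠ 0 := Nat.cast_ne_zero.2 j.factorial_ne_zero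
      rw [ff_nat, coeff_re_Lam, Nat.add_sub_cancel_left, lam,
        ← Nat.add_choose_mul_factorial_mul_factorial k j, Nat.choose_symm_add, ← inv_neg, inv_pow,
        pow_add]
      have : (-(p : ℚ_[p])) ^ j ≠ 0 := pow_ne_zero _ (neg_ne_zero.2 p0)
      push_cast
      field_simp
    have h3 := hg.1 1 1 (p - 1) (a + p * m) (by omega) (by
      rw [Nat.cast_pred (by omega)]
      ring)
    have e : (a + p * m + p - 1 - (p - 1)) / p = m := by
      rw [show a + p * m + p - 1 - (p - 1) = a + p * m by omega, Nat.add_mul_div_left _ _ (by omega),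
        Nat.div_eq_of_lt ha, zero_add]
    have g1 : gammaP p 1 = -1 := by simpa [gammaNat, filter_singleton] using gammaP_nat hp 1
    rw [e, rising_Lam, rising_Lam, g1] at h3
    have h4 := hg.2 (-(a : ℤ_[p]) - p * m) (-m) a ha (by ring)
    rw [show 1 - (-(a : ℤ_[p]) - p * m) = 1 + ((a + p * m : ℕ) : ℤ_[p]) by push_cast; ring] at h4
    have od : Odd p := (Fact.out : p.Prime).odd_of_ne_two (by omega)
    have s1 : (-1 : ℚ_[p]) ^ (a + p * m) = (-1) ^ a * (-1) ^ m := by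
      rw [pow_add, pow_mul, od.neg_one_pow]
    have s2 : (-1 : ℚ_[p]) ^ a * (-1) ^ a = 1 := by rw [← mul_pow]; simp
    rw [s1, PadicInt.coe_neg, PadicInt.coe_one] at h3
    rw [h2, div_eq_iff n0, neg_pow]
    rw [pow_succ] at h4
    generalize (gammaP p (-(a : ℤ_[p]) - p * m) : ℚ_[p]) = u at h4 ⊢
    generalize (gammaP p (1 + ((a + p * m : ℕ) : ℤ_[p])) : ℚ_[p]) = v at h3 h4
    linear_combination u * h3 + ((-1) ^ a * (-1) ^ m * (p : ℚ_[p]) ^ m * m.factorial) * h4 -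
      ((-1) ^ m * (p : ℚ_[p]) ^ m * m.factorial) * s2

end Pool.Agent.MP_54d89f_nt.Dw
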