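import Pool.Agent.MP_54d89f_nt.Dw.Gk

/-! The Mahler type expansion of the p-adic Gamma function on a residue class. -/

namespace Pool.Agent.MP_54d89f_nt.Dw

open Finset Pool.Agent.MP_030fd4_nt

variable {p : ℕ} [Fact p.Prime]

theorem normff_Mah (y : ℤ_[p]) (k : ℕ) : ‖ff (y : ℚ_[p]) k‖ ≤ 1 :=
  (normGauge p).prod _ _ fun l _ =>
    (normGauge p).sub (show ‖(y : ℚ_[p])‖ ≤ 1 from y.2) (norm_nat_le l)

theorem term_Mah (hb : BndSt p) (E : Eps p) {a : ℕ} (ha : a < p) (y : ℤ_[p]) (k : ℕ) :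
    ‖lam p (a + p * k) * (-(p : ℚ_[p])) ^ k * ff (y : ℚ_[p]) k‖ ≤ (E.e ^ 4) ^ k := by
  have hp0 : 0 < p := by omega
  have hd : (a + p * k) / p = k := by
    rw [Nat.add_mul_div_left _ _ hp0, Nat.div_eq_of_lt ha, zero_add]
  have h1 := hb E (a + p * k)
  rw [hd] at h1
  have h2 := normff_Mah y k
  have he := E.pos
  rw [norm_mul, norm_mul, norm_pow, norm_neg, norm_p_eq E]
  have h3 : ‖lam p (a + p * k)‖ * (E.e ^ 6) ^ k ≤ (E.e ^ 4) ^ k := by
    have e : (E.e ^ 6) ^ k = E.e ^ (2 * k) * (E.e ^ 4) ^ k := by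
      rw [← pow_mul, ← pow_mul, ← pow_add]; congr 1; ring
    rw [e, ← mul_assoc]
    exact mul_le_of_le_one_left (by positivity) h1
  calc _ ≤ ‖lam p (a + p * k)‖ * (E.e ^ 6) ^ k * 1 := by gcongr
    _ ≤ _ := by rw [mul_one]; exact h3

theorem mah (hp : 7 ≤ p) (hl : LamSt p) (hb : BndSt p) : MahSt p := by
  intro a y ha
  obtain ⟨E⟩ := Eps.nonempty (p := p)
  have he := E.pos
  have hs : Summable fun k : ℕ => (E.e ^ 4) ^ k :=
    summable_geometric_of_lt_one (by positivity) (pow_lt_one₀ he.le E.lt (by norm_num))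
  have hsum : ∀ z : ℤ_[p], Summable fun k : ℕ =>
      lam p (a + p * k) * (-(p : ℚ_[p])) ^ k * ff (z : ℚ_[p]) k := fun z =>
    Summable.of_norm_bounded hs (term_Mah hb E ha z)
  have hc : Continuous fun z : ℤ_[p] => ∑' k : ℕ,
      lam p (a + p * k) * (-(p : ℚ_[p])) ^ k * ff (z : ℚ_[p]) k := by
    refine continuous_tsum (fun k => ?_) hs (fun k z => term_Mah hb E ha z k)
    refine continuous_const.mul ?_
    unfold ff
    exact continuous_finsetProd _ fun l _ => continuous_subtype_val.sub continuous_const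
  have hg : Continuous fun z : ℤ_[p] => (gammaP p (-(a : ℤ_[p]) - p * z) : ℚ_[p]) :=
    continuous_subtype_val.comp ((gammaP_cont (by omega)).comp (by fun_prop))
  have key : (∑' k : ℕ, lam p (a + p * k) * (-(p : ℚ_[p])) ^ k * ff (y : ℚ_[p]) k) =
      (gammaP p (-(a : ℤ_[p]) - p * y) : ℚ_[p]) := by
    refine PadicInt.denseRange_natCast.induction_on y
      (p := fun z : ℤ_[p] => (∑' k : ℕ,
        lam p (a + p * k) * (-(p : ℚ_[p])) ^ k * ff (z : ℚ_[p]) k) =
        (gammaP p (-(a : ℤ_[p]) - p * z) : ℚ_[p])) (isClosed_eq hc hg) fun m => ?_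
    rw [← hl.2 a m ha, PadicInt.coe_natCast]
    refine tsum_eq_sum fun k hk => ?_
    rw [ff_nat_eq_zero (by simpa using hk), mul_zero]
  rw [← key]
  exact (hsum y).hasSum

end Pool.Agent.MP_54d89f_nt.Dw
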