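import Pool.Agent.MP_54d89f_nt.Dw.Gk

/-! The telescoping step in the proof of Robert. -/

namespace Pool.Agent.MP_54d89f_nt.Dw

open Finset Pool.Agent.MP_030fd4_nt

variable {p : ℕ} [Fact p.Prime]

noncomputable def uu_Rob (p : ℕ) [Fact p.Prime] (n k : ℕ) : ℚ_[p] :=
  lam p (n + p * k) * (-(p : ℚ_[p])) ^ k

noncomputable def gs_Rob (p : ℕ) [Fact p.Prime] (n : ℕ) (y : ℚ_[p]) : ℚ_[p] :=
  ∑' k, uu_Rob p n k * ff y k

theorem ff_norm_Rob {y : ℚ_[p]} (hy : ‖y‖ ≤ 1) (k : ℕ) : ‖ff y k‖ ≤ 1 := by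
  rw [ff, norm_prod]
  refine prod_le_one (fun _ _ => norm_nonneg _) fun l _ => ?_
  rw [sub_eq_add_neg]
  exact (IsUltrametricDist.norm_add_le_max _ _).trans
    (max_le hy (by rw [norm_neg]; exact norm_nat_le l))

theorem sub_norm_Rob {y : ℚ_[p]} (hy : ‖y‖ ≤ 1) (l : ℕ) : ‖y - l‖ ≤ 1 := by
  rw [sub_eq_add_neg]
  exact (IsUltrametricDist.norm_add_le_max _ _).trans
    (max_le hy (by rw [norm_neg]; exact norm_nat_le l))

theorem lam_norm_Rob (hb : BndSt p) (E : Eps p) {n j : ℕ} (h : n / p ≤ j) :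
    ‖lam p n‖ * E.e ^ (2 * j) ≤ 1 :=
  (mul_le_mul_of_nonneg_left (E.le (by omega)) (norm_nonneg _)).trans (hb E n)

theorem negp_norm_Rob (E : Eps p) (k : ℕ) : ‖(-(p : ℚ_[p])) ^ k‖ = E.e ^ (6 * k) := by
  rw [norm_pow, norm_neg, norm_p_eq E, ← pow_mul]

theorem term_norm_Rob (hb : BndSt p) (E : Eps p) {n j : ℕ} (h : n / p ≤ j) {y : ℚ_[p]}
    (hy : ‖y‖ ≤ 1) (k : ℕ) : ‖uu_Rob p n k * ff y k‖ ≤ (E.e ^ (2 * j))⁻¹ * (E.e ^ 4) ^ k := by
  have h0 := E.pos
  have h1 := lam_norm_Rob hb E (n := n + p * k) (j := j + k) (by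
    rw [Nat.add_mul_div_left _ _ (Fact.out : p.Prime).pos]
    omega)
  rw [le_inv_mul_iff₀ (by positivity), norm_mul, uu_Rob, norm_mul, negp_norm_Rob E]
  calc _ = ‖lam p (n + p * k)‖ * E.e ^ (2 * (j + k)) * (‖ff y k‖ * (E.e ^ 4) ^ k) := by ring
    _ ≤ 1 * (1 * (E.e ^ 4) ^ k) := by
        gcongr
        exact ff_norm_Rob hy k
    _ = _ := by ring

omit [Fact p.Prime] in
theorem geo_Rob (E : Eps p) : HasSum (fun k : ℕ => (E.e ^ 4) ^ k) (1 - E.e ^ 4)⁻¹ :=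
  hasSum_geometric_of_lt_one (pow_pos E.pos 4).le (pow_lt_one₀ E.pos.le E.lt (by norm_num))

theorem summable_Rob (hb : BndSt p) (n : ℕ) {y : ℚ_[p]} (hy : ‖y‖ ≤ 1) :
    Summable fun k => uu_Rob p n k * ff y k := by
  obtain ⟨E⟩ := Eps.nonempty (p := p)
  exact Summable.of_norm_bounded ((geo_Rob E).summable.mul_left _)
    (term_norm_Rob hb E (le_refl (n / p)) hy)

theorem gs_norm_Rob (hb : BndSt p) (E : Eps p) {n j : ℕ} (h : n / p ≤ j) {y : ℚ_[p]}
    (hy : ‖y‖ ≤ 1) : ‖gs_Rob p n y‖ ≤ (E.e ^ (2 * j))⁻¹ * (1 - E.e ^ 4)⁻¹ :=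
  tsum_of_norm_bounded ((geo_Rob E).mul_left _) (term_norm_Rob hb E h hy)

theorem key_Rob (hl : LamSt p) (hb : BndSt p) (n : ℕ) {y : ℚ_[p]} (hy : ‖y‖ ≤ 1)
    (h : y * (1 - p) = n) :
    gs_Rob p n y + p * gs_Rob p (n + p - 1) (y - 1) = (1 - p) * lam p n := by
  have hp := (Fact.out : p.Prime).pos
  have hy1 : ‖y - 1‖ ≤ 1 := by simpa using sub_norm_Rob hy 1
  have sA := summable_Rob hb n hy
  have sB := summable_Rob hb n hy1
  have sC := summable_Rob hb (n + p - 1) hy1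
  let v : ℕ → ℚ_[p] := fun k => uu_Rob p n k * ff y k - p * (uu_Rob p n k * ff (y - 1) k)
  have sv : Summable v := sA.sub (sB.mul_left _)
  have e : ∀ k, uu_Rob p n k * ff y k + p * (uu_Rob p (n + p - 1) k * ff (y - 1) k) =
      v k - v (k + 1) := fun k => by
    have h1 := hl.1 (n + p * k)
    have e1 : n + p * k + p - 1 = n + p - 1 + p * k := by omega
    have e2 : n + p * (k + 1) = n + p * k + p := by ring
    rw [e1] at h1
    push_cast at h1
    simp only [v, uu_Rob, e2]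
    rw [ff_succ' y k, ff_succ (y - 1) k, pow_succ]
    linear_combination (-(p : ℚ_[p]) * (-(p : ℚ_[p])) ^ k * ff (y - 1) k) * h1 -
      (p : ℚ_[p]) * lam p (n + p * k + p) * (-(p : ℚ_[p])) ^ k * ff (y - 1) k * h
  rw [gs_Rob, gs_Rob, ← tsum_mul_left, ← sA.tsum_add (sC.mul_left _), tsum_congr e,
    sv.tsum_sub ((summable_nat_add_iff 1).2 sv), sv.tsum_eq_zero_add, add_sub_cancel_right]
  simp only [v, uu_Rob, ff, mul_zero, add_zero, pow_zero, range_zero, prod_empty]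
  ring

theorem rob (hp : 7 ≤ p) (hl : LamSt p) (hb : BndSt p) (hm : MahSt p) : RobSt p := by
  intro a z ha hz
  obtain ⟨E⟩ := Eps.nonempty (p := p)
  have h0 := E.pos
  have hzq : ((p : ℚ_[p]) - 1) * (z : ℚ_[p]) = a := by exact_mod_cast congrArg Subtype.val hz
  have hy0 : ‖-(z : ℚ_[p])‖ ≤ 1 := by
    rw [norm_neg]
    exact PadicInt.norm_le_one z
  have hdiv : ∀ j : ℕ, (a + (p - 1) * j) / p ≤ j := fun j => by
    refine Nat.lt_succ_iff.1 ((Nat.div_lt_iff_lt_mul (by omega)).2 ?_)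
    have : (p - 1) * j ≤ p * j := Nat.mul_le_mul_right _ (by omega)
    nlinarith
  let T : ℕ → ℚ_[p] := fun j =>
    (-(p : ℚ_[p])) ^ j * gs_Rob p (a + (p - 1) * j) (-(z : ℚ_[p]) - (j : ℚ_[p]))
  have hT : ∀ j, T j - T (j + 1) = (1 - p) * (lam p (a + (p - 1) * j) * (-(p : ℚ_[p])) ^ j) :=
    fun j => by
      have h1 := key_Rob hl hb (a + (p - 1) * j) (sub_norm_Rob hy0 j) (by
        push_cast [Nat.cast_sub (by omega : 1 ≤ p)]
        linear_combination hzq)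
      have e1 : a + (p - 1) * (j + 1) = a + (p - 1) * j + p - 1 := by
        rw [mul_add, mul_one]
        omega
      simp only [T, e1, Nat.cast_succ, ← sub_sub, pow_succ]
      linear_combination (-(p : ℚ_[p])) ^ j * h1
  have hT0 : T 0 = gammaP p z := by
    have h1 := (hm a (-z) ha).tsum_eq
    have e1 : -(a : ℤ_[p]) - p * -z = z := by linear_combination hz
    rw [e1] at h1
    simp only [T, pow_zero, one_mul, mul_zero, add_zero, Nat.cast_zero, sub_zero]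
    rw [← h1]
    rfl
  have hlim : Filter.Tendsto T Filter.atTop (nhds 0) := by
    refine squeeze_zero_norm (a := fun j => (E.e ^ 4) ^ j * (1 - E.e ^ 4)⁻¹) (fun j => ?_) ?_
    · simp only [T]
      rw [norm_mul, negp_norm_Rob E]
      refine (mul_le_mul_of_nonneg_left (gs_norm_Rob hb E (hdiv j) (sub_norm_Rob hy0 j))
        (by positivity)).trans (le_of_eq ?_)
      field_simp
      ring
    · simpa using (geo_Rob E).summable.tendsto_atTop_zero.mul_const (1 - E.e ^ 4)⁻¹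
  have hs : Summable fun j : ℕ => lam p (a + (p - 1) * j) * (-(p : ℚ_[p])) ^ j := by
    refine Summable.of_norm_bounded (geo_Rob E).summable fun j => ?_
    rw [norm_mul, negp_norm_Rob E]
    calc _ = ‖lam p (a + (p - 1) * j)‖ * E.e ^ (2 * j) * (E.e ^ 4) ^ j := by ring
      _ ≤ 1 * (E.e ^ 4) ^ j := by
          gcongr
          exact lam_norm_Rob hb E (hdiv j)
      _ = _ := one_mul _
  have h1 : (1 - p : ℚ_[p]) ≠ 0 := by
    rw [sub_ne_zero]
    exact_mod_cast (by omega : 1 ≠ p)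
  rw [hs.hasSum_iff_tendsto_nat]
  have e : ∀ N, ∑ j ∈ range N, lam p (a + (p - 1) * j) * (-(p : ℚ_[p])) ^ j =
      (T 0 - T N) / (1 - p) := fun N => by
    rw [eq_div_iff h1, mul_comm, mul_sum, ← sum_range_sub']
    exact sum_congr rfl fun j _ => (hT j).symm
  simp only [e, ← hT0]
  simpa using ((tendsto_const_nhds (x := T 0)).sub hlim).div_const (1 - p : ℚ_[p])

end Pool.Agent.MP_54d89f_nt.Dw
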