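import Pool.Agent.MP_54d89f_nt.Dw.Gk

/-! The constant is a root of the quadratic attached to p = a^2 + 3 b^2. -/

namespace Pool.Agent.MP_54d89f_nt.Dw

open Finset Pool.Agent.MP_030fd4_nt

variable {p : Nat} [Fact p.Prime]

theorem zero_Root {q u D : ℤ} (hq : q ≠ 0) (h : q ^ 2 = u ^ 2 + 3 * D ^ 2) (hd : q ∣ D) :
    D = 0 := by
  obtain ⟨c, rfl⟩ := hd
  rcases eq_or_ne c 0 with rfl | hc
  · simp
  · have h1 : 0 < c ^ 2 := by positivity
    have h2 : 0 < q ^ 2 := by positivity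
    have h3 : q ^ 2 * 1 ≤ q ^ 2 * c ^ 2 := mul_le_mul_of_nonneg_left h1 h2.le
    nlinarith [sq_nonneg u]

theorem uniq_Root {q a b a' b' : ℤ} (hq : Prime q) (h : a ^ 2 + 3 * b ^ 2 = q)
    (h' : a' ^ 2 + 3 * b' ^ 2 = q) : a' ^ 2 = a ^ 2 := by
  have e : (a * b' - a' * b) * (a * b' + a' * b) = q * (b' ^ 2 - b ^ 2) := by
    linear_combination b' ^ 2 * h - b ^ 2 * h'
  have z : (a * b' - a' * b) * (a * b' + a' * b) = 0 := by
    rcases hq.dvd_or_dvd ⟨_, e⟩ with hd | hd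
    · rw [zero_Root (u := a * a' + 3 * b * b') hq.ne_zero
        (by linear_combination (-q) * h - (a ^ 2 + 3 * b ^ 2) * h') hd, zero_mul]
    · rw [zero_Root (u := a * a' - 3 * b * b') hq.ne_zero
        (by linear_combination (-q) * h - (a ^ 2 + 3 * b ^ 2) * h') hd, mul_zero]
  rw [e] at z
  have := (mul_eq_zero.1 z).resolve_left hq.ne_zero
  linarith

theorem root (h1 : TeichSt p) (hg : GamSt p) (h2 : GauSt p) (h3 : JacSt p) : RootSt p := by
  intro μ x a b hp hx hab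
  have hpp : p.Prime := Fact.out
  have h5 : 5 ≤ p := by
    have := hpp.two_le
    omega
  obtain ⟨τ, hτ⟩ := h1
  obtain ⟨a', b', hab', hJ⟩ := h3 μ τ hp hτ
  have e1 := h2 μ x τ hp hx hτ
  have hc : (p : ℤ_[p]) = 6 * μ + 1 := by
    have := congrArg (Nat.cast : ℕ → ℤ_[p]) hp
    push_cast at this
    exact this
  have e2 := hg.2 x x μ (by omega) (by rw [hc]; linear_combination (-(μ : ℤ_[p])) * hx)
  rw [show 1 - x = 5 * x by linear_combination -hx] at e2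
  have e3 := congrArg (fun z : ℤ_[p] => (z : ℚ_[p]))
    (gammaP_half h5 (hf := 3 * x) (by linear_combination hx))
  simp only [PadicInt.coe_pow, PadicInt.coe_neg, PadicInt.coe_one] at e3
  have e4 : ((gammaP p x : ℚ_[p]) * (gammaP p (5 * x) : ℚ_[p])) ^ 2 = 1 := by
    rw [e2, ← pow_mul, mul_comm, pow_mul, neg_one_sq, one_pow]
  have e5 : GG x = Jac τ μ ^ 2 := by
    rw [GG, ← e3]
    calc _ = (gammaP p x : ℚ_[p]) ^ 2 *
          (-((gammaP p (2 * x) : ℚ_[p]) * (gammaP p (3 * x) : ℚ_[p]))) ^ 2 := by ring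
      _ = Jac τ μ ^ 2 * ((gammaP p x : ℚ_[p]) * (gammaP p (5 * x) : ℚ_[p])) ^ 2 := by
          rw [← e1]; ring
      _ = _ := by rw [e4, mul_one]
  have e6 : (a' : ℚ_[p]) ^ 2 = (a : ℚ_[p]) ^ 2 := by
    exact_mod_cast uniq_Root (Nat.prime_iff_prime_int.1 hpp) hab hab'
  rw [e5, ← e6]
  linear_combination (Jac τ μ ^ 2 + 2 * a' * Jac τ μ + p) * hJ

end Pool.Agent.MP_54d89f_nt.Dw
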