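import Pool.Agent.Mg.F030fd4.Gf452e6

/-! Definitions, basic lemmas and the statements of the steps for the Dwork form at z = 4. -/

namespace Pool.Agent.MP_54d89f_nt.Dw

open Finset Pool.Agent.MP_030fd4_nt

section

variable {K : Type*} [Field K]

/-- The term of the deformed series. -/
noncomputable def f (t : K) (k : ℕ) : K :=
  rising (1 / 2 + t) k * rising (1 / 2 + 2 * t) k * rising (1 / 2 + 3 * t) k * 4 ^ k /
    ((k.factorial : K) * rising (1 + 2 * t) k * rising (1 + 4 * t) k)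

/-- The three weights. -/
def e (i : Fin 3) (t k : K) : K :=
  ![1, 3 * k + 1 + 6 * t, (3 * k + 1 + 6 * t) * (3 * k + 2 + 6 * t)] i

@[simp] theorem e_zero (t k : K) : e 0 t k = 1 := rfl
@[simp] theorem e_one (t k : K) : e 1 t k = 3 * k + 1 + 6 * t := rfl
@[simp] theorem e_two (t k : K) : e 2 t k = (3 * k + 1 + 6 * t) * (3 * k + 2 + 6 * t) := rfl

/-- The weighted truncated sums. -/
noncomputable def M (i : Fin 3) (t : K) (N : ℕ) : K := ∑ k ∈ range N, f t k * e i t k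

/-- No lower parameter vanishes below N. -/
def Good (t : K) (N : ℕ) : Prop := ∀ k < N, 1 + 2 * t + k ≠ 0 ∧ 1 + 4 * t + k ≠ 0

def up (t k : K) : K := 4 * (1 / 2 + t + k) * (1 / 2 + 2 * t + k) * (1 / 2 + 3 * t + k)

def dn (t k : K) : K := k * (k + 2 * t) * (k + 4 * t)

/-- Numerators of the contiguity ratios. -/
def nn (i : Fin 3) (t : K) : K :=
  ![-3 * (6 * t - 1) ^ 2, -3 * (6 * t - 1) * (6 * t - 5), -3 * (6 * t - 5) ^ 2] i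

@[simp] theorem nn_zero (t : K) : nn 0 t = -3 * (6 * t - 1) ^ 2 := rfl
@[simp] theorem nn_one (t : K) : nn 1 t = -3 * (6 * t - 1) * (6 * t - 5) := rfl
@[simp] theorem nn_two (t : K) : nn 2 t = -3 * (6 * t - 5) ^ 2 := rfl

noncomputable def a0 (K : Type*) [Field K] (m : ℕ) : K :=
  (-1) ^ m * rising 1 (3 * m) * rising (1 / 3) m * rising (2 / 3) m /
    (rising 1 m * rising (1 / 3) (2 * m) ^ 2)

noncomputable def a2 (K : Type*) [Field K] (m : ℕ) : K :=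
  18 * (-1) ^ m * rising 3 (3 * m) * rising (4 / 3) m * rising (5 / 3) m /
    (rising 1 m * rising (5 / 3) (2 * m) ^ 2)

/-- The full sums of the third family. -/
noncomputable def P3 (K : Type*) [Field K] (i : Fin 3) (n : ℕ) : K :=
  M i (-(2 * (n : K) + 1) / 4) (n + 1)

theorem f_zero (t : K) : f t 0 = 1 := by simp [f, rising]

theorem f_succ (t : K) (k : ℕ) : f t (k + 1) = f t k * (up t k / dn t ((k : K) + 1)) := by
  simp only [f, rising, prod_range_succ, Nat.factorial_succ, up, dn, div_mul_div_comm]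
  push_cast
  congr 1 <;> ring

theorem Good.mono {t : K} {N N' : ℕ} (h : Good t N) (hN : N' ≤ N) : Good t N' :=
  fun k hk => h k (by omega)

theorem f_succ_mul [CharZero K] {t : K} {k : ℕ} (h : Good t (k + 1)) :
    dn t ((k : K) + 1) * f t (k + 1) = up t k * f t k := by
  have h0 : dn t ((k : K) + 1) ≠ 0 := by
    obtain ⟨h1, h2⟩ := h k (by omega)
    refine mul_ne_zero (mul_ne_zero (natCast_add_one_ne k) ?_) ?_
    · intro h; apply h1; linear_combination h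
    · intro h; apply h2; linear_combination h
  rw [f_succ]; field_simp

theorem f_eq_zero {t : K} {n k : ℕ} (h : up t n = 0) (hk : n < k) : f t k = 0 := by
  induction k, hk using Nat.le_induction with
  | base => rw [f_succ, h]; simp
  | succ k _ ih => rw [f_succ, ih, zero_mul]

theorem M_stable {t : K} {n N : ℕ} (i : Fin 3) (h : up t n = 0) (hN : n < N) :
    M i t N = M i t (n + 1) := by
  induction N, hN using Nat.le_induction with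
  | base => rfl
  | succ N hN ih =>
    rw [← ih]; simp only [M, sum_range_succ]; rw [f_eq_zero h hN]; simp

theorem rising_cast [CharZero K] (x : ℚ) (k : ℕ) : ((rising x k : ℚ) : K) = rising (x : K) k := by
  simp [rising]

theorem f_cast [CharZero K] (t : ℚ) (k : ℕ) : ((f t k : ℚ) : K) = f (t : K) k := by
  simp [f, rising_cast]

theorem M_cast [CharZero K] (i : Fin 3) (t : ℚ) (N : ℕ) :
    ((M i t N : ℚ) : K) = M i (t : K) N := by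
  fin_cases i <;> simp [M, f_cast]

end

theorem dense_sub {p : ℕ} [Fact p.Prime] {φ ψ : ℤ_[p] → ℚ_[p]} (h1 : Continuous φ)
    (h2 : Continuous ψ) (x : ℤ_[p]) (h : ∀ m : ℕ, φ (x - m) = ψ (x - m)) (t : ℤ_[p]) :
    φ t = ψ t := by
  have : ∀ s : ℤ_[p], φ (x - s) = ψ (x - s) := fun s =>
    PadicInt.denseRange_natCast.induction_on s (p := fun s => φ (x - s) = ψ (x - s))
      (isClosed_eq (h1.comp (by fun_prop)) (h2.comp (by fun_prop))) h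
  simpa using this (x - t)

/-- The constant of the theorem; x is 1/6. -/
noncomputable def GG {p : ℕ} [Fact p.Prime] (x : ℤ_[p]) : ℚ_[p] :=
  (-1) ^ ((p + 1) / 2) * (gammaP p x : ℚ_[p]) ^ 2 * (gammaP p (2 * x) : ℚ_[p]) ^ 2

def StrSt (p : ℕ) [Fact p.Prime] : Prop :=
  ∀ c : Fn p, (∀ E : Eps p, (G2 E).N c 1) → (∀ m, Continuous (c m)) →
    ∃ σ : Fin 3 → ℤ_[p] → ℚ_[p], (∀ j, Continuous (σ j)) ∧
      ∀ (t : ℤ_[p]) (N : ℕ), Good (t : ℚ_[p]) N → ∃ R : ℤ_[p],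
        ∑ m ∈ range N, f (t : ℚ_[p]) m * c m t =
          σ 0 t * M 0 (t : ℚ_[p]) N + σ 1 t * M 1 (t : ℚ_[p]) N + σ 2 t * M 2 (t : ℚ_[p]) N +
            (p : ℚ_[p]) ^ 3 * (dn (t : ℚ_[p]) N * f (t : ℚ_[p]) N) * R

def BlkSt (p : ℕ) [Fact p.Prime] : Prop :=
  ∀ i : Fin 3, ∃ c : Fn p, (∀ E : Eps p, (G2 E).N c 1) ∧ (∀ m, Continuous (c m)) ∧
    ∀ (t : ℤ_[p]) (N : ℕ),
      M i ((p : ℚ_[p]) * t) (p * N) = ∑ m ∈ range N, f (t : ℚ_[p]) m * c m t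

def WZSt : Prop :=
  ∀ (i : Fin 3) (t : ℚ) (N : ℕ), t < 0 → Good t N →
    (2 * t - 3 / 2 + N = 0 ∨ 3 * t - 5 / 2 + N = 0) →
      64 * t ^ 2 * M i (t - 1) (N + 1) = nn i t * M i t (N + 1)

def Fam0St (K : Type) [Field K] : Prop :=
  ∀ m N : ℕ, 3 * m < N → M 0 (-1 / 6 - (m : K)) N = a0 K m ∧ M 1 (-1 / 6 - (m : K)) N = 0 ∧
    M 2 (-1 / 6 - (m : K)) N = 0

def Fam2St (K : Type) [Field K] : Prop :=
  ∀ m N : ℕ, 3 * m + 2 < N → M 0 (-5 / 6 - (m : K)) N = 0 ∧ M 1 (-5 / 6 - (m : K)) N = 0 ∧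
    M 2 (-5 / 6 - (m : K)) N = a2 K m

def Fam3St (K : Type) [Field K] : Prop :=
  (∀ (i : Fin 3) (n : ℕ), 2 ≤ n → 64 * (-(2 * (n : K) + 1) / 4) ^ 2 * P3 K i (n + 2) =
    nn i (-(2 * (n : K) + 1) / 4) * P3 K i n) ∧ ∀ n : ℕ, 2 ≤ n → P3 K 1 n ≠ 0

def RecSt (K : Type) [Field K] : Prop :=
  ∀ m : ℕ, a0 K m ≠ 0 ∧ a2 K m ≠ 0 ∧
    64 * (-1 / 6 - (m : K)) ^ 2 * a0 K (m + 1) = nn 0 (-1 / 6 - (m : K)) * a0 K m ∧
    64 * (-5 / 6 - (m : K)) ^ 2 * a2 K (m + 1) = nn 2 (-5 / 6 - (m : K)) * a2 K m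

def GamSt (p : ℕ) [Fact p.Prime] : Prop :=
  (∀ (x y : ℤ_[p]) (r n : ℕ), r < p → x + r = p * y →
    rising (x : ℚ_[p]) n * (gammaP p x : ℚ_[p]) =
      (-1) ^ n * (gammaP p (x + n) : ℚ_[p]) * (p : ℚ_[p]) ^ ((n + p - 1 - r) / p) *
        rising (y : ℚ_[p]) ((n + p - 1 - r) / p)) ∧
  ∀ (x y : ℤ_[p]) (r : ℕ), r < p → x + r = p * y →
    (gammaP p x : ℚ_[p]) * (gammaP p (1 - x) : ℚ_[p]) = (-1) ^ (r + 1)

def Ev00St (p : ℕ) [Fact p.Prime] : Prop :=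
  ∀ (μ : ℕ) (x : ℤ_[p]) (s : ℤ_[p] → ℚ_[p]), p = 6 * μ + 1 → 6 * x = 1 → Continuous s →
    (∀ m : ℕ, s (-x - m) * a0 ℚ_[p] m = a0 ℚ_[p] (p * m + μ)) → s 0 = GG x

def Ev22St (p : ℕ) [Fact p.Prime] : Prop :=
  ∀ (μ : ℕ) (x : ℤ_[p]) (s : ℤ_[p] → ℚ_[p]), p = 6 * μ + 1 → 6 * x = 1 → Continuous s →
    (∀ m : ℕ, s (-5 * x - m) * a2 ℚ_[p] m = a2 ℚ_[p] (p * m + 5 * μ)) →
      GG x * s 0 = (p : ℚ_[p]) ^ 2

def Ev02St (p : ℕ) [Fact p.Prime] : Prop :=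
  ∀ (μ : ℕ) (x : ℤ_[p]) (s : ℤ_[p] → ℚ_[p]), p = 6 * μ + 5 → 6 * x = 1 → Continuous s →
    (∀ m : ℕ, s (-5 * x - m) * a2 ℚ_[p] m = a0 ℚ_[p] (p * m + (5 * μ + 4))) →
      18 * s 0 = -((p : ℚ_[p]) ^ 2 * GG x)

def Ev20St (p : ℕ) [Fact p.Prime] : Prop :=
  ∀ (μ : ℕ) (x : ℤ_[p]) (s : ℤ_[p] → ℚ_[p]), p = 6 * μ + 5 → 6 * x = 1 → Continuous s →
    (∀ m : ℕ, s (-x - m) * a0 ℚ_[p] m = a2 ℚ_[p] (p * m + μ)) → GG x * s 0 = -18

/-- The middle coefficient vanishes. Here nn i t = -3 (6t - c)^2, nn j t = -3 (6t - d)^2,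
A, B are the closed forms for c and d, and p d = c + 6 μ. -/
def MidSt (p : ℕ) [Fact p.Prime] : Prop :=
  ∀ (i j : Fin 3) (c d μ : ℕ) (x w : ℤ_[p]) (A B : ℕ → ℚ_[p]) (s τ : ℤ_[p] → ℚ_[p]),
    (c = 1 ∨ c = 5) → (d = 1 ∨ d = 5) → p * d = c + 6 * μ → 6 * x = 1 → 4 * w = 1 →
    (∀ t : ℚ_[p], nn i t = -3 * (6 * t - c) ^ 2) → (∀ t : ℚ_[p], nn j t = -3 * (6 * t - d) ^ 2) →
    (∀ m : ℕ, 64 * (-(c : ℚ_[p]) / 6 - m) ^ 2 * A (m + 1) = nn i (-(c : ℚ_[p]) / 6 - m) * A m) →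
    (∀ m : ℕ, B m ≠ 0 ∧
      64 * (-(d : ℚ_[p]) / 6 - m) ^ 2 * B (m + 1) = nn j (-(d : ℚ_[p]) / 6 - m) * B m) →
    Continuous s → Continuous τ →
    (∀ m : ℕ, s (-(d : ℤ_[p]) * x - m) * B m = A (p * m + μ)) →
    (∀ m : ℕ, P3 ℚ_[p] i (p * (2 * m + 2) + p / 2) =
      s (-5 * w - m) * P3 ℚ_[p] j (2 * m + 2) + τ (-5 * w - m) * P3 ℚ_[p] 1 (2 * m + 2)) →
    ∀ t, τ t = 0

end Pool.Agent.MP_54d89f_nt.Dw
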