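import Pool.Agent.MP_54d89f_nt.Dw.St

/-! The structure theorem for weighted sums of the deformed series. -/

namespace Pool.Agent.MP_54d89f_nt.Dw

open Finset Pool.Agent.MP_030fd4_nt

variable {p : ℕ} [Fact p.Prime]

/-- The bracket as a function of the offset. -/
def br_Str {A : Type*} [CommRing A] (h t i u : A) : A :=
  4 * (h + t + (i + u)) * (h + 2 * t + (i + u)) * (h + 3 * t + (i + u)) -
    (i + u + 2 * t) * (i + u + 4 * t) * u

def ca_Str {A : Type*} [CommRing A] (h t i : A) : A :=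
  h * (br_Str h t i 2 - 2 * br_Str h t i 1 + br_Str h t i 0)

def cb_Str {A : Type*} [CommRing A] (h t i : A) : A := br_Str h t i 1 - br_Str h t i 0

def cc_Str {A : Type*} [CommRing A] (h t i : A) : A := br_Str h t i 0

/-- The moments. -/
noncomputable def mu_Str {K : Type*} [Field K] (t : K) (N n : ℕ) : K :=
  ∑ m ∈ range N, f t m * ff (m : K) n

theorem tele_Str {K : Type*} [Field K] [CharZero K] (t : K) (i : ℕ) : ∀ N : ℕ, Good t N →
    3 * mu_Str t N (i + 3) + ca_Str (1 / 2) t i * mu_Str t N (i + 2) +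
      cb_Str (1 / 2) t i * mu_Str t N (i + 1) + cc_Str (1 / 2) t i * mu_Str t N i =
      dn t N * f t N * ff ((N : K) - 1) i := by
  intro N
  induction N with
  | zero => intro _; simp [mu_Str, dn]
  | succ N ih =>
    intro h
    have i1 := ih (h.mono (Nat.le_succ N))
    have e3 := f_succ_mul h
    have e4 : (N : K) * ff ((N : K) - 1) i = ff (N : K) i * (N - i) := by
      rw [← ff_succ', ff_succ]
    unfold mu_Str at i1 ⊢
    simp only [sum_range_succ]
    push_cast
    rw [e3, show (N : K) + 1 - 1 = N by ring]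
    have a1 := ff_succ (N : K) i
    have a2 := ff_succ (N : K) (i + 1)
    have a3 := ff_succ (N : K) (i + 2)
    rw [a3, a2, a1]
    simp only [ca_Str, cb_Str, cc_Str, br_Str, up, dn] at i1 ⊢
    push_cast
    linear_combination i1 + f t N * ((N : K) + 2 * t) * ((N : K) + 4 * t) * e4

theorem mu_zero_Str {K : Type*} [Field K] [CharZero K] (t : K) {N n : ℕ} (h : N ≤ n) :
    mu_Str t N n = 0 :=
  sum_eq_zero fun m hm => by
    rw [ff_nat_eq_zero (by have := mem_range.1 hm; omega), mul_zero]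

theorem mu0_Str {K : Type*} [Field K] (t : K) (N : ℕ) : mu_Str t N 0 = M 0 t N := by
  simp [mu_Str, M, ff]

theorem mu1_Str {K : Type*} [Field K] (t : K) (N : ℕ) :
    3 * mu_Str t N 1 = -(1 + 6 * t) * M 0 t N + M 1 t N := by
  simp only [mu_Str, M, mul_sum, ← sum_add_distrib]
  refine sum_congr rfl fun m _ => ?_
  simp [ff]; ring

theorem mu2_Str {K : Type*} [Field K] (t : K) (N : ℕ) :
    9 * mu_Str t N 2 = (1 + 6 * t) * (4 + 6 * t) * M 0 t N - (6 + 12 * t) * M 1 t N +
      M 2 t N := by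
  simp only [mu_Str, M, mul_sum, ← sum_add_distrib, ← sum_sub_distrib]
  refine sum_congr rfl fun m _ => ?_
  simp [ff, prod_range_succ]; ring

theorem newton_Str {K : Type*} [Field K] [CharZero K] (t : K) (N : ℕ) (c : ℕ → K) :
    ∑ m ∈ range N, f t m * c m =
      ∑ n ∈ range N, ((fwdDiff 1)^[n] c 0 / (n.factorial : K)) * mu_Str t N n := by
  have e : ∀ m ∈ range N, f t m * c m = ∑ n ∈ range N,
      ((fwdDiff 1)^[n] c 0 / (n.factorial : K)) * (f t m * ff (m : K) n) := by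
    intro m hm
    have h := shift_eq_sum_fwdDiff_iter (1 : ℕ) c m 0
    simp only [smul_eq_mul, mul_one, zero_add, nsmul_eq_mul] at h
    rw [h, mul_sum]
    rw [← sum_subset (range_subset_range.2 (Nat.succ_le_of_lt (mem_range.1 hm)))]
    · refine sum_congr rfl fun n _ => ?_
      have h1 : ((n.factorial : K)) ≠ 0 := by exact_mod_cast n.factorial_ne_zero
      rw [ff_nat]; field_simp
    · intro n _ hn
      rw [ff_nat_eq_zero (by simpa using hn)]; simp
  rw [sum_congr rfl e, sum_comm]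
  refine sum_congr rfl fun n _ => ?_
  rw [← mul_sum, mu_Str]

/-- The reduction of one moment. -/
def Red_Str (p : ℕ) [Fact p.Prime] (n : ℕ) : Prop :=
  ∃ al be ga : ℤ_[p] → ℤ_[p], Continuous al ∧ Continuous be ∧ Continuous ga ∧
    ∀ (t : ℤ_[p]) (N : ℕ), Good (t : ℚ_[p]) N → ∃ ρ : ℤ_[p], (n < 3 → ρ = 0) ∧
      mu_Str (t : ℚ_[p]) N n = al t * M 0 (t : ℚ_[p]) N + be t * M 1 (t : ℚ_[p]) N +
        ga t * M 2 (t : ℚ_[p]) N + dn (t : ℚ_[p]) N * f (t : ℚ_[p]) N * ρ

theorem coe_nat_Str (n : ℕ) [n.AtLeastTwo] :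
    ((OfNat.ofNat n : ℤ_[p]) : ℚ_[p]) = OfNat.ofNat n := PadicInt.coe_natCast n

theorem red_Str (hp : 5 ≤ p) (n : ℕ) : Red_Str p n := by
  obtain ⟨hf, h2⟩ := exists_half hp
  have hh := coe_half h2
  obtain ⟨th, h3⟩ : ∃ th : ℤ_[p], (th : ℚ_[p]) * 3 = 1 := by
    have : ‖((3 : ℕ) : ℚ_[p])‖ = 1 := norm_nat_unit (not_dvd_of_lt (by omega) (by omega))
    push_cast at this
    refine ⟨⟨1 / 3, by rw [norm_div, this]; simp⟩, ?_⟩
    change (1 / 3 : ℚ_[p]) * 3 = 1
    norm_num
  have c2 := coe_nat_Str (p := p) 2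
  have c3 := coe_nat_Str (p := p) 3
  have c4 := coe_nat_Str (p := p) 4
  have c6 := coe_nat_Str (p := p) 6
  have c12 := coe_nat_Str (p := p) 12
  have key : ∀ n, Red_Str p n ∧ Red_Str p (n + 1) ∧ Red_Str p (n + 2) := by
    intro n
    induction n with
    | zero =>
      refine ⟨⟨fun _ => 1, fun _ => 0, fun _ => 0, by fun_prop, by fun_prop, by fun_prop,
        fun t N _ => ⟨0, fun _ => rfl, by simp [mu0_Str]⟩⟩,
        ⟨fun t => -(th * (1 + 6 * t)), fun _ => th, fun _ => 0, by fun_prop, by fun_prop,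
          by fun_prop, fun t N _ => ⟨0, fun _ => rfl, ?_⟩⟩,
        ⟨fun t => th * th * ((1 + 6 * t) * (4 + 6 * t)), fun t => -(th * th * (6 + 12 * t)),
          fun _ => th * th, by fun_prop, by fun_prop, by fun_prop,
          fun t N _ => ⟨0, fun _ => rfl, ?_⟩⟩⟩
      · have := mu1_Str (t : ℚ_[p]) N
        push_cast [c6]
        linear_combination (th : ℚ_[p]) * this - mu_Str (t : ℚ_[p]) N 1 * h3
      · have := mu2_Str (t : ℚ_[p]) N
        push_cast [c6, c4, c12]
        linear_combination (th : ℚ_[p]) ^ 2 * this -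
          mu_Str (t : ℚ_[p]) N 2 * ((th : ℚ_[p]) * 3 + 1) * h3
    | succ n ih =>
      refine ⟨ih.2.1, ih.2.2, ?_⟩
      obtain ⟨⟨a0, b0, g0, x0, y0, z0, r0⟩, ⟨a1, b1, g1, x1, y1, z1, r1⟩,
        ⟨a2, b2, g2, x2, y2, z2, r2⟩⟩ := ih
      have ka : Continuous fun t : ℤ_[p] => ca_Str hf t n := by unfold ca_Str br_Str; fun_prop
      have kb : Continuous fun t : ℤ_[p] => cb_Str hf t n := by unfold cb_Str br_Str; fun_prop
      have kc : Continuous fun t : ℤ_[p] => cc_Str hf t n := by unfold cc_Str br_Str; fun_prop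
      refine ⟨fun t => -(th * (ca_Str hf t n * a2 t + cb_Str hf t n * a1 t + cc_Str hf t n * a0 t)),
        fun t => -(th * (ca_Str hf t n * b2 t + cb_Str hf t n * b1 t + cc_Str hf t n * b0 t)),
        fun t => -(th * (ca_Str hf t n * g2 t + cb_Str hf t n * g1 t + cc_Str hf t n * g0 t)),
        by fun_prop, by fun_prop, by fun_prop, fun t N hN => ?_⟩
      obtain ⟨ρ0, -, e0⟩ := r0 t N hN
      obtain ⟨ρ1, -, e1⟩ := r1 t N hN
      obtain ⟨ρ2, -, e2⟩ := r2 t N hN
      obtain ⟨w, hw⟩ : ∃ w : ℤ_[p], (w : ℚ_[p]) = ff ((N : ℚ_[p]) - 1) n :=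
        ⟨⟨_, norm_ff N n⟩, rfl⟩
      have ea : ((ca_Str hf t n : ℤ_[p]) : ℚ_[p]) = ca_Str (1 / 2) (t : ℚ_[p]) n := by
        simp only [ca_Str, br_Str]; push_cast [c2, c3, c4, hh]; ring
      have eb : ((cb_Str hf t n : ℤ_[p]) : ℚ_[p]) = cb_Str (1 / 2) (t : ℚ_[p]) n := by
        simp only [cb_Str, br_Str]; push_cast [c2, c3, c4, hh]; ring
      have ec : ((cc_Str hf t n : ℤ_[p]) : ℚ_[p]) = cc_Str (1 / 2) (t : ℚ_[p]) n := by
        simp only [cc_Str, br_Str]; push_cast [c2, c3, c4, hh]; ring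
      refine ⟨th * (w - (ca_Str hf t n * ρ2 + cb_Str hf t n * ρ1 + cc_Str hf t n * ρ0)),
        fun h => by omega, ?_⟩
      have T := tele_Str (t : ℚ_[p]) n N hN
      rw [e0, e1, e2, ← hw, ← ea, ← eb, ← ec] at T
      push_cast
      linear_combination (th : ℚ_[p]) * T - mu_Str (t : ℚ_[p]) N (n + 3) * h3
  exact (key n).1

/-- The Newton coefficients. -/
noncomputable def g_Str (c : Fn p) (n : ℕ) (t : ℤ_[p]) : ℚ_[p] :=
  (fwdDiff 1)^[n] c 0 t / (n.factorial : ℚ_[p])

theorem g_bound_Str (E : Eps p) (hp : 5 ≤ p) {c : Fn p} (hc : (G2 E).N c 1) (n k : ℕ)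
    (hk : ∀ v, 4 * v ≤ n - 1 → k + 6 * v ≤ 5 * n) (t : ℤ_[p]) : ‖g_Str c n t‖ ≤ E.e ^ k := by
  have hv : 4 * padicValNat p n.factorial ≤ n - 1 := by
    rcases Nat.eq_zero_or_pos n with rfl | h
    · simp
    · have := sub_one_mul_padicValNat_factorial_lt_of_ne_zero p (n := n) (by omega)
      have h4 : 4 * padicValNat p n.factorial ≤ (p - 1) * padicValNat p n.factorial :=
        Nat.mul_le_mul_right _ (by omega)
      omega
  have e : ‖(n.factorial : ℚ_[p])‖ = E.e ^ (6 * padicValNat p n.factorial) := by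
    rw [Padic.norm_eq_zpow_neg_valuation (by exact_mod_cast Nat.factorial_ne_zero _),
      Padic.valuation_natCast, pow_mul, E.six, zpow_neg, zpow_natCast, inv_pow]
  have h1 : ‖(fwdDiff 1)^[n] c 0 t‖ ≤ 1 * (E.e ^ 5) ^ n :=
    Gauge.lift_pt (G := normGauge p) (Gauge.lift_iter hc n 0) t
  rw [g_Str, norm_div, e, div_le_iff₀ (pow_pos E.pos _), ← pow_add]
  rw [one_mul, ← pow_mul] at h1
  exact h1.trans (E.le (hk _ hv))

theorem g_cont_Str {c : Fn p} (hc : ∀ m, Continuous (c m)) (n : ℕ) : Continuous (g_Str c n) := by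
  have e : g_Str c n = fun t => (∑ k ∈ range (n + 1), ((-1 : ℤ) ^ (n - k) * n.choose k) • c k t) /
      (n.factorial : ℚ_[p]) := by
    funext t; simp [g_Str, fwdDiff_iter_eq_sum_shift, Finset.sum_apply]
  rw [e]
  refine (continuous_finsetSum _ fun k _ => ?_).div_const _
  simp only [zsmul_eq_mul]
  exact continuous_const.mul (hc k)

theorem str (hp : 5 ≤ p) : StrSt p := by
  intro c hc cc
  obtain ⟨E⟩ := Eps.nonempty (p := p)
  choose al be ga h1 h2 h3 hr using red_Str (p := p) hp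
  have hu := summable_geometric_of_lt_one E.pos.le E.lt
  have hb : ∀ n t (z : ℤ_[p]), ‖g_Str c n t * z‖ ≤ E.e ^ n := fun n t z =>
    (normGauge p).mul1' (g_bound_Str E hp (hc E) n n (fun v hv => by omega) t)
      (PadicInt.norm_le_one z)
  have hs : ∀ t (z : ℕ → ℤ_[p]), Summable fun n => g_Str c n t * z n := fun t z =>
    Summable.of_norm_bounded hu fun n => hb n t _
  have hcn : ∀ z : ℕ → ℤ_[p] → ℤ_[p], (∀ n, Continuous (z n)) →
      Continuous fun t => ∑' n, g_Str c n t * z n t := fun z hz =>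
    continuous_tsum (fun n => (g_cont_Str cc n).mul (cont_coe.comp (hz n))) hu
      fun n t => hb n t _
  refine ⟨![fun t => ∑' n, g_Str c n t * al n t, fun t => ∑' n, g_Str c n t * be n t,
    fun t => ∑' n, g_Str c n t * ga n t], fun j => ?_, fun t N hN => ?_⟩
  · fin_cases j
    exacts [hcn al h1, hcn be h2, hcn ga h3]
  choose ρ hρ e using fun n => hr n t N hN
  obtain ⟨R, hR⟩ := exists_cube E (x := ∑' n, g_Str c n t * ρ n)
    (IsUltrametricDist.norm_tsum_le_of_forall_le fun n => by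
      rcases lt_or_ge n 3 with h | h
      · rw [hρ n h]; simpa using (pow_pos E.pos _).le
      · exact (normGauge p).mul1' (g_bound_Str E hp (hc E) n 13 (fun v hv => by omega) t)
          (PadicInt.norm_le_one _))
  refine ⟨R, ?_⟩
  have s1 : HasSum (fun n => g_Str c n t * mu_Str (t : ℚ_[p]) N n)
      (∑ n ∈ range N, g_Str c n t * mu_Str (t : ℚ_[p]) N n) :=
    hasSum_sum_of_ne_finset_zero fun n hn => by
      rw [mu_zero_Str _ (by simpa using hn), mul_zero]
  have s2 := ((((hs t fun n => al n t).hasSum.mul_right (M 0 (t : ℚ_[p]) N)).add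
    ((hs t fun n => be n t).hasSum.mul_right (M 1 (t : ℚ_[p]) N))).add
    ((hs t fun n => ga n t).hasSum.mul_right (M 2 (t : ℚ_[p]) N))).add
    ((hs t ρ).hasSum.mul_right (dn (t : ℚ_[p]) N * f (t : ℚ_[p]) N))
  have s3 := s1.unique (s2.congr_fun fun n => by rw [e n]; ring)
  rw [newton_Str]
  simp only [← iter_apply]
  refine s3.trans ?_
  rw [hR]
  simp only [Matrix.cons_val_zero, Matrix.cons_val_one, Matrix.cons_val]
  ring

end Pool.Agent.MP_54d89f_nt.Dw
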