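import Pool.Agent.MP_54d89f_nt.Dw.Fin

/-! The last (p-1)/2 terms below p n are small. -/

namespace Pool.Agent.MP_54d89f_nt.Dw

open Finset Pool.Agent.MP_030fd4_nt

variable {p : ℕ} [Fact p.Prime]

theorem step_down (hp : 5 ≤ p) {k : ℕ} (hk : ¬ p ∣ 2 * k + 1) :
    ‖f (0 : ℚ_[p]) k‖ ≤ ‖((k + 1 : ℕ) : ℚ_[p]) ^ 3 * f (0 : ℚ_[p]) (k + 1)‖ := by
  have hG : Good (0 : ℚ_[p]) (k + 1) := by
    intro l _
    have := natCast_add_one_ne (K := ℚ_[p]) l
    simp only [mul_zero, add_zero]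
    exact ⟨by rwa [add_comm], by rwa [add_comm]⟩
  have h := f_succ_mul hG
  have e : ((2 : ℕ) : ℚ_[p]) * (((k + 1 : ℕ) : ℚ_[p]) ^ 3 * f (0 : ℚ_[p]) (k + 1)) =
      ((2 * k + 1 : ℕ) : ℚ_[p]) ^ 3 * f (0 : ℚ_[p]) k := by
    simp only [dn, up] at h
    push_cast
    linear_combination 2 * h
  have e' := congrArg norm e
  rw [norm_mul, norm_nat_unit (not_dvd_of_lt (by omega) (by omega)), one_mul,
    norm_mul (((2 * k + 1 : ℕ) : ℚ_[p]) ^ 3), norm_pow, norm_nat_unit hk] at e'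
  rw [e']; simp

theorem term_small (hp : 5 ≤ p) (n : ℕ) (hn : 0 < n) : ∀ i, 2 * (i + 1) < p →
    ‖f (0 : ℚ_[p]) (p * n - (i + 1))‖ ≤
      ‖(p : ℚ_[p]) ^ 3 * (n : ℚ_[p]) ^ 3 * f (0 : ℚ_[p]) n‖ := by
  have hpn : p ≤ p * n := Nat.le_mul_of_pos_right p hn
  have hd : ∀ i, 2 * (i + 1) < p → ¬ p ∣ 2 * (p * n - (i + 1)) + 1 := by
    intro i hi h
    have h2 : p ∣ 2 * (p * n - (i + 1)) + 1 + (2 * i + 1) := by
      rw [show 2 * (p * n - (i + 1)) + 1 + (2 * i + 1) = p * (2 * n) by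
        rw [show p * (2 * n) = 2 * (p * n) by ring]; omega]
      exact dvd_mul_right _ _
    exact not_dvd_of_lt (by omega) (by omega) ((Nat.dvd_add_right h).1 h2)
  intro i
  induction i with
  | zero =>
    intro hi
    refine (step_down hp (hd 0 hi)).trans ?_
    rw [show p * n - (0 + 1) + 1 = p * n by omega]
    obtain ⟨hf, h2⟩ := exists_half hp
    obtain ⟨E⟩ := Eps.nonempty (p := p)
    have hb := block_Blk hp h2 0 n
    simp only [PadicInt.coe_zero, mul_zero] at hb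
    have hU := G2_pt E (G2_U_Blk E hp h2) n 0
    rw [hb, Nat.cast_mul, mul_pow, ← mul_assoc, norm_mul]
    exact mul_le_of_le_one_right (norm_nonneg _) hU
  | succ i ih =>
    intro hi
    refine (step_down hp (hd (i + 1) hi)).trans ?_
    rw [show p * n - (i + 1 + 1) + 1 = p * n - (i + 1) by omega, norm_mul, norm_pow]
    exact (mul_le_of_le_one_left (norm_nonneg _)
      (pow_le_one₀ (norm_nonneg _) (norm_nat_le _))).trans (ih (by omega))

theorem exists_quot {x D : ℚ_[p]} (h : ‖x‖ ≤ ‖D‖) : ∃ R : ℤ_[p], x = D * R := by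
  rcases eq_or_ne D 0 with rfl | hD
  · exact ⟨0, by simpa using h⟩
  · refine ⟨⟨x / D, ?_⟩, ?_⟩
    · rw [norm_div]; exact div_le_one_of_le₀ h (norm_nonneg _)
    · change x = D * (x / D)
      field_simp

theorem norm_e_le (i : Fin 3) (k : ℕ) : ‖e i (0 : ℚ_[p]) (k : ℚ_[p])‖ ≤ 1 := by
  have h1 := norm_nat_le (p := p) (3 * k + 1)
  have h2 := norm_nat_le (p := p) ((3 * k + 1) * (3 * k + 2))
  push_cast at h1 h2
  fin_cases i
  · simp
  · simpa using h1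
  · simpa using h2

theorem tail (hp : 5 ≤ p) (i : Fin 3) (n j : ℕ) (hj : 2 * j < p) : ∃ R : ℤ_[p],
    M i (0 : ℚ_[p]) (p * n - j) = M i (0 : ℚ_[p]) (p * n) +
      (p : ℚ_[p]) ^ 3 * (n : ℚ_[p]) ^ 3 * f (0 : ℚ_[p]) n * R := by
  rcases Nat.eq_zero_or_pos n with rfl | hn
  · exact ⟨0, by simp⟩
  have hpn : p ≤ p * n := Nat.le_mul_of_pos_right p hn
  have key : ‖M i (0 : ℚ_[p]) (p * n - j) - M i (0 : ℚ_[p]) (p * n)‖ ≤
      ‖(p : ℚ_[p]) ^ 3 * (n : ℚ_[p]) ^ 3 * f (0 : ℚ_[p]) n‖ := by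
    induction j with
    | zero => simp only [Nat.sub_zero, sub_self, norm_zero]; exact norm_nonneg _
    | succ j ih =>
      have e1 : M i (0 : ℚ_[p]) (p * n - j) = M i (0 : ℚ_[p]) (p * n - (j + 1)) +
          f (0 : ℚ_[p]) (p * n - (j + 1)) * e i (0 : ℚ_[p]) ((p * n - (j + 1) : ℕ) : ℚ_[p]) := by
        rw [show p * n - j = p * n - (j + 1) + 1 by omega, M, sum_range_succ, M]
      have e2 : M i (0 : ℚ_[p]) (p * n - (j + 1)) - M i (0 : ℚ_[p]) (p * n) =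
          (M i (0 : ℚ_[p]) (p * n - j) - M i (0 : ℚ_[p]) (p * n)) -
          f (0 : ℚ_[p]) (p * n - (j + 1)) * e i (0 : ℚ_[p]) ((p * n - (j + 1) : ℕ) : ℚ_[p]) := by
        rw [e1]; ring
      rw [e2]
      exact (normGauge p).sub (ih (by omega))
        ((normGauge p).mul1' (term_small hp n hn j hj) (norm_e_le i _))
  obtain ⟨R, hR⟩ := exists_quot key
  exact ⟨R, by linear_combination hR⟩

end Pool.Agent.MP_54d89f_nt.Dw
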