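import Pool.Agent.MP_54d89f_nt.Dw.Gk

namespace Pool.Agent.MP_54d89f_nt.Dw

open Finset Pool.Agent.MP_030fd4_nt

variable {p : ℕ} [Fact p.Prime]

theorem uniq_Teich (f : ℤ_[p] →+* ZMod p) (x : ℤ_[p]) : PadicInt.toZMod x = f x := by
  have h := PadicInt.toZMod_spec x
  rw [PadicInt.maximalIdeal_eq_span_p, Ideal.mem_span_singleton] at h
  obtain ⟨c, hc⟩ := h
  have e := congrArg f hc
  rw [map_sub, map_mul, map_natCast, ZMod.natCast_self, zero_mul, sub_eq_zero,
    ZMod.ringHom_map_cast] at e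
  exact e.symm

theorem teich : TeichSt p := by
  refine ⟨⟨⟨fun y => WittVector.equiv p (WittVector.teichmuller p y), by simp⟩, by simp,
    fun x y => by simp⟩, fun y => ?_⟩
  rw [uniq_Teich (WittVector.constantCoeff.comp (WittVector.equiv p).symm.toRingHom)]
  simp

end Pool.Agent.MP_54d89f_nt.Dw
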