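import Pool.Agent.MP_54d89f_nt.Dw.Gk

namespace Pool.Agent.MP_54d89f_nt.Dw

open Finset Pool.Agent.MP_030fd4_nt

variable {p : Nat} [Fact p.Prime]

open PowerSeries

theorem coeff_Ex_Th {K : Type*} [Field K] [CharZero K] (a b : K) (n : ℕ) :
    coeff n (Ex p a b) = ∑ q ∈ antidiagonal n, a ^ q.1 * ((q.1.factorial : K))⁻¹ *
      if p ∣ q.2 then b ^ (q.2 / p) * (((q.2 / p).factorial : K))⁻¹ else 0 := by
  rw [Ex, coeff_mul]
  refine sum_congr rfl fun q _ => ?_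
  rw [coeff_expand, coeff_rescale, coeff_rescale, coeff_exp, coeff_exp]
  simp

theorem coeff_lam_Th (c : ℂ_[p]) (n : ℕ) :
    coeff n (Ex p c (c ^ p * (p : ℂ_[p])⁻¹)) = algebraMap ℚ_[p] ℂ_[p] (lam p n) * c ^ n := by
  rw [lam, coeff_Ex_Th, coeff_Ex_Th, map_sum, sum_mul]
  refine sum_congr rfl fun q hq => ?_
  rw [← mem_antidiagonal.1 hq]
  split_ifs with h
  · obtain ⟨k, hk⟩ := h
    have hp : 0 < p := (Fact.out : p.Prime).pos
    rw [hk, Nat.mul_div_cancel_left k hp]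
    simp only [map_mul, map_pow, map_inv₀, map_natCast, one_pow, map_one, mul_pow, pow_add,
      pow_mul]
    ring
  · simp

/-- Absolute convergence at one. -/
def S_Th (F : PowerSeries ℂ_[p]) : Prop := Summable fun n => ‖coeff n F‖

/-- Value at one. -/
noncomputable def ev_Th (F : PowerSeries ℂ_[p]) : ℂ_[p] := ∑' n, coeff n F

theorem ev_mul_Th {F G : PowerSeries ℂ_[p]} (hF : S_Th F) (hG : S_Th G) :
    S_Th (F * G) ∧ ev_Th (F * G) = ev_Th F * ev_Th G := by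
  simp only [S_Th, ev_Th, coeff_mul]
  exact ⟨summable_norm_sum_mul_antidiagonal_of_summable_norm (f := fun n => coeff n F)
      (g := fun n => coeff n G) hF hG,
    (tsum_mul_tsum_eq_tsum_sum_antidiagonal_of_summable_norm (f := fun n => coeff n F)
      (g := fun n => coeff n G) hF hG).symm⟩

theorem ev_one_Th : ev_Th (1 : PowerSeries ℂ_[p]) = 1 := by
  simp [ev_Th, coeff_one]

theorem norm_map_Th (x : ℚ_[p]) : ‖algebraMap ℚ_[p] ℂ_[p] x‖ = ‖x‖ := norm_algebraMap' _ x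

theorem expand_Th {F : PowerSeries ℂ_[p]} (hF : S_Th F) :
    S_Th (expand p (Fact.out : p.Prime).ne_zero F) ∧
      ev_Th (expand p (Fact.out : p.Prime).ne_zero F) = ev_Th F := by
  have hi : Function.Injective fun n : ℕ => p * n :=
    mul_right_injective₀ (Fact.out : p.Prime).ne_zero
  have h0 : ∀ n, n ∉ Set.range (fun n : ℕ => p * n) →
      coeff n (expand p (Fact.out : p.Prime).ne_zero F) = 0 := fun n hn =>
    coeff_expand_of_not_dvd _ _ _ fun ⟨k, hk⟩ => hn ⟨k, hk.symm⟩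
  constructor
  · refine (hi.summable_iff fun n hn => by rw [h0 n hn, norm_zero]).1 ?_
    simpa [Function.comp_def, coeff_expand_mul, S_Th] using hF
  · unfold ev_Th
    rw [← hi.tsum_eq fun n hn => by_contra fun h => hn (h0 n h)]
    simp [coeff_expand_mul]

theorem exp_Th (hp : 7 ≤ p) (E : Eps p) {c : ℂ_[p]} (hc : ‖c‖ ≤ E.e ^ 6) :
    S_Th (rescale c (exp ℂ_[p])) := by
  refine Summable.of_nonneg_of_le (fun _ => norm_nonneg _) (fun n => ?_)
    (summable_geometric_of_lt_one E.pos.le E.lt)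
  have h1 : ‖((n.factorial : ℕ) : ℂ_[p])‖ = E.e ^ (6 * padicValNat p n.factorial) := by
    rw [← map_natCast (algebraMap ℚ_[p] ℂ_[p]), norm_map_Th,
      Padic.norm_eq_zpow_neg_valuation (by exact_mod_cast n.factorial_ne_zero),
      Padic.valuation_natCast, pow_mul, E.six, zpow_neg, zpow_natCast, inv_pow]
  have h2 : 6 * padicValNat p n.factorial ≤ n := by
    have := sub_one_mul_padicValNat_factorial (p := p) n
    have h3 : 6 * padicValNat p n.factorial ≤ (p - 1) * padicValNat p n.factorial :=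
      Nat.mul_le_mul_right _ (by omega)
    omega
  rw [coeff_rescale, coeff_exp]
  simp only [one_div, map_inv₀, map_natCast, norm_mul, norm_pow, norm_inv]
  rw [h1, mul_inv_le_iff₀ (pow_pos E.pos _), ← pow_add]
  refine (pow_le_pow_left₀ (norm_nonneg _) hc n).trans ?_
  rw [← pow_mul]
  exact E.le (by omega)

theorem small_Th (hp : 7 ≤ p) (E : Eps p) {c : ℂ_[p]} (hc : ‖c‖ ≤ E.e ^ 6) :
    S_Th (Ex p c (-c)) ∧ ev_Th (Ex p c (-c)) = 1 := by
  have h1 := exp_Th hp E hc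
  have h2 := exp_Th hp E (c := -c) (by rwa [norm_neg])
  obtain ⟨h3, h4⟩ := expand_Th h2
  obtain ⟨h5, h6⟩ := ev_mul_Th h1 h3
  refine ⟨h5, ?_⟩
  rw [Ex, h6, h4, ← (ev_mul_Th h1 h2).2, exp_mul_exp_eq_exp_add, add_neg_cancel, rescale_zero]
  simpa using ev_one_Th

theorem summ_Th (E : Eps p) : Summable fun n : ℕ => E.e ^ (4 * (n / p)) := by
  have hp : 0 < p := (Fact.out : p.Prime).pos
  obtain ⟨r, r0, hr⟩ : ∃ r : ℝ, 0 < r ∧ r ^ p = E.e :=
    ⟨E.e ^ ((p : ℕ) : ℝ)⁻¹, Real.rpow_pos_of_pos E.pos _,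
      Real.rpow_inv_natCast_pow E.pos.le hp.ne'⟩
  have r1 : r < 1 := by
    by_contra h
    have := one_le_pow₀ (not_lt.1 h) (n := p)
    linarith [E.lt]
  refine Summable.of_nonneg_of_le (fun _ => (pow_pos E.pos _).le) (fun n => ?_)
    ((summable_geometric_of_lt_one r0.le r1).mul_right (r ^ p)⁻¹)
  rw [le_mul_inv_iff₀ (pow_pos r0 _), ← hr, ← pow_mul, ← pow_add]
  refine pow_le_pow_of_le_one r0.le r1.le ?_
  have h1 := Nat.div_add_mod n p
  have h2 := Nat.mod_lt n hp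
  have h3 : p * (4 * (n / p)) = 4 * (p * (n / p)) := by ring
  omega

theorem th (hp : 7 ≤ p) (hb : BndSt p) : ThSt p := by
  intro w hw
  obtain ⟨E⟩ := Eps.nonempty (p := p)
  have hnp : ‖(p : ℂ_[p])‖ = E.e ^ 6 := by
    rw [← map_natCast (algebraMap ℚ_[p] ℂ_[p]), norm_map_Th, norm_p_eq]
  have hw1 : ‖w‖ ^ (p - 1) = E.e ^ 6 := by rw [← norm_pow, hw, norm_neg, hnp]
  have hw2 : ‖w‖ ≤ 1 := by
    by_contra h
    have := one_lt_pow₀ (not_le.1 h) (n := p - 1) (by omega)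
    linarith [E.le_one 6]
  have hp0 : (p : ℂ_[p]) ≠ 0 := by exact_mod_cast (by omega : p ≠ 0)
  have hwp : w ^ p * (p : ℂ_[p])⁻¹ = -w := by
    have : w ^ p = w ^ (p - 1) * w := by rw [← pow_succ]; congr 1; omega
    rw [this, hw]; field_simp
  obtain ⟨u, hu⟩ : ∃ u : ℤ_[p] →+* ℂ_[p], ∀ z, u z = algebraMap ℚ_[p] ℂ_[p] (z : ℚ_[p]) :=
    ⟨(algebraMap ℚ_[p] ℂ_[p]).comp PadicInt.Coe.ringHom, fun _ => rfl⟩
  have hu1 : ∀ z, ‖u z‖ ≤ 1 := fun z => by rw [hu, norm_map_Th]; exact z.2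
  have hco : ∀ z n, coeff n (Ex p (w * u z) (-(w * u z ^ p))) =
      algebraMap ℚ_[p] ℂ_[p] (lam p n) * w ^ n * u z ^ n := fun z n => by
    rw [mul_assoc, ← mul_pow, ← coeff_lam_Th, mul_pow, mul_right_comm, hwp, neg_mul]
  have hS : ∀ z, S_Th (Ex p (w * u z) (-(w * u z ^ p))) := fun z => by
    refine Summable.of_nonneg_of_le (fun _ => norm_nonneg _) (fun n => ?_) (summ_Th E)
    rw [hco, norm_mul, norm_mul, norm_map_Th, norm_pow, norm_pow]
    have h1 : ‖w‖ ^ n ≤ E.e ^ (2 * (n / p)) * E.e ^ (4 * (n / p)) := by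
      have h2 : (p - 1) * (n / p) ≤ n :=
        (Nat.mul_le_mul_right _ (Nat.sub_le p 1)).trans (Nat.mul_div_le n p)
      refine (pow_le_pow_of_le_one (norm_nonneg _) hw2 h2).trans (le_of_eq ?_)
      rw [pow_mul, hw1]; ring
    have h3 : ‖u z‖ ^ n ≤ 1 := pow_le_one₀ (norm_nonneg _) (hu1 z)
    have h4 := hb E n
    have h5 := pow_pos E.pos (4 * (n / p))
    calc ‖lam p n‖ * ‖w‖ ^ n * ‖u z‖ ^ n ≤ ‖lam p n‖ * ‖w‖ ^ n * 1 := by gcongr
      _ ≤ ‖lam p n‖ * (E.e ^ (2 * (n / p)) * E.e ^ (4 * (n / p))) := by rw [mul_one]; gcongr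
      _ ≤ 1 * E.e ^ (4 * (n / p)) := by rw [← mul_assoc]; gcongr
      _ = _ := one_mul _
  refine ⟨fun z => ev_Th (Ex p (w * u z) (-(w * u z ^ p))), fun z => ?_, ?_, ?_⟩
  · have := (Summable.of_norm (hS z)).hasSum
    simpa only [hco, ← hu, ev_Th] using this
  · have h0 : p ≠ 0 := by omega
    simp [h0, Ex_zero, ev_one_Th]
  · rintro z z' z'' h1 h2 h3 ⟨v, hv⟩
    have hc : ‖w * (p * u v)‖ ≤ E.e ^ 6 := by
      rw [norm_mul, norm_mul, hnp]
      have h5 := pow_pos E.pos 6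
      calc ‖w‖ * (E.e ^ 6 * ‖u v‖) ≤ 1 * (E.e ^ 6 * 1) := by gcongr; exact hu1 v
        _ = _ := by ring
    obtain ⟨h4, h5⟩ := small_Th hp E hc
    have h6 : u z + u z' = u z'' + p * u v := by
      have := congrArg u hv
      simp only [map_sub, map_add, map_mul, map_natCast] at this
      linear_combination this
    simp only
    rw [← (ev_mul_Th (hS z) (hS z')).2, ← mul_one (ev_Th (Ex p (w * u z'') _)), ← h5,
      ← (ev_mul_Th (hS z'') h4).2, Ex_mul, Ex_mul, ← map_pow, ← map_pow, ← map_pow, h1, h2, h3]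
    congr 2
    · linear_combination w * h6
    · linear_combination -w * h6

end Pool.Agent.MP_54d89f_nt.Dw
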